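import Mathlib

/-!
# Semisimple endomorphisms and commutators
-/

namespace Pool.Agent.Helper59.ZP

variable {K : Type*} [Field K] {M : Type*} [AddCommGroup M] [Module K M] [Module.Finite K M]

/-- the trace form is non-degenerate -/
lemma eq_zero_of_trace_mul (A : Module.End K M)
    (h : ∀ B : Module.End K M, LinearMap.trace K M (A * B) = 0) : A = 0 := by
  by_contra hA
  obtain ⟨x, hx⟩ : ∃ x, A x ≠ 0 := by
    by_contra hcon
    push Not at hcon
    exact hA (LinearMap.ext hcon)
  obtain ⟨l, hl⟩ : ∃ l : Module.Dual K M, l (A x) ≠ 0 := by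
    by_contra hcon
    push Not at hcon
    exact hx ((Module.forall_dual_apply_eq_zero_iff K _).1 hcon)
  have h1 := h (l.smulRight x)
  have h2 : A * l.smulRight x = l.smulRight (A x) := by
    refine LinearMap.ext fun y => ?_
    rw [Module.End.mul_apply, LinearMap.smulRight_apply, LinearMap.smulRight_apply, map_smul]
  rw [h2, LinearMap.trace_smulRight] at h1
  exact hl h1

/-- a nilpotent endomorphism which commutes with everything that commutes with `F` is a commutator
with `F` -/
lemma exists_commutator (F n : Module.End K M)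
    (hn : IsNilpotent n) (hc : ∀ Z : Module.End K M, Commute F Z → Commute n Z) :
    ∃ T : Module.End K M, F * T - T * F = n := by
  let ad : Module.End K M →ₗ[K] Module.End K M :=
    LinearMap.mulLeft K F - LinearMap.mulRight K F
  have had : ∀ T, ad T = F * T - T * F := fun T => rfl
  by_contra hcon
  have hn' : n ∉ LinearMap.range ad := by
    rintro ⟨T, hT⟩
    exact hcon ⟨T, (had T).symm.trans hT⟩
  -- a functional which is zero on the range and not zero at `n`
  obtain ⟨φ, hφn, hφ⟩ := Submodule.exists_dual_map_eq_bot_of_notMem hn' inferInstance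
  -- the functional is a trace
  let τ : Module.End K M →ₗ[K] Module.Dual K (Module.End K M) :=
    LinearMap.mk₂ K (fun A B => LinearMap.trace K M (A * B))
      (fun a b c => by rw [add_mul, map_add]) (fun a b c => by rw [smul_mul_assoc, map_smul])
      (fun a b c => by rw [mul_add, map_add]) (fun a b c => by rw [mul_smul_comm, map_smul])
  have hτ : ∀ A B, τ A B = LinearMap.trace K M (A * B) := fun A B => rfl
  have hinj : Function.Injective τ := by
    rw [injective_iff_map_eq_zero]
    intro A hA
    exact eq_zero_of_trace_mul A fun B => by rw [← hτ, hA, LinearMap.zero_apply]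
  have hsurj : Function.Surjective τ :=
    (LinearMap.injective_iff_surjective_of_finrank_eq_finrank
      (Subspace.dual_finrank_eq (K := K) (V := Module.End K M)).symm).1 hinj
  obtain ⟨Z, hZ⟩ := hsurj φ
  have h0 : ∀ T, LinearMap.trace K M (Z * (F * T - T * F)) = 0 := by
    intro T
    rw [← hτ, hZ, ← had]
    have h1 : φ (ad T) ∈ (LinearMap.range ad).map φ := ⟨ad T, ⟨T, rfl⟩, rfl⟩
    rw [hφ, Submodule.mem_bot] at h1
    exact h1
  have hcomm : Z * F - F * Z = 0 := by
    refine eq_zero_of_trace_mul _ fun T => ?_
    have h1 := h0 T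
    rw [mul_sub, map_sub, ← mul_assoc, ← mul_assoc,
      LinearMap.trace_mul_cycle K Z T F] at h1
    rw [sub_mul, map_sub]
    exact h1
  have h2 : Commute n Z := hc Z (sub_eq_zero.1 hcomm).symm
  have h3 : IsNilpotent (Z * n) := h2.symm.isNilpotent_mul_left hn
  have h4 : φ n = 0 := by
    rw [← hZ, hτ]
    exact (LinearMap.isNilpotent_trace_of_isNilpotent h3).eq_zero
  exact hφn h4

/-- if no non-zero polynomial in `F` is a commutator with `F` then `F` is semisimple -/
theorem isSemisimple_of_commutator [PerfectField K] (F : Module.End K M)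
    (h : ∀ T n : Module.End K M, F * T - T * F = n → n ∈ Algebra.adjoin K {F} → n = 0) :
    F.IsSemisimple := by
  obtain ⟨n, hn, s, hs, hnil, hss, hF⟩ := Module.End.exists_isNilpotent_isSemisimple (f := F)
  have hc : ∀ Z : Module.End K M, Commute F Z → Commute n Z := fun Z hZ =>
    (Algebra.commute_of_mem_adjoin_singleton_of_commute hn hZ.symm).symm
  obtain ⟨T, hT⟩ := exists_commutator F n hnil hc
  have h1 := h T n hT hn
  rw [hF, h1, zero_add]
  exact hss

/-- polynomials in `F` preserve the subspaces which are stable under `F` -/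
lemma mem_of_mem_adjoin {F n : Module.End K M} (hn : n ∈ Algebra.adjoin K {F})
    {S : Submodule K M} (hS : ∀ x ∈ S, F x ∈ S) : ∀ x ∈ S, n x ∈ S := by
  induction hn using Algebra.adjoin_induction with
  | mem a ha =>
    rw [Set.mem_singleton_iff] at ha
    rw [ha]
    exact hS
  | algebraMap r => exact fun x hx => S.smul_mem r hx
  | add a b _ _ ha hb => exact fun x hx => S.add_mem (ha x hx) (hb x hx)
  | mul a b _ _ ha hb => exact fun x hx => ha _ (hb x hx)

end Pool.Agent.Helper59.ZP
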