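import Mathlib
import Pool.Agent.Helper11.ZO.Tate

/-!
# Ranks of the spaces of algebraic classes: definitions
-/

universe u v w

open CategoryTheory

namespace Pool.Agent.Helper59.ZP

open Pool.Agent.Helper10 SmProjVar

variable {k : Type u} [Field k] {K : Type v} [Field K]

/-- The dimension `a(Y)` of the `K`-span of the classes of algebraic cycles in `H(Y)`. -/
noncomputable def cycRank (W : CohomologyData.{u, v, w} k K) (Y : SmProjVar k) : ℕ :=
  Module.finrank K (W.algClasses Y)

/-- The span of the classes in the span of the classes of algebraic cycles which are orthogonal to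
all classes of algebraic cycles. -/
def nullClasses (W : CohomologyData.{u, v, w} k K) (Y : SmProjVar k) : Submodule K (W.H Y) :=
  Submodule.span K {u : W.H Y | u ∈ W.algClasses Y ∧ ∀ v ∈ W.algClasses Y, W.pairing Y u v = 0}

/-- The dimension `n(Y)` of the span of the classes of algebraic cycles modulo the classes
orthogonal to all classes of algebraic cycles, i.e. modulo numerical equivalence. -/
noncomputable def numCycRank (W : CohomologyData.{u, v, w} k K) (Y : SmProjVar k) : ℕ :=
  cycRank W Y - Module.finrank K (nullClasses W Y)

/-- For a finite field `k` with `q` elements: the dimension of the span of the Tate classes in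
`H(Y)`, i.e. of the classes in the `H^{2 j}(Y)` which are annihilated by a power of `F - q ^ j`. -/
noncomputable def tateCycRank [Finite k] (W : CohomologyData.{u, v, w} k K) (Y : SmProjVar k) :
    ℕ :=
  Module.finrank K (Submodule.span K {u : W.H Y | ∃ j, Pool.Agent.Helper59.ZO.IsTate W Y j u})

end Pool.Agent.Helper59.ZP
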