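import Mathlib
import Pool.Agent.Helper59.ZP.LevelDefs
import Pool.Agent.Helper34.ZP.Defs
import Pool.Agent.Helper59.ZO.Final
import Pool.Agent.Helper11.Zt.Sym

/-!
# The zero-one law for all powers, in terms of Weil cohomology theories
-/

universe u v w

open CategoryTheory Filter Topology

namespace Pool.Agent.Helper59.ZP

open Pool.Agent.Helper10 Pool.Agent.Helper11 SmProjVar Pool.Agent.Helper59.ZO
  Pool.Agent.Helper34.ZP

variable {k : Type u} [Field k] {K : Type v} [Field K] [CharZero K]
  (W : WeilCohomology.{u, v, w} k K)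

lemma hr_base (Y : SmProjVar k) : hr (base W) Y = cycRank W.toCohomologyData Y := rfl

lemma radS_le (Y : SmProjVar k) : radS (base W) Y ≤ (base W).alg Y := fun _ h => h.1

lemma nr_base (Y : SmProjVar k) : nr (base W) Y = numCycRank W.toCohomologyData Y := by
  have h1 : (base W).alg Y ⊓ radS (base W) Y = radS (base W) Y := inf_eq_right.mpr (radS_le W Y)
  have h2 : Submodule.span K {u : W.H Y | u ∈ W.algClasses Y ∧
      ∀ v ∈ W.algClasses Y, W.pairing Y u v = 0} = radS (base W) Y :=
    Submodule.span_eq (radS (base W) Y)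
  have h3 : nr (base W) Y = Module.finrank K ((base W).alg Y) -
      Module.finrank K ((base W).alg Y ⊓ radS (base W) Y : Submodule K ((base W).H Y)) := rfl
  rw [h3, h1]
  unfold numCycRank nullClasses
  rw [h2]
  rfl

lemma d_base (Y : SmProjVar k) : (base W).D Y ↔ W.StandardD Y := by
  constructor
  · intro h
    by_contra hD
    obtain ⟨z, hz0, hz⟩ := exists_null W hD
    exact hz0 (h z hz)
  · intro hD x hx
    exact Degen.eq_zero_of_standardD hD hx.1 hx.2

lemma dp_base (X : SmProjVar k) : (base W).DP X ↔ ∀ n, W.StandardD (X.selfProd n) :=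
  forall_congr' fun n => d_base W (X.selfProd n)

lemma numCycRank_le (Y : SmProjVar k) :
    numCycRank W.toCohomologyData Y ≤ cycRank W.toCohomologyData Y := Nat.sub_le _ _

lemma numCycRank_pos (Y : SmProjVar k) : 1 ≤ numCycRank W.toCohomologyData Y := by
  obtain ⟨p, hp, hp1⟩ := exists_trace_one W Y
  have hfin := Degen.finite_H W Y
  have h2 : radS (base W) Y < (base W).alg Y := by
    refine lt_of_le_of_ne (radS_le W Y) fun h => ?_
    have h3 : (1 : (base W).H Y) ∈ (base W).alg Y := (base W).one_mem Y
    rw [← h] at h3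
    have h4 : W.trL Y (1 * p) = 0 := h3.2 p hp
    rw [one_mul, hp1] at h4
    exact one_ne_zero h4
  have h3 := Submodule.finrank_lt_finrank_of_lt h2
  rw [← nr_base]
  have h1 : (base W).alg Y ⊓ radS (base W) Y = radS (base W) Y := inf_eq_right.mpr (radS_le W Y)
  have h4 : nr (base W) Y = Module.finrank K ((base W).alg Y) -
      Module.finrank K ((base W).alg Y ⊓ radS (base W) Y : Submodule K ((base W).H Y)) := rfl
  rw [h4, h1]
  omega

lemma numCycRank_eq_of_standardD {Y : SmProjVar k} (hD : W.StandardD Y) :
    numCycRank W.toCohomologyData Y = cycRank W.toCohomologyData Y := by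
  rw [← nr_base, ← hr_base]
  have h1 : radS (base W) Y = ⊥ := by
    rw [eq_bot_iff]
    intro x hx
    exact (Submodule.mem_bot K).mpr ((d_base W Y).mpr hD x hx)
  have h4 : nr (base W) Y = Module.finrank K ((base W).alg Y) -
      Module.finrank K ((base W).alg Y ⊓ radS (base W) Y : Submodule K ((base W).H Y)) := rfl
  rw [h4, h1, inf_bot_eq, finrank_bot]
  rfl

/-- the conclusion of the zero-one law -/
def ZopFor (W : WeilCohomology.{u, v, w} k K) : Prop :=
  ∀ X : SmProjVar k, ¬ (base W).DP X → ∀ m : ℕ, ∃ N, ∀ n ≥ N,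
    m * nr (base W) (X.selfProd n) ≤ hr (base W) (X.selfProd n)

variable {W}

/-- If D fails for some power of `X`, the proportion of the numerically non-trivial classes among
all algebraic classes on `X ^ (n + 1)` tends to zero. -/
theorem tendsto_of_not (hz : ZopFor W) {X : SmProjVar k}
    (hD : ¬ ∀ n, W.StandardD (X.selfProd n)) :
    Tendsto (fun n => (numCycRank W.toCohomologyData (X.selfProd n) : ℝ) /
      cycRank W.toCohomologyData (X.selfProd n)) atTop (𝓝 0) := by
  have h0 := hz X (fun h => hD ((dp_base W X).mp h))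
  rw [Metric.tendsto_atTop]
  intro ε hε
  obtain ⟨m, hm⟩ := exists_nat_gt (1 / ε)
  obtain ⟨N, hN⟩ := h0 (m + 1)
  refine ⟨N, fun n hn => ?_⟩
  have h1 := hN n hn
  rw [nr_base, hr_base] at h1
  have h2 := numCycRank_pos W (X.selfProd n)
  have h3 := numCycRank_le W (X.selfProd n)
  have h4 : (0 : ℝ) < cycRank W.toCohomologyData (X.selfProd n) := by exact_mod_cast h2.trans h3
  rw [Real.dist_eq, sub_zero, abs_of_nonneg (by positivity), div_lt_iff₀ h4]
  have h5 : ((m : ℝ) + 1) * numCycRank W.toCohomologyData (X.selfProd n) ≤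
      cycRank W.toCohomologyData (X.selfProd n) := by exact_mod_cast h1
  have h6 : (0 : ℝ) < numCycRank W.toCohomologyData (X.selfProd n) := by exact_mod_cast h2
  have h7 : 1 < ε * (m + 1) := by
    have := (div_lt_iff₀ hε).mp hm
    nlinarith
  calc (numCycRank W.toCohomologyData (X.selfProd n) : ℝ)
      < ε * (m + 1) * numCycRank W.toCohomologyData (X.selfProd n) := by nlinarith
    _ = ε * ((m + 1) * numCycRank W.toCohomologyData (X.selfProd n)) := by ring
    _ ≤ ε * cycRank W.toCohomologyData (X.selfProd n) := mul_le_mul_of_nonneg_left h5 hε.le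

/-- D for all powers of `X` is equivalent to a positive proportion of numerically non-trivial
classes on infinitely many powers. -/
theorem standardD_powers_iff (hz : ZopFor W) (X : SmProjVar k) :
    (∀ n, W.StandardD (X.selfProd n)) ↔ ∃ ε : ℝ, 0 < ε ∧ ∃ᶠ n in atTop,
      ε * cycRank W.toCohomologyData (X.selfProd n) ≤
        numCycRank W.toCohomologyData (X.selfProd n) := by
  constructor
  · intro h
    refine ⟨1, one_pos, Eventually.frequently (Eventually.of_forall fun n => ?_)⟩
    rw [numCycRank_eq_of_standardD W (h n), one_mul]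
  · rintro ⟨ε, hε, hf⟩
    by_contra hD
    have h1 := tendsto_of_not hz hD
    have h2 : ∀ᶠ n in atTop, (numCycRank W.toCohomologyData (X.selfProd n) : ℝ) /
        cycRank W.toCohomologyData (X.selfProd n) < ε := h1.eventually_lt_const hε
    obtain ⟨n, h3, h4⟩ := (hf.and_eventually h2).exists
    have h5 : (0 : ℝ) < cycRank W.toCohomologyData (X.selfProd n) := by
      exact_mod_cast (numCycRank_pos W (X.selfProd n)).trans (numCycRank_le W (X.selfProd n))
    rw [div_lt_iff₀ h5] at h4
    exact absurd h3 (not_le.mpr h4)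

/-- D for all varieties over `k` is equivalent to a uniform lower bound for the proportion of the
numerically non-trivial classes. -/
theorem standardD_all_iff (hz : ZopFor W) :
    (∀ X, W.StandardD X) ↔ ∃ ε : ℝ, 0 < ε ∧ ∀ Y,
      ε * cycRank W.toCohomologyData Y ≤ numCycRank W.toCohomologyData Y := by
  constructor
  · intro h
    refine ⟨1, one_pos, fun Y => ?_⟩
    rw [numCycRank_eq_of_standardD W (h Y), one_mul]
  · rintro ⟨ε, hε, hf⟩ X
    exact (standardD_powers_iff hz X).mpr
      ⟨ε, hε, (Eventually.of_forall fun n => hf _).frequently⟩ 0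

lemma cycRank_le_tate [Finite k] (W : WeilCohomology.{u, v, w} k K) (Y : SmProjVar k) :
    cycRank W.toCohomologyData Y ≤ tateCycRank W.toCohomologyData Y := by
  have hfin := Degen.finite_H W Y
  refine Submodule.finrank_mono ?_
  unfold CohomologyData.algClasses
  refine Submodule.span_le.mpr ?_
  rintro _ ⟨j, c, rfl⟩
  refine Submodule.subset_span ⟨j, W.cycleClasses.cy_mem Y j c, 1, ?_⟩
  exact sub_eq_zero.mpr (Zt.pull_frob_cy W Y j c)

/-- Over a finite field: if the numerically non-trivial algebraic classes are a positive proportion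
of the Tate classes on infinitely many powers of `X`, then D holds for all powers of `X`. -/
theorem standardD_of_tate [Finite k] (hz : ZopFor W) (X : SmProjVar k)
    (h : ∃ ε : ℝ, 0 < ε ∧ ∃ᶠ n in atTop,
      ε * tateCycRank W.toCohomologyData (X.selfProd n) ≤
        numCycRank W.toCohomologyData (X.selfProd n)) (n : ℕ) :
    W.StandardD (X.selfProd n) := by
  obtain ⟨ε, hε, hf⟩ := h
  refine (standardD_powers_iff hz X).mpr ⟨ε, hε, hf.mono fun n hn => ?_⟩ n
  refine le_trans ?_ hn
  have h1 : (cycRank W.toCohomologyData (X.selfProd n) : ℝ) ≤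
      tateCycRank W.toCohomologyData (X.selfProd n) := by
    exact_mod_cast cycRank_le_tate W (X.selfProd n)
  exact mul_le_mul_of_nonneg_left h1 hε.le

end Pool.Agent.Helper59.ZP
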