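import Mathlib
import Pool.Agent.Helper59.ZP.Level
import Pool.Agent.Helper34.ZP.G8

/-!
# The zero-one law for all powers, in terms of Weil cohomology theories
-/

universe u v w

open CategoryTheory Filter Topology

namespace Pool.Agent.Helper59.ZP

open Pool.Agent.Helper10 Pool.Agent.Helper11 SmProjVar Pool.Agent.Helper59.ZO
  Pool.Agent.Helper34.ZP

variable {k : Type u} [Field k] {K : Type v} [Field K] [CharZero K]
  (W : WeilCohomology.{u, v, w} k K)

lemma nr_base_pos (Y : SmProjVar k) : 1 ≤ nr (base W) Y := by
  rw [nr_base]
  exact numCycRank_pos W Y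

theorem zopFor : ZopFor W := fun X h m => zop (nr_base_pos W) X h m

variable {W}

/-- If D fails for some power of `X`, the proportion of the numerically non-trivial classes among
all algebraic classes on `X ^ (n + 1)` tends to zero. -/
theorem ratio_tendsto_zero {X : SmProjVar k} (hD : ¬ ∀ n, W.StandardD (X.selfProd n)) :
    Tendsto (fun n => (numCycRank W.toCohomologyData (X.selfProd n) : ℝ) /
      cycRank W.toCohomologyData (X.selfProd n)) atTop (𝓝 0) :=
  tendsto_of_not (zopFor W) hD

/-- If D fails for some power of `X`, the proportion of the numerically non-trivial classes among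
all algebraic classes on `X ^ (n + 1)` is at most a constant divided by `log n`. -/
theorem ratio_le {X : SmProjVar k} (hD : ¬ ∀ n, W.StandardD (X.selfProd n)) :
    ∃ C : ℝ, 0 < C ∧ ∀ n : ℕ, (numCycRank W.toCohomologyData (X.selfProd n) : ℝ) *
      Real.log (n + 2) ≤ C * cycRank W.toCohomologyData (X.selfProd n) := by
  obtain ⟨C, hC, h⟩ := zop_rate (nr_base_pos W) X (fun h => hD ((dp_base W X).mp h))
  refine ⟨C, hC, fun n => ?_⟩
  have h1 := h n
  rw [nr_base, hr_base] at h1
  exact h1

/-- D for all powers of `X` is equivalent to a positive proportion of numerically non-trivial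
classes on infinitely many powers. -/
theorem powers_iff (X : SmProjVar k) :
    (∀ n, W.StandardD (X.selfProd n)) ↔ ∃ ε : ℝ, 0 < ε ∧ ∃ᶠ n in atTop,
      ε * cycRank W.toCohomologyData (X.selfProd n) ≤
        numCycRank W.toCohomologyData (X.selfProd n) :=
  standardD_powers_iff (zopFor W) X

/-- D for all varieties over `k` is equivalent to a uniform lower bound for the proportion of the
numerically non-trivial classes. -/
theorem all_iff :
    (∀ X, W.StandardD X) ↔ ∃ ε : ℝ, 0 < ε ∧ ∀ Y,
      ε * cycRank W.toCohomologyData Y ≤ numCycRank W.toCohomologyData Y :=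
  standardD_all_iff (zopFor W)

end Pool.Agent.Helper59.ZP
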