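import Mathlib
import Pool.Agent.Helper59.ZP.LevelDefs

/-!
# Systems of classes on the powers of a variety: definitions
-/

universe u v w

open CategoryTheory

namespace Pool.Agent.Helper59.ZP

open Pool.Agent.Helper10 SmProjVar

variable {k : Type u} [Field k] {K : Type v} [Field K]

/-- For every `n` a space `V n` of classes in `H(X ^ (n + 1))` which contains the classes of
algebraic cycles, such that algebraic correspondences between powers of `X` map the spaces `V n`
into each other. -/
structure IsSystem (W : CohomologyData.{u, v, w} k K) (X : SmProjVar k)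
    (V : ∀ n : ℕ, Submodule K (W.H (X.selfProd n))) : Prop where
  alg_le : ∀ n, W.algClasses (X.selfProd n) ≤ V n
  map_mem : ∀ (m n : ℕ) (f : W.H (X.selfProd m) → W.H (X.selfProd n)),
    W.IsAlgebraicMap (X.selfProd m) (X.selfProd n) f → ∀ u ∈ V m, f u ∈ V n

/-- A system of classes on the powers of `X` on which the Poincaré duality pairings are
non-degenerate. -/
structure IsPerfectSystem (W : CohomologyData.{u, v, w} k K) (X : SmProjVar k)
    (V : ∀ n : ℕ, Submodule K (W.H (X.selfProd n))) : Prop extends IsSystem W X V where
  nondegenerate : ∀ (n : ℕ), ∀ u ∈ V n, (∀ v ∈ V n, W.pairing (X.selfProd n) u v = 0) → u = 0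

/-- For a finite field `k` with `q` elements: the span of the Tate classes in `H(Y)`, i.e. of the
classes in the `H^{2 j}(Y)` which are annihilated by a power of `F - q ^ j`. -/
def tateClasses [Finite k] (W : CohomologyData.{u, v, w} k K) (Y : SmProjVar k) :
    Submodule K (W.H Y) :=
  Submodule.span K {u : W.H Y | ∃ j, Pool.Agent.Helper59.ZO.IsTate W Y j u}

/-- D holds for all powers of `X`. -/
def StandardDPowers (W : CohomologyData.{u, v, w} k K) (X : SmProjVar k) : Prop :=
  ∀ n, W.StandardD (X.selfProd n)

/-- The proportion of the numerically non-trivial classes of algebraic cycles on `X ^ (n + 1)` among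
the classes in `V n`: the quotient of the dimensions. -/
noncomputable def density (W : CohomologyData.{u, v, w} k K) (X : SmProjVar k)
    (V : ∀ n : ℕ, Submodule K (W.H (X.selfProd n))) (n : ℕ) : ℝ :=
  (numCycRank W (X.selfProd n) : ℝ) / Module.finrank K (V n)

/-- All classes in the spaces `V n` are linear combinations of classes of algebraic cycles. -/
def IsAlgebraicSystem (W : CohomologyData.{u, v, w} k K) (X : SmProjVar k)
    (V : ∀ n : ℕ, Submodule K (W.H (X.selfProd n))) : Prop :=
  ∀ n, V n ≤ W.algClasses (X.selfProd n)

/-- For some `ε > 0` and infinitely many `n`, more than `1 / 2 + ε` of the classes in `V n` are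
algebraic: the dimension of the span of the classes of algebraic cycles on `X ^ (n + 1)` is greater
than `1 / 2 + ε` times the dimension of `V n`. -/
def IsMostlyAlgebraic (W : CohomologyData.{u, v, w} k K) (X : SmProjVar k)
    (V : ∀ n : ℕ, Submodule K (W.H (X.selfProd n))) : Prop :=
  ∃ ε : ℝ, 0 < ε ∧ ∀ N : ℕ, ∃ n ≥ N,
    (1 / 2 + ε) * Module.finrank K (V n) < cycRank W (X.selfProd n)

/-- The Poincaré duality pairing is non-degenerate on `V m`. -/
def NondegenerateAt (W : CohomologyData.{u, v, w} k K) (X : SmProjVar k)
    (V : ∀ n : ℕ, Submodule K (W.H (X.selfProd n))) (m : ℕ) : Prop :=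
  ∀ u ∈ V m, (∀ v ∈ V m, W.pairing (X.selfProd m) u v = 0) → u = 0

/-- At least the proportion `t` of the classes in `V m` is algebraic: the dimension of the span of
the classes of algebraic cycles on `X ^ (m + 1)` is at least `t` times the dimension of `V m`. -/
def AlgebraicProportion (W : CohomologyData.{u, v, w} k K) (X : SmProjVar k)
    (V : ∀ n : ℕ, Submodule K (W.H (X.selfProd n))) (m : ℕ) (t : ℝ) : Prop :=
  t * Module.finrank K (V m) ≤ cycRank W (X.selfProd m)

/-- More than the proportion `t` of the classes in `V m` is algebraic: the dimension of the span of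
the classes of algebraic cycles on `X ^ (m + 1)` is greater than `t` times the dimension of `V m`. -/
def MoreThan (W : CohomologyData.{u, v, w} k K) (X : SmProjVar k)
    (V : ∀ n : ℕ, Submodule K (W.H (X.selfProd n))) (m : ℕ) (t : ℝ) : Prop :=
  t * Module.finrank K (V m) < cycRank W (X.selfProd m)

/-- D holds for `X ^ (s + 1)`, and all classes in `V s` are algebraic, for all `s ≤ r`. -/
def AlgebraicUpTo (W : CohomologyData.{u, v, w} k K) (X : SmProjVar k)
    (V : ∀ n : ℕ, Submodule K (W.H (X.selfProd n))) (r : ℕ) : Prop :=
  ∀ s ≤ r, W.StandardD (X.selfProd s) ∧ V s ≤ W.algClasses (X.selfProd s)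

/-- The spaces of the Tate classes on the powers of `X`. -/
noncomputable def tateSystem [Finite k] (W : CohomologyData.{u, v, w} k K) (X : SmProjVar k) (n : ℕ) :
    Submodule K (W.H (X.selfProd n)) :=
  tateClasses W (X.selfProd n)

/-- For every smooth projective variety `Y` a space `V Y` of classes in `H(Y)` which contains the
classes of algebraic cycles, such that algebraic correspondences map the spaces `V Y` into each
other and the Poincaré duality pairings on the `V Y` are non-degenerate. -/
structure IsPerfectGlobalSystem (W : CohomologyData.{u, v, w} k K)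
    (V : ∀ Y : SmProjVar k, Submodule K (W.H Y)) : Prop where
  alg_le : ∀ Y, W.algClasses Y ≤ V Y
  map_mem : ∀ (Y Y' : SmProjVar k) (f : W.H Y → W.H Y'), W.IsAlgebraicMap Y Y' f →
    ∀ u ∈ V Y, f u ∈ V Y'
  nondegenerate : ∀ Y, ∀ u ∈ V Y, (∀ v ∈ V Y, W.pairing Y u v = 0) → u = 0

/-- At least the proportion `t` of the classes in each of the spaces `V Y` is algebraic: the
dimension of the span of the classes of algebraic cycles on `Y` is at least `t` times the dimension
of `V Y`, for all `Y`. -/
def GlobalProportion (W : CohomologyData.{u, v, w} k K)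
    (V : ∀ Y : SmProjVar k, Submodule K (W.H Y)) (t : ℝ) : Prop :=
  ∀ Y, t * Module.finrank K (V Y) ≤ cycRank W Y

/-- For all `Y` all classes in `V Y` are algebraic, and D holds for `Y`. -/
def GloballyAlgebraic (W : CohomologyData.{u, v, w} k K)
    (V : ∀ Y : SmProjVar k, Submodule K (W.H Y)) : Prop :=
  ∀ Y, W.StandardD Y ∧ V Y ≤ W.algClasses Y

/-- For a finite field `k`: the Frobenius endomorphism acts semisimply on `H(Y)`. -/
def IsFrobeniusSemisimple [Finite k] (W : CohomologyData.{u, v, w} k K) (Y : SmProjVar k) :
    Prop :=
  ∀ F : Module.End K (W.H Y), (∀ y, F y = W.pull (Pool.Agent.Helper11.frob Y) y) → F.IsSemisimple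

end Pool.Agent.Helper59.ZP
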