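import Mathlib
import Pool.Agent.Helper59.ZP.SysDefs
import Pool.Agent.Helper59.ZP.Final
import Pool.Agent.Helper10.ZP.TateV
import Pool.Agent.Helper4.HL.Law

/-!
# Systems of classes on the powers of a variety, in terms of Weil cohomology theories
-/

universe u v w

open CategoryTheory Filter Topology

namespace Pool.Agent.Helper59.ZP

open Pool.Agent.Helper10 Pool.Agent.Helper11 SmProjVar Pool.Agent.Helper59.ZO
  Pool.Agent.Helper34.ZP

variable {k : Type u} [Field k] {K : Type v} [Field K] [CharZero K]
  {W : WeilCohomology.{u, v, w} k K} {X : SmProjVar k}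
  {V : ∀ n : ℕ, Submodule K (W.H (X.selfProd n))}

lemma isMap_of {Y Y' : SmProjVar k} {f : W.H Y →ₗ[K] W.H Y'} (hf : W.IsAlgebraicMap Y Y' f) :
    (f : (base W).H Y →ₗ[K] (base W).H Y') ∈ Mor (base W) Y Y' := by
  obtain ⟨c, hc, h⟩ := hf
  exact ⟨c, hc, fun x y => (h x y).symm⟩

lemma of_isMap {Y Y' : SmProjVar k} {f : (base W).H Y →ₗ[K] (base W).H Y'}
    (hf : f ∈ Mor (base W) Y Y') : W.IsAlgebraicMap Y Y' f := by
  obtain ⟨c, hc, h⟩ := hf
  exact ⟨c, hc, fun x y => (h x y).symm⟩

lemma sys_alg (hV : IsSystem W.toCohomologyData X V) (n : ℕ) :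
    (base W).alg (X.selfProd n) ≤ V n := hV.alg_le n

lemma sys_mor (hV : IsSystem W.toCohomologyData X V) (m n : ℕ)
    (f : (base W).H (X.selfProd m) →ₗ[K] (base W).H (X.selfProd n))
    (hf : f ∈ Mor (base W) (X.selfProd m) (X.selfProd n)) (u : (base W).H (X.selfProd m))
    (hu : u ∈ V m) : f u ∈ V n :=
  hV.map_mem m n f (of_isMap hf) u hu

/-- the algebraic classes are a system -/
theorem isSystem_alg (W : WeilCohomology.{u, v, w} k K) (X : SmProjVar k) :
    IsSystem W.toCohomologyData X fun n => W.algClasses (X.selfProd n) where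
  alg_le _ := le_rfl
  map_mem m n f hf u hu := by
    obtain ⟨g, hg⟩ := W.exists_linear hf
    have h1 : (g : W.H (X.selfProd m) → W.H (X.selfProd n)) = f := funext hg
    subst h1
    exact SPre.IsMap.map_alg (P := base W) (isMap_of hf) hu

/-- over a finite field the Tate classes are a system, with non-degenerate pairings -/
theorem isPerfectSystem_tate [Finite k] (W : WeilCohomology.{u, v, w} k K) (X : SmProjVar k) :
    IsPerfectSystem W.toCohomologyData X fun n => tateClasses W.toCohomologyData (X.selfProd n)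
    where
  alg_le n := Pool.Agent.Helper10.ZP.alg_le_tateV W (X.selfProd n)
  map_mem m n f hf u hu := by
    obtain ⟨g, hg⟩ := W.exists_linear hf
    have h1 : (g : W.H (X.selfProd m) → W.H (X.selfProd n)) = f := funext hg
    subst h1
    exact Pool.Agent.Helper10.ZP.mor_tateV W (f := g) (isMap_of hf) hu
  nondegenerate n u hu h :=
    Pool.Agent.Helper10.ZP.tateV_nondeg W (X.selfProd n) hu fun y hy => h y hy

/-- the algebraic classes, the numerically trivial ones, and a system with non-degenerate
pairings -/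
theorem two_mul_cycRank_le (hV : IsPerfectSystem W.toCohomologyData X V) (n : ℕ) :
    2 * cycRank W.toCohomologyData (X.selfProd n) ≤
      Module.finrank K (V n) + numCycRank W.toCohomologyData (X.selfProd n) := by
  have h := Pool.Agent.Helper4.HL.two_mul_hr_le (P := base W) (X := X) (T := V)
    (fun n => hV.alg_le n) (fun n x hx h => hV.nondegenerate n x hx h) n
  rw [nr_base, hr_base] at h
  exact h

lemma cycRank_le_sys (hV : IsSystem W.toCohomologyData X V) (n : ℕ) :
    cycRank W.toCohomologyData (X.selfProd n) ≤ Module.finrank K (V n) := by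
  have hfin := Degen.finite_H W (X.selfProd n)
  exact Submodule.finrank_mono (hV.alg_le n)

lemma sys_pos (hV : IsSystem W.toCohomologyData X V) (n : ℕ) :
    (0 : ℝ) < Module.finrank K (V n) := by
  exact_mod_cast (numCycRank_pos W (X.selfProd n)).trans
    ((numCycRank_le W (X.selfProd n)).trans (cycRank_le_sys hV n))

/-- the conclusion of the quantization law -/
def QuantFor (W : WeilCohomology.{u, v, w} k K) (X : SmProjVar k)
    (V : ∀ n : ℕ, Submodule K (W.H (X.selfProd n))) : Prop :=
  (∀ M : ℕ, ∃ L, ∀ m ≥ L, M * nr (base W) (X.selfProd m) ≤ Module.finrank K (V m)) ∨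
    ((base W).DP X ∧ ∃ d : ℕ, 1 ≤ d ∧ (d = 1 ↔ ∀ n, V n = W.algClasses (X.selfProd n)) ∧
      Tendsto (fun m => (Module.finrank K (V m) : ℝ) / nr (base W) (X.selfProd m)) atTop (𝓝 d))

/-- the quantization law for the proportion of the numerically non-trivial classes -/
theorem ratio_law (hV : IsSystem W.toCohomologyData X V) (hq : QuantFor W X V) :
    Tendsto (fun n => (numCycRank W.toCohomologyData (X.selfProd n) : ℝ) /
      Module.finrank K (V n)) atTop (𝓝 0) ∨
    ((∀ n, W.StandardD (X.selfProd n)) ∧
      ∃ d : ℕ, 1 ≤ d ∧ (d = 1 ↔ ∀ n, V n = W.algClasses (X.selfProd n)) ∧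
        Tendsto (fun n => (numCycRank W.toCohomologyData (X.selfProd n) : ℝ) /
          Module.finrank K (V n)) atTop (𝓝 (1 / d))) := by
  rcases hq with h | ⟨hD, d, hd, hd1, hlim⟩
  · left
    rw [Metric.tendsto_atTop]
    intro ε hε
    obtain ⟨m, hm⟩ := exists_nat_gt (1 / ε)
    obtain ⟨N, hN⟩ := h (m + 1)
    refine ⟨N, fun n hn => ?_⟩
    have h1 := hN n hn
    rw [nr_base] at h1
    have h2 := numCycRank_pos W (X.selfProd n)
    have h4 := sys_pos hV n
    rw [Real.dist_eq, sub_zero, abs_of_nonneg (by positivity), div_lt_iff₀ h4]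
    have h5 : ((m : ℝ) + 1) * numCycRank W.toCohomologyData (X.selfProd n) ≤
        Module.finrank K (V n) := by exact_mod_cast h1
    have h6 : (0 : ℝ) < numCycRank W.toCohomologyData (X.selfProd n) := by exact_mod_cast h2
    have h7 : 1 < ε * (m + 1) := by
      have := (div_lt_iff₀ hε).mp hm
      nlinarith
    calc (numCycRank W.toCohomologyData (X.selfProd n) : ℝ)
        < ε * (m + 1) * numCycRank W.toCohomologyData (X.selfProd n) := by nlinarith
      _ = ε * ((m + 1) * numCycRank W.toCohomologyData (X.selfProd n)) := by ring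
      _ ≤ ε * Module.finrank K (V n) := mul_le_mul_of_nonneg_left h5 hε.le
  · right
    refine ⟨(dp_base W X).mp hD, d, hd, hd1, ?_⟩
    have hd0 : (d : ℝ) ≠ 0 := by
      have : (0 : ℝ) < d := by exact_mod_cast hd
      exact this.ne'
    have h1 := hlim.inv₀ hd0
    rw [one_div]
    refine h1.congr fun n => ?_
    rw [inv_div, nr_base]

/-- **Half law.** A system with non-degenerate pairings consists of the algebraic classes, and D
holds for all powers of `X`, or the proportion of the algebraic classes is in the limit at most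
one half. -/
theorem half_law (hV : IsPerfectSystem W.toCohomologyData X V) (hq : QuantFor W X V) :
    (∀ n, W.StandardD (X.selfProd n) ∧ V n = W.algClasses (X.selfProd n)) ∨
    ∀ ε : ℝ, 0 < ε → ∀ᶠ n in atTop, (cycRank W.toCohomologyData (X.selfProd n) : ℝ) ≤
      (1 / 2 + ε) * Module.finrank K (V n) := by
  by_cases hD : ∀ n, W.StandardD (X.selfProd n)
  · rcases ratio_law hV.toIsSystem hq with h | ⟨-, d, hd, hd1, h⟩
    · right
      intro ε hε
      filter_upwards [h.eventually_lt_const (show (0 : ℝ) < 1 / 2 + ε by positivity)] with n hn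
      rw [numCycRank_eq_of_standardD W (hD n), div_lt_iff₀ (sys_pos hV.toIsSystem n)] at hn
      exact hn.le
    · by_cases h1 : d = 1
      · left
        exact fun n => ⟨hD n, hd1.mp h1 n⟩
      · right
        intro ε hε
        have h2 : (1 : ℝ) / d < 1 / 2 + ε := by
          have h3 : (2 : ℝ) ≤ d := by exact_mod_cast (by omega : 2 ≤ d)
          have h4 : (1 : ℝ) / d ≤ 1 / 2 := one_div_le_one_div_of_le two_pos h3
          linarith
        filter_upwards [h.eventually_lt_const h2] with n hn
        rw [numCycRank_eq_of_standardD W (hD n), div_lt_iff₀ (sys_pos hV.toIsSystem n)] at hn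
        exact hn.le
  · right
    intro ε hε
    have hδ : 0 < min ε 1 := lt_min hε one_pos
    filter_upwards [(ratio_tendsto_zero hD).eventually_lt_const hδ] with n hn
    have h0 : (0 : ℝ) < cycRank W.toCohomologyData (X.selfProd n) := by
      exact_mod_cast (numCycRank_pos W (X.selfProd n)).trans (numCycRank_le W (X.selfProd n))
    rw [div_lt_iff₀ h0] at hn
    have h1 : 2 * (cycRank W.toCohomologyData (X.selfProd n) : ℝ) ≤
        Module.finrank K (V n) + numCycRank W.toCohomologyData (X.selfProd n) := by
      exact_mod_cast two_mul_cycRank_le hV n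
    have h2 := min_le_left ε 1
    have h3 := min_le_right ε 1
    set a : ℝ := (cycRank W.toCohomologyData (X.selfProd n) : ℝ)
    set t : ℝ := (Module.finrank K (V n) : ℝ)
    set δ : ℝ := min ε 1
    have h4 : (2 - δ) * a ≤ t := by nlinarith
    have h5 : 1 ≤ (1 / 2 + ε) * (2 - δ) := by nlinarith
    calc a = 1 * a := (one_mul a).symm
      _ ≤ ((1 / 2 + ε) * (2 - δ)) * a := mul_le_mul_of_nonneg_right h5 h0.le
      _ = (1 / 2 + ε) * ((2 - δ) * a) := by ring
      _ ≤ (1 / 2 + ε) * t := mul_le_mul_of_nonneg_left h4 (by positivity)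

end Pool.Agent.Helper59.ZP
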