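import Mathlib
import Pool.Agent.Helper34.ZP.G5c
import Pool.Agent.Helper10.ZP.Q1

/-!
# Classes generated from one variety: the dimensions as ranks of operators

For a space `M` of classes on `Z`, stable under the algebraic maps `H(Z) → H(Z)`, the space
`gen P M Y` is spanned by the classes `T t` with `T : H(Z) → H(Y)` algebraic and `t ∈ M`.
If numerical and homological equivalence agree on `Z × Z`, then there are finitely many non-zero
idempotents `g_i` among the algebraic maps of `Z`, such that for all `Y` for which numerical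
and homological equivalence agree on `Z × Y` the dimension of `gen P M Y` is the dimension of the
space of algebraic classes on `Y` plus the sum of the ranks of the operators `(adj g_i) ⊗ 1` on the
algebraic classes on `Z × Y`.
-/

universe u v w t

open CategoryTheory TensorProduct

namespace Pool.Agent.Helper34.ZP

open Pool.Agent.Helper10 Pool.Agent.Helper11.Iso SmProjVar SPre

variable {k : Type u} [Field k] {K : Type t} [Field K] {Ω : Type v} [Field Ω] [Algebra K Ω]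
  {P : SPre.{u, v, w, t} k K Ω}

/-- a stable system which contains `M` contains the classes generated by `M` -/
lemma gen_le_system {Z : SmProjVar k} {M : Submodule Ω (P.H Z)} (V : ∀ Y, Submodule Ω (P.H Y))
    (hV : ∀ X Y, ∀ f ∈ Mor P X Y, ∀ v ∈ V X, f v ∈ V Y) (hMV : M ≤ V Z) (Y : SmProjVar k) :
    gen P M Y ≤ V Y :=
  gen_le fun T hT t ht => hV Z Y T hT t (hMV ht)

/-- numerical equivalence is homological equivalence on `Z × Y` iff the null maps are zero -/
lemma Nul_eq_bot {Z Y : SmProjVar k} (h : radS P (Z.prod Y) = ⊥) : Nul P Z Y = ⊥ := by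
  rw [← map_opL_radS, h, Submodule.map_bot]

/-- the dimension of `Mor(Z, Y) g` as the rank of an operator on the algebraic classes of the
product, modulo numerical equivalence -/
lemma rdim_precomp {Z Y : SmProjVar k} {g : P.H Z →ₗ[Ω] P.H Z} (hg : g ∈ Mor P Z Z) :
    rdim (Nul P Z Y) ((Mor P Z Y).map (precomp g)) =
      rho P (tmap (adj g) (LinearMap.id : P.H Y →ₗ[Ω] P.H Y)) := by
  unfold rho
  rw [← rdim_map_opL, ← map_opL_alg, ← Submodule.map_comp, ← Submodule.map_comp]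
  congr 2
  refine LinearMap.ext fun c => ?_
  rw [LinearMap.comp_apply, LinearMap.comp_apply, opL_apply, opL_apply, op_tmap, adj_adj hg,
    LinearMap.id_comp]
  rfl

/-- the dimension of `Mor(Z, Y) g` as the rank of an operator on the algebraic classes of the
product -/
lemma finrank_precomp {Z Y : SmProjVar k} (hY : Nul P Z Y = ⊥) {g : P.H Z →ₗ[Ω] P.H Z}
    (hg : g ∈ Mor P Z Z) : Module.finrank Ω ((Mor P Z Y).map (precomp g)) =
      rho P (tmap (adj g) (LinearMap.id : P.H Y →ₗ[Ω] P.H Y)) := by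
  rw [← rdim_precomp hg, hY]
  unfold rdim
  rw [inf_bot_eq, finrank_bot, Nat.sub_zero]

/-- **(Q1)** with the ranks of operators -/
theorem q1_rho [CharZero Ω] {Z : SmProjVar k} (hpt : 1 ≤ nr P Z) (hD : Nul P Z Z = ⊥)
    (M : Submodule Ω (P.H Z)) (halg : P.alg Z ≤ M) (hM : ∀ T ∈ Mor P Z Z, ∀ t ∈ M, T t ∈ M) :
    ∃ (n : ℕ) (g : Fin n → P.H Z →ₗ[Ω] P.H Z),
      (∀ i, g i ∈ Mor P Z Z ∧ g i ∘ₗ g i = g i ∧ g i ≠ 0) ∧ (n = 0 → M = P.alg Z) ∧
      ∀ Y, Nul P Z Y = ⊥ → Module.finrank Ω (gen P M Y) = hr P Y +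
        ∑ i, rho P (tmap (adj (g i)) (LinearMap.id : P.H Y →ₗ[Ω] P.H Y)) := by
  obtain ⟨n, g, h1, h2, h3⟩ := q1 hpt hD M halg hM
  refine ⟨n, g, h1, h2, fun Y hY => ?_⟩
  rw [h3 Y hY]
  congr 1
  exact Finset.sum_congr rfl fun i _ => finrank_precomp hY (h1 i).1

/-- if there are classes which are not numerically trivial then there is a class whose trace is
not zero -/
lemma exists_tr_ne {Z : SmProjVar k} (h : 1 ≤ nr P Z) : ∃ p ∈ P.alg Z, P.tr Z p ≠ 0 :=
  exists_tr_ne_zero h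

/-- **The chain**, with the equivalence for the empty chain. -/
theorem gen_chain [CharZero Ω] {Z : SmProjVar k} (M : Submodule Ω (P.H Z)) (halg : P.alg Z ≤ M)
    (hM : ∀ T ∈ Mor P Z Z, ∀ t ∈ M, T t ∈ M) (hZ : Nul P Z Z = ⊥)
    (hp : ∃ p ∈ P.alg Z, P.tr Z p ≠ 0) :
    ∃ (s : ℕ) (g : Fin s → P.H Z →ₗ[Ω] P.H Z),
      (∀ i, g i ∈ Mor P Z Z ∧ g i ∘ₗ g i = g i ∧ g i ≠ 0) ∧ (s = 0 ↔ M = P.alg Z) ∧
      ∀ Y, Nul P Z Y = ⊥ → Module.finrank Ω (gen P M Y) = hr P Y +
        ∑ i, rho P (tmap (adj (g i)) (LinearMap.id : P.H Y →ₗ[Ω] P.H Y)) := by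
  have hfin := P.fin Z
  have hpt : 1 ≤ nr P Z := by
    by_contra hc
    obtain ⟨p, hpa, hp0⟩ := hp
    have h0 : rdim (radS P Z) (P.alg Z) = 0 := by
      change ¬ 1 ≤ rdim (radS P Z) (P.alg Z) at hc
      omega
    rw [rdim_eq, Submodule.finrank_eq_zero] at h0
    have h1 : (1 : P.H Z) ∈ radS P Z := by
      have h2 : (radS P Z).mkQ 1 ∈ (P.alg Z).map (radS P Z).mkQ := ⟨1, P.one_mem Z, rfl⟩
      rw [h0, Submodule.mem_bot] at h2
      rwa [Submodule.mkQ_apply, Submodule.Quotient.mk_eq_zero] at h2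
    have h3 := h1.2 p hpa
    rw [one_mul] at h3
    exact hp0 h3
  obtain ⟨n, g, h1, h2, h3⟩ := q1_rho hpt hZ M halg hM
  refine ⟨n, g, h1, ⟨h2, fun h => ?_⟩, h3⟩
  by_contra hn
  obtain ⟨m, rfl⟩ : ∃ m, n = m + 1 := ⟨n - 1, by omega⟩
  have h4 := h3 Z hZ
  rw [gen_self hM] at h4
  have h5 : Module.finrank Ω M = hr P Z := by rw [h]; rfl
  have h6 : ∑ i, rho P (tmap (adj (g i)) (LinearMap.id : P.H Z →ₗ[Ω] P.H Z)) = 0 := by omega
  have h7 := (Finset.sum_eq_zero_iff.mp h6) 0 (Finset.mem_univ _)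
  rw [← finrank_precomp hZ (h1 0).1, Submodule.finrank_eq_zero] at h7
  have h8 : precomp (g 0) LinearMap.id ∈ (Mor P Z Z).map (precomp (g 0)) :=
    ⟨LinearMap.id, G1_id_mem Z, rfl⟩
  rw [h7, Submodule.mem_bot] at h8
  exact (h1 0).2.2 ((LinearMap.id_comp _).symm.trans h8)

end Pool.Agent.Helper34.ZP
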