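import Mathlib
import Pool.Agent.Helper59.ZP.Sys
import Pool.Agent.Helper73.QL.Final

/-!
# The quantization law and the half law, in terms of Weil cohomology theories
-/

universe u v w

open CategoryTheory Filter Topology

namespace Pool.Agent.Helper59.ZP

open Pool.Agent.Helper10 Pool.Agent.Helper11 SmProjVar Pool.Agent.Helper59.ZO
  Pool.Agent.Helper34.ZP

variable {k : Type u} [Field k] {K : Type v} [Field K] [CharZero K]
  {W : WeilCohomology.{u, v, w} k K} {X : SmProjVar k}
  {V : ∀ n : ℕ, Submodule K (W.H (X.selfProd n))}

theorem quantFor (hV : IsSystem W.toCohomologyData X V) : QuantFor W X V :=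
  Pool.Agent.Helper73.QL.ql (nr_base_pos W) X V (sys_alg hV) (sys_mor hV)

/-- **Quantization law.** For every system of classes on the powers of `X`, which contains the
algebraic classes and is stable under algebraic correspondences, the proportion of the numerically
non-trivial algebraic classes in the system tends to `0` or to `1 / d`, `d` a positive integer;
in the second case D holds for all powers of `X`, and `d = 1` if and only if the system consists
of the algebraic classes. -/
theorem quantization (hV : IsSystem W.toCohomologyData X V) :
    Tendsto (fun n => (numCycRank W.toCohomologyData (X.selfProd n) : ℝ) /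
      Module.finrank K (V n)) atTop (𝓝 0) ∨
    ((∀ n, W.StandardD (X.selfProd n)) ∧
      ∃ d : ℕ, 1 ≤ d ∧ (d = 1 ↔ ∀ n, V n = W.algClasses (X.selfProd n)) ∧
        Tendsto (fun n => (numCycRank W.toCohomologyData (X.selfProd n) : ℝ) /
          Module.finrank K (V n)) atTop (𝓝 (1 / d))) :=
  ratio_law hV (quantFor hV)

/-- **Half law.** -/
theorem half (hV : IsPerfectSystem W.toCohomologyData X V) :
    (∀ n, W.StandardD (X.selfProd n) ∧ V n = W.algClasses (X.selfProd n)) ∨
    ∀ ε : ℝ, 0 < ε → ∀ᶠ n in atTop, (cycRank W.toCohomologyData (X.selfProd n) : ℝ) ≤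
      (1 / 2 + ε) * Module.finrank K (V n) :=
  half_law hV (quantFor hV.toIsSystem)

end Pool.Agent.Helper59.ZP
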