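import Mathlib
import Pool.Agent.Helper59.ZP.SemisLin
import Pool.Agent.Helper59.ZP.SysFinal
import Pool.Agent.Helper34.ZP.RelSys
import Pool.Agent.Helper36.ZP.Words2

/-!
# Semisimplicity of Frobenius
-/

universe u v w

open CategoryTheory Finset Filter Topology

namespace Pool.Agent.Helper59.ZP

open Pool.Agent.Helper10 Pool.Agent.Helper11 SmProjVar Pool.Agent.Helper59.ZO
  Pool.Agent.Helper34.ZP Pool.Agent.Helper10.ZP

variable {k : Type u} [Field k] [Finite k] {K : Type v} [Field K] [CharZero K]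
  (W : WeilCohomology.{u, v, w} k K)

/-- Frobenius and operators of classes -/
lemma opW_frob {Y Y' : SmProjVar k} (c : W.H (Y.prod Y')) (u : W.H Y) :
    opW W (W.pullA (frob (Y.prod Y')) c) (W.pullA (frob Y) u) =
      (Nat.card k : K) ^ Y.dim • W.pullA (frob Y') (opW W c u) := by
  rw [← sub_eq_zero]
  refine (W.trace Y').nondegenerate _ fun z => ?_
  obtain ⟨y, rfl⟩ := Zt.pull_frob_surjective W Y' z
  change W.trL Y' _ = 0
  have hd : (Y.prod Y').dim = Y'.dim + Y.dim := rfl
  rw [sub_mul, map_sub, sub_eq_zero, smul_mul_assoc, map_smul,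
    ← map_mul (W.pullA (frob Y')), Zt.tr_frob, tr_op, tr_op]
  have h1 := Zt.tr_frob W (Y.prod Y') (W.pullA (fst Y Y') u * c * W.pullA (snd Y Y') y)
  have h2 : W.pullA (frob (Y.prod Y')) (W.pullA (fst Y Y') u) =
      W.pullA (fst Y Y') (W.pullA (frob Y) u) := by
    have e1 := W.pull_comp (frob (Y.prod Y')) (fst Y Y') u
    have e2 := W.pull_comp (fst Y Y') (frob Y) u
    rw [frob_comp] at e1
    exact e1.symm.trans e2
  have h3 : W.pullA (frob (Y.prod Y')) (W.pullA (snd Y Y') y) =
      W.pullA (snd Y Y') (W.pullA (frob Y') y) := by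
    have e1 := W.pull_comp (frob (Y.prod Y')) (snd Y Y') y
    have e2 := W.pull_comp (snd Y Y') (frob Y') y
    rw [frob_comp] at e1
    exact e1.symm.trans e2
  rw [map_mul (W.pullA _), map_mul (W.pullA _), h2, h3, hd, pow_add] at h1
  rw [h1, smul_eq_mul]
  ring

omit [Finite k] in
/-- `H^D` and the sum of the other spaces -/
lemma exists_split (Y : SmProjVar k) (D : ℕ) (c : W.H Y) :
    ∃ a ∈ W.gr Y D, ∃ b ∈ ⨆ (i : ℕ) (_ : i ≠ D), W.gr Y i, c = a + b := by
  have h : c ∈ W.gr Y D ⊔ ⨆ (i : ℕ) (_ : i ≠ D), W.gr Y i := by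
    have h1 : (⊤ : Submodule K (W.H Y)) ≤ W.gr Y D ⊔ ⨆ (i : ℕ) (_ : i ≠ D), W.gr Y i := by
      rw [← (W.graded Y).iSup_eq_top]
      refine iSup_le fun i => ?_
      by_cases hi : i = D
      · subst hi
        exact le_sup_left
      · exact (le_iSup₂_of_le (f := fun (i : ℕ) (_ : i ≠ D) => W.gr Y i) i hi le_rfl).trans
          le_sup_right
    exact h1 trivial
  obtain ⟨a, ha, b, hb, hab⟩ := Submodule.mem_sup.mp h
  exact ⟨a, ha, b, hb, hab.symm⟩

lemma frS_mem_gr {Y : SmProjVar k} {D : ℕ} {a : K} {c : W.H Y} (hc : c ∈ W.gr Y D) :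
    frS W Y a c ∈ W.gr Y D :=
  Submodule.sub_mem _ ((W.pull_hom _).map_mem _ _ hc) (Submodule.smul_mem _ _ hc)

lemma frS_mem_other {Y : SmProjVar k} {D : ℕ} {a : K} {c : W.H Y}
    (hc : c ∈ ⨆ (i : ℕ) (_ : i ≠ D), W.gr Y i) :
    frS W Y a c ∈ ⨆ (i : ℕ) (_ : i ≠ D), W.gr Y i := by
  have h : (⨆ (i : ℕ) (_ : i ≠ D), W.gr Y i) ≤
      (⨆ (i : ℕ) (_ : i ≠ D), W.gr Y i).comap (frS W Y a) := by
    refine iSup₂_le fun i hi x hx => ?_
    exact (le_iSup₂_of_le (f := fun (i : ℕ) (_ : i ≠ D) => W.gr Y i) i hi le_rfl)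
      (frS_mem_gr W hx)
  exact h hc

/-- If `q ^ d` is a semisimple eigenvalue of Frobenius on `H^{2 d}(Y × Y)`, `d` the dimension of
`Y`, then Frobenius is semisimple on `H(Y)`. -/
theorem isSemisimple_of_square (Y : SmProjVar k)
    (h : ∀ x ∈ W.gr (Y.prod Y) (2 * Y.dim),
      (frS W (Y.prod Y) ((Nat.card k : K) ^ Y.dim) ^ 2) x = 0 →
        frS W (Y.prod Y) ((Nat.card k : K) ^ Y.dim) x = 0) :
    (frL W Y).IsSemisimple := by
  have hfin : Module.Finite K (W.H Y) := (W.graded Y).finite
  have hq : (Nat.card k : K) ^ Y.dim ≠ 0 := pow_ne_zero _ Zt.card_ne_zero'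
  set q : K := (Nat.card k : K) ^ Y.dim with hqdef
  refine isSemisimple_of_commutator _ fun T n hT hn => ?_
  obtain ⟨c, hc⟩ := (opL_bijective (P := base W) Y Y).2 T
  have hcT : opW W c = T := hc
  set A := frS W (Y.prod Y) q with hA
  have hFT : ∀ u : W.H Y, W.pullA (frob Y) (T u) - T (W.pullA (frob Y) u) = n u := fun u =>
    LinearMap.congr_fun hT u
  have hsub : ∀ (a b : W.H (Y.prod Y)) (u : W.H Y), opW W (a - b) u = opW W a u - opW W b u := by
    intro a b u
    exact LinearMap.congr_fun ((opL (base W) Y Y).map_sub a b) u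
  have hsmul : ∀ (r : K) (b : W.H (Y.prod Y)) (u : W.H Y), opW W (r • b) u = r • opW W b u := by
    intro r b u
    rw [opW_smul]
    rfl
  have h1 : ∀ u : W.H Y, opW W (A c) (W.pullA (frob Y) u) = q • n u := by
    intro u
    rw [hA, frS_apply, hsub, hsmul, opW_frob, hcT, ← smul_sub, hFT]
  have hcomm : Commute n (frL W Y) :=
    (Algebra.commute_of_mem_adjoin_singleton_of_commute hn (Commute.refl _)).symm
  have h2 : ∀ u : W.H Y, opW W (A (A c)) (W.pullA (frob Y) (W.pullA (frob Y) u)) = 0 := by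
    intro u
    have h3 : n (W.pullA (frob Y) u) = W.pullA (frob Y) (n u) := LinearMap.congr_fun hcomm.eq u
    have h4 : A (A c) = W.pullA (frob (Y.prod Y)) (A c) - q • A c := by
      conv_lhs => rw [hA, frS_apply, ← hA]
    rw [h4, hsub, hsmul, opW_frob, h1, h1, h3, map_smul, ← smul_sub, sub_self, smul_zero]
  have h3 : A (A c) = 0 := by
    refine (injective_iff_map_eq_zero (opL (base W) Y Y)).1 (opL_bijective (P := base W) Y Y).1
      (A (A c)) (LinearMap.ext fun w => ?_)
    obtain ⟨w, rfl⟩ := Zt.pull_frob_surjective W Y w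
    obtain ⟨w, rfl⟩ := Zt.pull_frob_surjective W Y w
    exact h2 w
  obtain ⟨a, ha, b, hb, hab⟩ := exists_split W (Y.prod Y) (2 * Y.dim) c
  have h4 : A (A a) = 0 := by
    have h5 : A (A a) ∈ W.gr (Y.prod Y) (2 * Y.dim) := frS_mem_gr W (frS_mem_gr W ha)
    have h6 : A (A b) ∈ ⨆ (i : ℕ) (_ : i ≠ 2 * Y.dim), W.gr (Y.prod Y) i :=
      frS_mem_other W (frS_mem_other W hb)
    have h7 : A (A a) = -A (A b) := by
      rw [hab, map_add, map_add] at h3
      exact eq_neg_of_add_eq_zero_left h3
    have h8 := (W.graded (Y.prod Y)).indep (2 * Y.dim)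
    exact (Submodule.disjoint_def.mp h8) _ h5 (by rw [h7]; exact Submodule.neg_mem _ h6)
  have h5 : A a = 0 := h a ha (by rw [pow_two, Module.End.mul_apply]; exact h4)
  have hnu : ∀ u : W.H Y, n u = 0 := by
    intro u
    refine W.gr_induction Y (p := fun u => n u = 0) ?_ ?_ ?_ u
    · intro i u hu
      have hnu : n u ∈ W.gr Y i :=
        mem_of_mem_adjoin hn (S := W.gr Y i) (fun x hx => (W.pull_hom _).map_mem _ _ hx) u hu
      have hFu : W.pullA (frob Y) u ∈ W.gr Y i := (W.pull_hom _).map_mem _ _ hu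
      refine (W.trace Y).nondegenerate _ fun y => ?_
      refine W.gr_induction Y (p := fun y => W.trL Y (n u * y) = 0) ?_ ?_ ?_ y
      · intro j y hy
        by_cases hij : i + j = 2 * Y.dim
        · have h6 : W.trL Y ((q • n u) * y) = 0 := by
            rw [← h1, hab, map_add, h5, zero_add, tr_op]
            have hd : (Y.prod Y).dim = Y.dim + Y.dim := rfl
            let φ : W.H (Y.prod Y) →ₗ[K] K := W.trL (Y.prod Y) ∘ₗ
              LinearMap.mulRight K (W.pullA (snd Y Y) y) ∘ₗ
                LinearMap.mulLeft K (W.pullA (fst Y Y) (W.pullA (frob Y) u))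
            have hφ : (⨆ (i : ℕ) (_ : i ≠ 2 * Y.dim), W.gr (Y.prod Y) i) ≤ LinearMap.ker φ := by
              refine iSup₂_le fun m hm x hx => ?_
              rw [LinearMap.mem_ker]
              exact W.tr_eq_zero_of_gr _ (i := i + m + j) (by omega)
                (W.gr_mul _ (W.gr_mul _ ((W.pull_hom _).map_mem _ _ hFu) hx)
                  ((W.pull_hom _).map_mem _ _ hy))
            exact hφ (frS_mem_other W hb)
          rw [smul_mul_assoc, map_smul] at h6
          exact (smul_eq_zero.mp h6).resolve_left hq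
        · exact W.tr_eq_zero_of_gr Y hij (W.gr_mul Y hnu hy)
      · rw [mul_zero, map_zero]
      · intro a b ha hb
        rw [mul_add, map_add, ha, hb, add_zero]
    · exact map_zero n
    · intro a b ha hb
      rw [map_add, ha, hb, add_zero]
  exact LinearMap.ext hnu

variable {W}

omit [Finite k] in
/-- the first alternative of the quantization law, for the proportion -/
lemma tendsto_zero_of_unbounded {X : SmProjVar k} {V : ∀ n : ℕ, Submodule K (W.H (X.selfProd n))}
    (hV : IsSystem W.toCohomologyData X V)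
    (h : ∀ M : ℕ, ∃ L, ∀ m ≥ L, M * nr (base W) (X.selfProd m) ≤ Module.finrank K (V m)) :
    Tendsto (fun n => (numCycRank W.toCohomologyData (X.selfProd n) : ℝ) /
      Module.finrank K (V n)) atTop (𝓝 0) := by
  rw [Metric.tendsto_atTop]
  intro ε hε
  obtain ⟨m, hm⟩ := exists_nat_gt (1 / ε)
  obtain ⟨N, hN⟩ := h (m + 1)
  refine ⟨N, fun n hn => ?_⟩
  have h1 := hN n hn
  rw [nr_base] at h1
  have h2 := numCycRank_pos W (X.selfProd n)
  have h4 := sys_pos hV n
  rw [Real.dist_eq, sub_zero, abs_of_nonneg (by positivity), div_lt_iff₀ h4]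
  have h5 : ((m : ℝ) + 1) * numCycRank W.toCohomologyData (X.selfProd n) ≤
      Module.finrank K (V n) := by exact_mod_cast h1
  have h6 : (0 : ℝ) < numCycRank W.toCohomologyData (X.selfProd n) := by exact_mod_cast h2
  have h7 : 1 < ε * (m + 1) := by
    have := (div_lt_iff₀ hε).mp hm
    nlinarith
  calc (numCycRank W.toCohomologyData (X.selfProd n) : ℝ)
      < ε * (m + 1) * numCycRank W.toCohomologyData (X.selfProd n) := by nlinarith
    _ = ε * ((m + 1) * numCycRank W.toCohomologyData (X.selfProd n)) := by ring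
    _ ≤ ε * Module.finrank K (V n) := mul_le_mul_of_nonneg_left h5 hε.le

/-- the systems of the classes which are annihilated by `(F - q ^ j) ^ i` -/
lemma isSys_tateI (X : SmProjVar k) (i : ℕ) :
    IsSys (P := base W) (X := X) fun n => tateI W i (X.selfProd n) :=
  fun _ _ _ hf _ ht => mor_tateI W i hf ht

/-- If the proportion of the numerically non-trivial algebraic classes among the Tate classes on the
powers of `X` does not tend to zero, then the eigenvalue `q ^ j` of Frobenius on `H^{2 j}` of the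
powers of `X` is semisimple. -/
theorem semisimple_eigenvalue (X : SmProjVar k)
    (h : ¬ Tendsto (fun n => (numCycRank W.toCohomologyData (X.selfProd n) : ℝ) /
      Module.finrank K (tateClasses W.toCohomologyData (X.selfProd n))) atTop (𝓝 0))
    (s j : ℕ) (x : W.H (X.selfProd s)) (h0 : x ∈ W.gr (X.selfProd s) (2 * j))
    (h2 : (frS W (X.selfProd s) ((Nat.card k : K) ^ j) ^ 2) x = 0) :
    frS W (X.selfProd s) ((Nat.card k : K) ^ j) x = 0 := by
  by_contra h1
  have hV := (isPerfectSystem_tate W X).toIsSystem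
  rcases quantization hV with hq | ⟨hD, -⟩
  · exact h hq
  · refine h (tendsto_zero_of_unbounded hV fun M => ?_)
    exact chain_unbounded (nr_base_pos W) ((dp_base W X).mpr hD)
      (S := fun i n => tateI W (i + 1) (X.selfProd n)) (fun i => isSys_tateI X (i + 1))
      (fun i n => tateI_mono W (Nat.le_succ _) _)
      (fun i => Pool.Agent.Helper36.ZPW.tateI_ne W h0 h2 h1 (i + 1) (Nat.le_add_left _ _))
      (fun i n => tateI_le_tateV W (i + 1) _) M

lemma pull_frS {Y Y' : SmProjVar k} (p : Y'.toOver ⟶ Y.toOver) (a : K) (x : W.H Y) :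
    frS W Y' a (W.pullA p x) = W.pullA p (frS W Y a x) := by
  have e1 := W.pull_comp (frob Y') p x
  have e2 := W.pull_comp p (frob Y) x
  rw [frob_comp] at e1
  have h : W.pullA (frob Y') (W.pullA p x) = W.pullA p (W.pullA (frob Y) x) := e1.symm.trans e2
  rw [frS_apply, frS_apply, h, map_sub, map_smul]

/-- If the proportion of the numerically non-trivial algebraic classes among the Tate classes on the
powers of `X` does not tend to zero, then Frobenius is semisimple on the cohomology of all powers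
of `X`. -/
theorem frobenius_semisimple (X : SmProjVar k)
    (h : ¬ Tendsto (fun n => (numCycRank W.toCohomologyData (X.selfProd n) : ℝ) /
      Module.finrank K (tateClasses W.toCohomologyData (X.selfProd n))) atTop (𝓝 0)) (s : ℕ) :
    (frL W (X.selfProd s)).IsSemisimple := by
  refine isSemisimple_of_square W (X.selfProd s) fun x hx hx2 => ?_
  obtain ⟨i, p, hip⟩ := Retract.pow_prod_pow X s s
  have h1 : ∀ y : W.H ((X.selfProd s).prod (X.selfProd s)), W.pullA i (W.pullA p y) = y := by
    intro y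
    have e := W.pull_comp i p y
    rw [hip, W.pull_id] at e
    exact e.symm
  rw [← h1 (frS W _ _ x), ← pull_frS]
  have h2 := semisimple_eigenvalue X h (s + s + 1) (X.selfProd s).dim (W.pullA p x)
    ((W.pull_hom p).map_mem _ _ hx) (by
      rw [pow_two, Module.End.mul_apply] at hx2 ⊢
      rw [pull_frS, pull_frS, hx2, map_zero])
  rw [h2, map_zero]

end Pool.Agent.Helper59.ZP
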