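import Mathlib
import Pool.Agent.Helper59.ZP.Semis

/-!
# The quantization law and the half law, with the definitions of the statement
-/

universe u v w

open CategoryTheory Filter Topology

namespace Pool.Agent.Helper59.ZP

open Pool.Agent.Helper10 Pool.Agent.Helper11 SmProjVar Pool.Agent.Helper59.ZO
  Pool.Agent.Helper34.ZP

variable {k : Type u} [Field k] {K : Type v} [Field K] [CharZero K]
  {W : WeilCohomology.{u, v, w} k K} {X : SmProjVar k}
  {V : ∀ n : ℕ, Submodule K (W.H (X.selfProd n))}

lemma isAlgebraicSystem_iff (hV : IsSystem W.toCohomologyData X V) :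
    IsAlgebraicSystem W.toCohomologyData X V ↔ ∀ n, V n = W.algClasses (X.selfProd n) :=
  ⟨fun h n => le_antisymm (h n) (hV.alg_le n), fun h n => (h n).le⟩

/-- **Quantization law.** -/
theorem quantization_law (hV : IsSystem W.toCohomologyData X V) :
    Tendsto (density W.toCohomologyData X V) atTop (𝓝 0) ∨
    (StandardDPowers W.toCohomologyData X ∧
      ∃ d : ℕ, 1 ≤ d ∧ (d = 1 ↔ IsAlgebraicSystem W.toCohomologyData X V) ∧
        Tendsto (density W.toCohomologyData X V) atTop (𝓝 (1 / d))) := by
  rcases quantization hV with h | ⟨hD, d, hd, hd1, h⟩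
  · exact .inl h
  · exact .inr ⟨hD, d, hd, hd1.trans (isAlgebraicSystem_iff hV).symm, h⟩

/-- **Half law.** -/
theorem half_iff (hV : IsPerfectSystem W.toCohomologyData X V) :
    (StandardDPowers W.toCohomologyData X ∧ IsAlgebraicSystem W.toCohomologyData X V) ↔
      IsMostlyAlgebraic W.toCohomologyData X V := by
  rw [isAlgebraicSystem_iff hV.toIsSystem]
  constructor
  · rintro ⟨-, h⟩
    refine ⟨1 / 4, by norm_num, fun N => ⟨N, le_rfl, ?_⟩⟩
    have h1 : (cycRank W.toCohomologyData (X.selfProd N) : ℝ) = Module.finrank K (V N) := by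
      rw [h N]
      rfl
    have h2 := sys_pos hV.toIsSystem N
    rw [h1]
    linarith
  · rintro ⟨ε, hε, hf⟩
    have h := (half hV).resolve_right fun h => by
      obtain ⟨N, hN⟩ := eventually_atTop.mp (h ε hε)
      obtain ⟨n, hn, h1⟩ := hf N
      exact absurd h1 (not_lt.mpr (hN n hn))
    exact ⟨fun n => (h n).1, fun n => (h n).2⟩

/-- the Tate classes -/
theorem tate_law [Finite k] (W : WeilCohomology.{u, v, w} k K) (X : SmProjVar k) :
    IsPerfectSystem W.toCohomologyData X (tateSystem W.toCohomologyData X) ∧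
      (¬ Tendsto (density W.toCohomologyData X (tateSystem W.toCohomologyData X)) atTop (𝓝 0) →
        ∀ n, IsFrobeniusSemisimple W.toCohomologyData (X.selfProd n)) := by
  refine ⟨isPerfectSystem_tate W X, fun h n F hF => ?_⟩
  have h1 : F = frL W (X.selfProd n) := LinearMap.ext hF
  rw [h1]
  exact frobenius_semisimple X h n

end Pool.Agent.Helper59.ZP
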