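import Mathlib
import Pool.Agent.Helper59.ZP.LevelDefs

/-!
# The zero-one law: definitions
-/

universe u v w

open CategoryTheory

namespace Pool.Agent.Helper59.ZP

open Pool.Agent.Helper10 SmProjVar

variable {k : Type u} [Field k] {K : Type v} [Field K]

/-- The total Betti number of `Y`: the dimension of `H(Y)`. -/
noncomputable def betti (W : CohomologyData.{u, v, w} k K) (Y : SmProjVar k) : ℕ :=
  Module.finrank K (W.H Y)

/-- `f` is a numerically trivial self-correspondence of `Y`: it is `x ↦ q_* (p^* x ∪ c)` for a
linear combination `c` of classes of algebraic cycles on `Y × Y` which is orthogonal to all classes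
of algebraic cycles, where `p` and `q` are the projections. -/
def IsNullMap (W : CohomologyData.{u, v, w} k K) (Y : SmProjVar k)
    (f : Module.End K (W.H Y)) : Prop :=
  ∃ c ∈ nullClasses W (Y.prod Y), ∀ x y : W.H Y,
    W.pairing Y (f x) y = W.tr (Y.prod Y) (W.pull (fst Y Y) x * c * W.pull (snd Y Y) y)

/-- All numerically trivial self-correspondences of the powers of `X` are nilpotent. -/
def NullNilpotent (W : CohomologyData.{u, v, w} k K) (X : SmProjVar k) : Prop :=
  ∀ (n : ℕ) (f : Module.End K (W.H (X.selfProd n))), IsNullMap W (X.selfProd n) f →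
    IsNilpotent f

/-- The involution of `H(X)` which is `1` on the `H^i(X)` for even `i` and `-1` for odd `i` is
given by an algebraic correspondence (the sign conjecture for `X`). -/
def SignConjecture (W : CohomologyData.{u, v, w} k K) (X : SmProjVar k) : Prop :=
  ∃ f : W.H X → W.H X, W.IsAlgebraicMap X X f ∧
    ∀ (i : ℕ), ∀ x ∈ W.gr X i, f x = (-1 : K) ^ i • x

/-- For all smooth projective varieties `Y` over `k` the dimension of the span of the classes of
algebraic cycles modulo numerical equivalence is at least `ε` times the dimension of the span. -/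
def NumProportion (W : CohomologyData.{u, v, w} k K) (ε : ℝ) : Prop :=
  ∀ Y : SmProjVar k, ε * cycRank W Y ≤ numCycRank W Y

/-- The first case of the trichotomy: D holds for all powers of `X`, and `n = a`. -/
def CaseD (W : CohomologyData.{u, v, w} k K) (X : SmProjVar k) : Prop :=
  ∀ m : ℕ, W.StandardD (X.selfProd m) ∧
    cycRank W (X.selfProd m) = numCycRank W (X.selfProd m)

/-- The second case of the trichotomy: D fails for a power of `X`, the numerically trivial
self-correspondences of the powers are nilpotent, and `a / n` is at least a multiple of a logarithm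
and at most a polynomial. -/
def CaseNil (W : CohomologyData.{u, v, w} k K) (X : SmProjVar k) : Prop :=
  (¬ ∀ m, W.StandardD (X.selfProd m)) ∧ NullNilpotent W X ∧
    (∃ C : ℝ, 0 < C ∧ ∀ m : ℕ, (numCycRank W (X.selfProd m) : ℝ) * Real.log (m + 2) ≤
      C * cycRank W (X.selfProd m)) ∧
    ∀ m : ℕ, cycRank W (X.selfProd m) ≤
      betti W X * (numCycRank W (X.selfProd m) * (m + 2) ^ (betti W X ^ 2))

/-- The third case of the trichotomy: some numerically trivial self-correspondence of a power of
`X` is not nilpotent, and `a / n` grows exponentially. -/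
def CaseExp (W : CohomologyData.{u, v, w} k K) (X : SmProjVar k) : Prop :=
  ¬ NullNilpotent W X ∧ ∃ θ : ℝ, 1 < θ ∧ ∃ c : ℝ, 0 < c ∧ ∀ m : ℕ,
    c * θ ^ m * numCycRank W (X.selfProd m) ≤ cycRank W (X.selfProd m)

end Pool.Agent.Helper59.ZP
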