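import Mathlib
import Pool.Agent.Helper59.ZP.ZDefs
import Pool.Agent.Helper59.ZP.TateIff
import Pool.Agent.Helper34.ZP.UHL

/-!
# The uniform half law, in terms of Weil cohomology theories
-/

universe u v w

open CategoryTheory Filter Topology

namespace Pool.Agent.Helper59.ZP

open Pool.Agent.Helper10 Pool.Agent.Helper11 SmProjVar Pool.Agent.Helper59.ZO
  Pool.Agent.Helper34.ZP

/-- **Uniform half law.** -/
theorem uniform_half (b r : ℕ) (ε : ℝ) (hε : 0 < ε) : ∃ m₀ : ℕ,
    ∀ (k : Type u) [Field k] (K : Type v) [Field K] [CharZero K]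
      (W : WeilCohomology.{u, v, w} k K) (X : SmProjVar k), betti W.toCohomologyData X ≤ b →
        ∀ V, IsSystem W.toCohomologyData X V → ∀ m ≥ m₀,
          NondegenerateAt W.toCohomologyData X V m →
          AlgebraicProportion W.toCohomologyData X V m (1 / 2 + ε) →
          AlgebraicUpTo W.toCohomologyData X V r := by
  obtain ⟨m₀, h⟩ := Pool.Agent.Helper34.ZP.uniform_half_law.{u, v, w, v} b r hε
  refine ⟨m₀, ?_⟩
  intro k _ K _ _ W X hX V hV m hm hnd ha s hs
  have h1 := h k K K (base W) (nr_base_pos W) X hX V (sys_mor hV) (sys_alg hV) m hm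
    (fun x hx hy => hnd x hx hy) ha s hs
  exact ⟨(d_base W _).mp h1.1, h1.2.le⟩

/-- the same with the numerically non-trivial classes, without non-degeneracy -/
theorem uniform_system (b r : ℕ) (ε : ℝ) (hε : 0 < ε) : ∃ m₀ : ℕ,
    ∀ (k : Type u) [Field k] (K : Type v) [Field K] [CharZero K]
      (W : WeilCohomology.{u, v, w} k K) (X : SmProjVar k), betti W.toCohomologyData X ≤ b →
        ∀ V, IsSystem W.toCohomologyData X V → ∀ m ≥ m₀,
          1 / 2 + ε ≤ density W.toCohomologyData X V m →
          AlgebraicUpTo W.toCohomologyData X V r := by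
  obtain ⟨m₀, h⟩ := Pool.Agent.Helper34.ZP.uniform_system_law.{u, v, w, v} b r hε
  refine ⟨m₀, ?_⟩
  intro k _ K _ _ W X hX V hV m hm ha s hs
  have h2 := sys_pos hV m
  have h1 := h k K K (base W) (nr_base_pos W) X hX V (sys_mor hV) (sys_alg hV) m hm
    (by
      rw [nr_base]
      unfold density at ha
      rw [le_div_iff₀ h2] at ha
      exact ha) s hs
  exact ⟨(d_base W _).mp h1.1, h1.2.le⟩

end Pool.Agent.Helper59.ZP
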