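import Mathlib
import Pool.Agent.Helper59.ZP.UniW
import Pool.Agent.Helper34.ZP.Glob

/-!
# The statement of the quantization law
-/

universe u v w

open CategoryTheory Filter Topology

namespace Pool.Agent.Helper59.ZP

open Pool.Agent.Helper10 Pool.Agent.Helper11 SmProjVar

variable {k : Type u} [Field k] {K : Type v} [Field K] [CharZero K]
  {W : WeilCohomology.{u, v, w} k K}

theorem global_law {V : ∀ Y : SmProjVar k, Submodule K (W.H Y)}
    (hV : IsPerfectGlobalSystem W.toCohomologyData V) :
    GloballyAlgebraic W.toCohomologyData V ↔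
      ∃ ε : ℝ, 0 < ε ∧ GlobalProportion W.toCohomologyData V (1 / 2 + ε) :=
  Pool.Agent.Helper34.ZP.global_half ⟨hV.alg_le, hV.map_mem, hV.nondegenerate⟩

theorem tate_global_law [Finite k] (W : WeilCohomology.{u, v, w} k K) :
    IsPerfectGlobalSystem W.toCohomologyData (tateClasses W.toCohomologyData) ∧
      ∀ X : SmProjVar k,
        (¬ Tendsto (density W.toCohomologyData X (tateSystem W.toCohomologyData X)) atTop (𝓝 0) →
          ∀ n, IsFrobeniusSemisimple W.toCohomologyData (X.selfProd n)) := by
  have h := Pool.Agent.Helper34.ZP.isPerfectGlobalSystem_tate W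
  exact ⟨⟨h.alg_le, h.map_mem, h.nondegenerate⟩, fun X => (tate_law W X).2⟩

end Pool.Agent.Helper59.ZP
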