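import Mathlib
import Pool.Agent.Helper59.ZP.QFinal
import Pool.Agent.Helper34.ZP.UHR
import Pool.Agent.Helper47.ZP.USS

/-!
# The half law for one power, with the rate, and semisimplicity from one power
-/

universe u v w

open CategoryTheory Filter Topology

namespace Pool.Agent.Helper59.ZP

open Pool.Agent.Helper10 Pool.Agent.Helper11 SmProjVar Pool.Agent.Helper59.ZO
  Pool.Agent.Helper34.ZP

/-- **Half law for one power.** -/
theorem half_one_power (b r : ℕ) : ∃ C : ℝ,
    ∀ (k : Type u) [Field k] (K : Type v) [Field K] [CharZero K]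
      (W : WeilCohomology.{u, v, w} k K) (X : SmProjVar k), betti W.toCohomologyData X ≤ b →
        ∀ V, IsSystem W.toCohomologyData X V → ∀ m : ℕ,
          NondegenerateAt W.toCohomologyData X V m →
          MoreThan W.toCohomologyData X V m (1 / 2 + C / Real.log (m + 2)) →
          AlgebraicUpTo W.toCohomologyData X V r := by
  obtain ⟨C, -, h⟩ := Pool.Agent.Helper34.ZP.uniform_half_rate.{u, v, w, v} b r
  refine ⟨C, ?_⟩
  intro k _ K _ _ W X hX V hV m hnd ha s hs
  have h1 := h k K K (base W) (nr_base_pos W) X hX V (sys_mor hV) (sys_alg hV) m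
    (fun x hx hy => hnd x hx hy) ha s hs
  exact ⟨(d_base W _).mp h1.1, h1.2.le⟩

/-- **Semisimplicity from one power.** -/
theorem semisimple_one_power (b r : ℕ) (ε : ℝ) (hε : 0 < ε) : ∃ m₀ : ℕ,
    ∀ (k : Type u) [Field k] [Finite k] (K : Type v) [Field K] [CharZero K]
      (W : WeilCohomology.{u, v, w} k K) (X : SmProjVar k), betti W.toCohomologyData X ≤ b →
        ∀ m ≥ m₀, ε ≤ density W.toCohomologyData X (tateSystem W.toCohomologyData X) m →
          ∀ s ≤ r, W.StandardD (X.selfProd s) ∧
            IsFrobeniusSemisimple W.toCohomologyData (X.selfProd s) :=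
  Pool.Agent.Helper47.ZP.uniform_semisimple_density b r ε hε

end Pool.Agent.Helper59.ZP
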