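import Mathlib
import Pool.Agent.Helper59.ZP.ZDefs
import Pool.Agent.Helper59.ZP.Sys
import Pool.Agent.Helper13.ZP.Uni2
import Pool.Agent.Helper13.ZP.Tri
import Pool.Agent.Helper13.ZP.Par

/-!
# The zero-one law: uniform form and trichotomy, in terms of Weil cohomology theories
-/

universe u v w

open CategoryTheory Filter Topology

namespace Pool.Agent.Helper59.ZP

open Pool.Agent.Helper10 Pool.Agent.Helper11 SmProjVar Pool.Agent.Helper59.ZO
  Pool.Agent.Helper34.ZP Pool.Agent.Helper11.Iso

/-- **Uniform rate.** -/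
theorem uniform_rate (b r : ℕ) : ∃ C : ℝ, 0 < C ∧
    ∀ (k : Type u) [Field k] (K : Type v) [Field K] [CharZero K]
      (W : WeilCohomology.{u, v, w} k K) (X : SmProjVar k), betti W.toCohomologyData X ≤ b →
        ¬ W.StandardD (X.selfProd r) → ∀ n : ℕ,
          (numCycRank W.toCohomologyData (X.selfProd n) : ℝ) * Real.log (n + 2) ≤
            C * cycRank W.toCohomologyData (X.selfProd n) := by
  obtain ⟨C, hC, h⟩ := Pool.Agent.Helper13.ZP.zop_uniform_le.{u, v, w, v} b r
  refine ⟨C, hC, ?_⟩
  intro k _ K _ _ W X hX hD n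
  have h1 := h k K K (base W) (nr_base_pos W) X hX (fun h => hD ((d_base W _).mp h)) n
  rw [nr_base, hr_base] at h1
  exact h1

/-- **One power is enough**, with the rate. -/
theorem rate_one_power (b r : ℕ) : ∃ C : ℝ, 0 < C ∧
    ∀ (k : Type u) [Field k] (K : Type v) [Field K] [CharZero K]
      (W : WeilCohomology.{u, v, w} k K) (X : SmProjVar k), betti W.toCohomologyData X ≤ b →
        ∀ n : ℕ, C * cycRank W.toCohomologyData (X.selfProd n) <
          numCycRank W.toCohomologyData (X.selfProd n) * Real.log (n + 2) →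
            W.StandardD (X.selfProd r) := by
  obtain ⟨C, hC, h⟩ := uniform_rate.{u, v, w} b r
  refine ⟨C, hC, ?_⟩
  intro k _ K _ _ W X hX n hn
  by_contra hD
  exact absurd hn (not_lt.mpr (h k K W X hX hD n))

/-- **One power is enough.** -/
theorem one_power (b r : ℕ) (ε : ℝ) (hε : 0 < ε) : ∃ m₀ : ℕ,
    ∀ (k : Type u) [Field k] (K : Type v) [Field K] [CharZero K]
      (W : WeilCohomology.{u, v, w} k K) (X : SmProjVar k), betti W.toCohomologyData X ≤ b →
        ∀ m ≥ m₀, ε * cycRank W.toCohomologyData (X.selfProd m) ≤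
          numCycRank W.toCohomologyData (X.selfProd m) → W.StandardD (X.selfProd r) := by
  obtain ⟨m₀, h⟩ := Pool.Agent.Helper13.ZP.one_power.{u, v, w, v} b r hε
  refine ⟨m₀, ?_⟩
  intro k _ K _ _ W X hX m hm h1
  refine (d_base W _).mp (h k K K (base W) (nr_base_pos W) X hX m hm ?_)
  rw [nr_base, hr_base]
  exact h1

variable {k : Type u} [Field k] {K : Type v} [Field K] [CharZero K]
  (W : WeilCohomology.{u, v, w} k K) (X : SmProjVar k)

lemma nullClasses_eq (Y : SmProjVar k) : nullClasses W.toCohomologyData Y = radS (base W) Y :=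
  Submodule.span_eq (radS (base W) Y)

lemma isNullMap_iff (Y : SmProjVar k) (f : Module.End K (W.H Y)) :
    IsNullMap W.toCohomologyData Y f ↔ f ∈ Nul (base W) Y Y := by
  unfold IsNullMap
  rw [nullClasses_eq, ← map_opL_radS]
  constructor
  · rintro ⟨c, hc, h⟩
    refine ⟨c, hc, ?_⟩
    refine LinearMap.ext fun x => ?_
    refine SPre.eq_of_tr (P := base W) fun y => ?_
    have h1 := Pool.Agent.Helper10.ZP.tr_op W c x y
    exact h1.trans (h x y).symm
  · rintro ⟨c, hc, rfl⟩
    exact ⟨c, hc, fun x y => Pool.Agent.Helper10.ZP.tr_op W c x y⟩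

lemma nullNilpotent_iff : NullNilpotent W.toCohomologyData X ↔
    ∀ i, ∀ x ∈ Nul (base W) (X.selfProd i) (X.selfProd i),
      IsNilpotent (x : Module.End K ((base W).H (X.selfProd i))) :=
  ⟨fun h i x hx => h i x ((isNullMap_iff W _ x).mpr hx),
    fun h i x hx => h i x ((isNullMap_iff W _ x).mp hx)⟩

/-- **Trichotomy.** -/
theorem trichotomy : CaseD W.toCohomologyData X ∨ CaseNil W.toCohomologyData X ∨
    CaseExp W.toCohomologyData X := by
  rcases Pool.Agent.Helper13.ZP.trichotomy (nr_base_pos W) X with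
    ⟨h1, h2⟩ | ⟨h1, h2, h3, h4⟩ | ⟨h1, h2⟩
  · refine .inl fun m => ⟨(dp_base W X).mp h1 m, ?_⟩
    have h3 := h2 m
    rw [nr_base, hr_base] at h3
    exact h3
  · refine .inr (.inl ⟨fun h => h1 ((dp_base W X).mpr h), (nullNilpotent_iff W X).mpr h2, ?_, ?_⟩)
    · obtain ⟨C, hC, h⟩ := h3
      refine ⟨C, hC, fun m => ?_⟩
      have h5 := h m
      rw [nr_base, hr_base] at h5
      exact h5
    · intro m
      have h5 := h4 m
      rw [nr_base, hr_base] at h5
      exact h5
  · refine .inr (.inr ⟨fun h => h1 ((nullNilpotent_iff W X).mp h), ?_⟩)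
    obtain ⟨θ, hθ, c, hc, h⟩ := h2
    refine ⟨θ, hθ, c, hc, fun m => ?_⟩
    have h5 := h m
    rw [nr_base, hr_base] at h5
    exact h5

variable {W X}

/-- under the sign conjecture the parity involution is algebraic -/
lemma par_mem (h : SignConjecture W.toCohomologyData X) :
    par (base W) X ∈ Mor (base W) X X := by
  obtain ⟨f, hf, hfx⟩ := h
  obtain ⟨g, hg⟩ := W.exists_linear hf
  have h1 : (g : W.H X → W.H X) = f := funext hg
  have h2 : ∀ x : W.H X, par (base W) X x = g x := by
    intro x
    refine W.gr_induction X (p := fun x => par (base W) X x = g x) ?_ ?_ ?_ x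
    · intro i x hx
      rw [h1, hfx i x hx]
      by_cases hi : Even i
      · rw [hi.neg_one_pow, one_smul]
        exact par_ev (P := base W) (W.gr_le_evK X hi hx)
      · rw [(Nat.not_even_iff_odd.mp hi).neg_one_pow, neg_one_smul]
        exact par_od (P := base W) (W.gr_le_odK X hi hx)
    · rw [map_zero]
      exact map_zero (par (base W) X)
    · intro a b ha hb
      rw [map_add g, ← ha, ← hb]
      exact map_add (par (base W) X) a b
  have h3 : par (base W) X = g := LinearMap.ext h2
  rw [h3]
  subst h1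
  exact isMap_of hf

/-- Under the sign conjecture for `X` all numerically trivial self-correspondences of the powers of
`X` are nilpotent. -/
theorem nullNilpotent_of_sign (h : SignConjecture W.toCohomologyData X) :
    NullNilpotent W.toCohomologyData X :=
  (nullNilpotent_iff W X).mpr fun i => Pool.Agent.Helper13.ZP.nil_of_par (par_mem h) i

end Pool.Agent.Helper59.ZP
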