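import Mathlib

set_option autoImplicit false
set_option linter.unusedSectionVars false

/-!
# The family of spheres over the projective plane

The rows are vectors with the coordinates `none` and `some (i, a)`, for `i` in `ι` and `a` a truth
value.
-/

namespace Pool.Agent.Helper59.ZP

open Finset Matrix

noncomputable section

variable {K : Type} [RCLike K] {ι : Type} [Fintype ι] [DecidableEq ι]

/-- The inner product. -/
def ip (x y : Option (ι × Bool) → K) : K := ∑ j, x j * star (y j)

/-- The square of the norm. -/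
def n2 (y : ι × Bool → K) : ℝ := ∑ j, ‖y j‖ ^ 2

theorem n2_nonneg (y : ι × Bool → K) : 0 ≤ n2 y := Finset.sum_nonneg fun j _ => by positivity

theorem n2_pos {y : ι × Bool → K} (hy : y ≠ 0) : 0 < n2 y := by
  obtain ⟨j, hj⟩ : ∃ j, y j ≠ 0 := by
    by_contra hc
    push Not at hc
    exact hy (funext hc)
  have := norm_pos_iff.2 hj
  exact Finset.sum_pos' (fun j _ => by positivity) ⟨j, Finset.mem_univ _, by positivity⟩

/-- The first row. -/
def r1 (β : K) (y : ι × Bool → K) : Option (ι × Bool) → K
  | none => β * algebraMap ℝ K (Real.sqrt (n2 y))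
  | some j => algebraMap ℝ K (Real.sqrt (1 - ‖β‖ ^ 2)) * y j

/-- The second row. -/
def r2 (y : ι × Bool → K) : Option (ι × Bool) → K
  | none => 0
  | some (i, false) => -star (y (i, true))
  | some (i, true) => star (y (i, false))

/-- The action of a matrix on the coordinates `none` and `some (o, false)`. -/
def qa (o : ι) (β : K) (c s : ℝ) (x : Option (ι × Bool) → K) : Option (ι × Bool) → K
  | none => x none * star β * algebraMap ℝ K c + x (some (o, false)) * algebraMap ℝ K s
  | some j => if j = (o, false) then -(x none * algebraMap ℝ K s) +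
      x (some (o, false)) * β * algebraMap ℝ K c else x (some j)

theorem mul_star_self (x : K) : x * star x = algebraMap ℝ K (‖x‖ ^ 2) := by
  rw [RCLike.star_def, RCLike.mul_conj, map_pow, RCLike.algebraMap_eq_ofReal]

theorem star_alg' (c : ℝ) : star (algebraMap ℝ K c) = algebraMap ℝ K c := by
  rw [RCLike.star_def, RCLike.algebraMap_eq_ofReal, RCLike.conj_ofReal]

theorem ip_qa (o : ι) {β : K} {c s : ℝ} (h : ‖β‖ ^ 2 * c ^ 2 + s ^ 2 = 1)
    (x y : Option (ι × Bool) → K) : ip (qa o β c s x) (qa o β c s y) = ip x y := by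
  unfold ip
  rw [Fintype.sum_option, Fintype.sum_option,
    ← Finset.add_sum_erase univ (fun j => qa o β c s x (some j) * star (qa o β c s y (some j)))
      (mem_univ (o, false)),
    ← Finset.add_sum_erase univ (fun j => x (some j) * star (y (some j))) (mem_univ (o, false)),
    ← add_assoc, ← add_assoc]
  have h1 : ∑ j ∈ univ.erase (o, false), qa o β c s x (some j) * star (qa o β c s y (some j)) =
      ∑ j ∈ univ.erase (o, false), x (some j) * star (y (some j)) := by
    refine Finset.sum_congr rfl fun j hj => ?_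
    have hj' := Finset.ne_of_mem_erase hj
    show (if j = (o, false) then _ else x (some j)) *
      star (if j = (o, false) then _ else y (some j)) = _
    rw [if_neg hj', if_neg hj']
  rw [h1]
  congr 1
  show (x none * star β * algebraMap ℝ K c + x (some (o, false)) * algebraMap ℝ K s) *
      star (y none * star β * algebraMap ℝ K c + y (some (o, false)) * algebraMap ℝ K s) +
    (if (o, false) = (o, false) then -(x none * algebraMap ℝ K s) +
      x (some (o, false)) * β * algebraMap ℝ K c else x (some (o, false))) *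
      star (if (o, false) = (o, false) then -(y none * algebraMap ℝ K s) +
        y (some (o, false)) * β * algebraMap ℝ K c else y (some (o, false))) =
    x none * star (y none) + x (some (o, false)) * star (y (some (o, false)))
  rw [if_pos rfl, if_pos rfl]
  simp only [star_add, star_mul, star_neg, star_star, star_alg']
  have h2 : β * star β * algebraMap ℝ K c ^ 2 + algebraMap ℝ K s ^ 2 = 1 := by
    rw [mul_star_self, ← map_pow, ← map_pow, ← map_mul, ← map_add, h, map_one]
  linear_combination (x none * star (y none) + x (some (o, false)) * star (y (some (o, false)))) * h2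

theorem ip_r11 {β : K} (hβ : ‖β‖ ≤ 1) (y : ι × Bool → K) :
    ip (r1 β y) (r1 β y) = algebraMap ℝ K (n2 y) := by
  unfold ip
  rw [Fintype.sum_option]
  have h1 : ∀ j, r1 β y (some j) * star (r1 β y (some j)) =
      algebraMap ℝ K ((1 - ‖β‖ ^ 2) * ‖y j‖ ^ 2) := by
    intro j
    rw [mul_star_self]
    show algebraMap ℝ K (‖algebraMap ℝ K (Real.sqrt (1 - ‖β‖ ^ 2)) * y j‖ ^ 2) = _
    congr 1
    rw [norm_mul, mul_pow, norm_algebraMap', Real.norm_eq_abs, sq_abs, Real.sq_sqrt]
    nlinarith [norm_nonneg β]
  have h2 : r1 β y none * star (r1 β y none) = algebraMap ℝ K (‖β‖ ^ 2 * n2 y) := by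
    rw [mul_star_self]
    show algebraMap ℝ K (‖β * algebraMap ℝ K (Real.sqrt (n2 y))‖ ^ 2) = _
    congr 1
    rw [norm_mul, mul_pow, norm_algebraMap', Real.norm_eq_abs, sq_abs, Real.sq_sqrt (n2_nonneg y)]
  simp only [h1]
  rw [h2, ← map_sum, ← map_add, ← Finset.mul_sum]
  congr 1
  show ‖β‖ ^ 2 * n2 y + (1 - ‖β‖ ^ 2) * n2 y = n2 y
  ring

theorem ip_r22 (y : ι × Bool → K) : ip (r2 y) (r2 y) = algebraMap ℝ K (n2 y) := by
  unfold ip
  rw [Fintype.sum_option, Fintype.sum_prod_type]
  have h1 : ∀ i, ∑ b : Bool, r2 y (some (i, b)) * star (r2 y (some (i, b))) =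
      algebraMap ℝ K (∑ b : Bool, ‖y (i, b)‖ ^ 2) := by
    intro i
    rw [Fintype.sum_bool, Fintype.sum_bool, map_add, mul_star_self, mul_star_self]
    show algebraMap ℝ K (‖star (y (i, false))‖ ^ 2) + algebraMap ℝ K (‖-star (y (i, true))‖ ^ 2) = _
    rw [norm_neg, norm_star, norm_star, add_comm]
  simp only [h1]
  rw [← map_sum]
  show (0 : K) * star 0 + _ = _
  rw [zero_mul, zero_add, n2, Fintype.sum_prod_type]

theorem ip_r12 (β : K) (y : ι × Bool → K) : ip (r1 β y) (r2 y) = 0 := by
  unfold ip
  rw [Fintype.sum_option, Fintype.sum_prod_type]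
  have h1 : ∀ i, ∑ b : Bool, r1 β y (some (i, b)) * star (r2 y (some (i, b))) = 0 := by
    intro i
    rw [Fintype.sum_bool]
    show algebraMap ℝ K (Real.sqrt (1 - ‖β‖ ^ 2)) * y (i, true) * star (star (y (i, false))) +
      algebraMap ℝ K (Real.sqrt (1 - ‖β‖ ^ 2)) * y (i, false) * star (-star (y (i, true))) = 0
    rw [star_neg, star_star, star_star]
    ring
  simp only [h1]
  rw [Finset.sum_const_zero, add_zero]
  show r1 β y none * star 0 = 0
  rw [star_zero, mul_zero]

theorem ip_r21 (β : K) (y : ι × Bool → K) : ip (r2 y) (r1 β y) = 0 := by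
  have h1 : ip (r2 y) (r1 β y) = star (ip (r1 β y) (r2 y)) := by
    unfold ip
    rw [star_sum]
    refine Finset.sum_congr rfl fun j _ => ?_
    rw [star_mul, star_star]
  rw [h1, ip_r12, star_zero]

/-- The family. -/
def fam (o : ι) (β : K) (c s : ℝ) (y : ι × Bool → K) : Matrix (Fin 2) (Option (ι × Bool)) K :=
  Matrix.of ![qa o β c s (r1 β y), qa o β c s (r2 y)]

theorem fam_gram (o : ι) {β : K} {c s : ℝ} (hβ : ‖β‖ ≤ 1) (h : ‖β‖ ^ 2 * c ^ 2 + s ^ 2 = 1)
    (y : ι × Bool → K) : fam o β c s y * (fam o β c s y)ᴴ = algebraMap ℝ K (n2 y) • 1 := by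
  have h1 : ∀ a b : Fin 2, (fam o β c s y * (fam o β c s y)ᴴ) a b =
      ip (fam o β c s y a) (fam o β c s y b) := by
    intro a b
    rw [Matrix.mul_apply]
    rfl
  have h2 : fam o β c s y 0 = qa o β c s (r1 β y) := rfl
  have h3 : fam o β c s y 1 = qa o β c s (r2 y) := rfl
  ext a b
  rw [h1, Matrix.smul_apply, smul_eq_mul]
  fin_cases a <;> fin_cases b
  · show ip (fam o β c s y 0) (fam o β c s y 0) = _
    rw [h2, ip_qa o h, ip_r11 hβ]
    simp
  · show ip (fam o β c s y 0) (fam o β c s y 1) = _
    rw [h2, h3, ip_qa o h, ip_r12]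
    simp
  · show ip (fam o β c s y 1) (fam o β c s y 0) = _
    rw [h2, h3, ip_qa o h, ip_r21]
    simp
  · show ip (fam o β c s y 1) (fam o β c s y 1) = _
    rw [h3, ip_qa o h, ip_r22]
    simp

/-- The family is odd in `y` over the center. -/
theorem fam_odd (o : ι) (y : ι × Bool → K) :
    fam o 0 0 1 (-y) = -fam o (0 : K) 0 1 y := by
  have hn : n2 (-y) = n2 y := by
    unfold n2
    refine Finset.sum_congr rfl fun j _ => ?_
    rw [Pi.neg_apply, norm_neg]
  have h1 : r1 (0 : K) (-y) = -r1 0 y := by
    funext j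
    rcases j with _ | j
    · show (0 : K) * _ = -((0 : K) * _)
      rw [zero_mul, zero_mul, neg_zero]
    · show algebraMap ℝ K _ * (-y j) = -(algebraMap ℝ K _ * y j)
      rw [mul_neg]
  have h2 : r2 (-y) = -r2 y := by
    funext j
    rcases j with _ | ⟨j, _ | _⟩
    · show (0 : K) = -0
      rw [neg_zero]
    · show -star (-y (j, true)) = - -star (y (j, true))
      rw [star_neg]
    · show star (-y (j, false)) = -star (y (j, false))
      rw [star_neg]
  have h3 : ∀ x : Option (ι × Bool) → K, qa o (0 : K) 0 1 (-x) = -qa o 0 0 1 x := by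
    intro x
    funext j
    rcases j with _ | j
    · show -x none * star 0 * algebraMap ℝ K 0 + -x (some (o, false)) * algebraMap ℝ K 1 =
        -(x none * star 0 * algebraMap ℝ K 0 + x (some (o, false)) * algebraMap ℝ K 1)
      ring
    · show (if j = (o, false) then -(-x none * algebraMap ℝ K 1) +
        -x (some (o, false)) * 0 * algebraMap ℝ K 0 else -x (some j)) =
        -(if j = (o, false) then -(x none * algebraMap ℝ K 1) +
          x (some (o, false)) * 0 * algebraMap ℝ K 0 else x (some j))
      split_ifs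
      · ring
      · rfl
  ext a j
  fin_cases a
  · show qa o (0 : K) 0 1 (r1 0 (-y)) j = -(qa o 0 0 1 (r1 0 y) j)
    rw [h1, h3]
    rfl
  · show qa o (0 : K) 0 1 (r2 (-y)) j = -(qa o 0 0 1 (r2 y) j)
    rw [h2, h3]
    rfl

/-- The change of the sign of the coordinate `(o, true)`. -/
def fy (o : ι) (y : ι × Bool → K) : ι × Bool → K := fun j => if j = (o, true) then -y j else y j

theorem n2_fy (o : ι) (y : ι × Bool → K) : n2 (fy o y) = n2 y := by
  unfold n2
  refine Finset.sum_congr rfl fun j _ => ?_
  unfold fy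
  split_ifs
  · rw [norm_neg]
  · rfl

/-- The identification over the boundary. -/
theorem fam_fy (o : ι) {β : K} (hβ : ‖β‖ = 1) (y : ι × Bool → K) :
    fam o (-β) 1 0 (fy o y) = fam o β 1 0 y := by
  have hβ' : Real.sqrt (1 - ‖β‖ ^ 2) = 0 := by
    rw [hβ]
    norm_num
  ext a j
  fin_cases a
  · show qa o (-β) 1 0 (r1 (-β) (fy o y)) j = qa o β 1 0 (r1 β y) j
    rcases j with _ | j
    · show -β * algebraMap ℝ K (Real.sqrt (n2 (fy o y))) * star (-β) * algebraMap ℝ K 1 +
        algebraMap ℝ K (Real.sqrt (1 - ‖-β‖ ^ 2)) * fy o y (o, false) * algebraMap ℝ K 0 =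
        β * algebraMap ℝ K (Real.sqrt (n2 y)) * star β * algebraMap ℝ K 1 +
        algebraMap ℝ K (Real.sqrt (1 - ‖β‖ ^ 2)) * y (o, false) * algebraMap ℝ K 0
      rw [n2_fy, star_neg, norm_neg, map_zero]
      ring
    · show (if j = (o, false) then
          -(-β * algebraMap ℝ K (Real.sqrt (n2 (fy o y))) * algebraMap ℝ K 0) +
          algebraMap ℝ K (Real.sqrt (1 - ‖-β‖ ^ 2)) * fy o y (o, false) * -β * algebraMap ℝ K 1 else
          algebraMap ℝ K (Real.sqrt (1 - ‖-β‖ ^ 2)) * fy o y j) =
        if j = (o, false) then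
          -(β * algebraMap ℝ K (Real.sqrt (n2 y)) * algebraMap ℝ K 0) +
          algebraMap ℝ K (Real.sqrt (1 - ‖β‖ ^ 2)) * y (o, false) * β * algebraMap ℝ K 1 else
          algebraMap ℝ K (Real.sqrt (1 - ‖β‖ ^ 2)) * y j
      rw [norm_neg, hβ', map_zero]
      split_ifs
      · ring
      · ring
  · show qa o (-β) 1 0 (r2 (fy o y)) j = qa o β 1 0 (r2 y) j
    have h1 : r2 (fy o y) (some (o, false)) = -r2 y (some (o, false)) := by
      show -star (if (o, true) = (o, true) then -y (o, true) else y (o, true)) = - -star (y (o, true))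
      rw [if_pos rfl, star_neg]
    have h2 : ∀ j, j ≠ (o, false) → r2 (fy o y) (some j) = r2 y (some j) := by
      rintro ⟨j, _ | _⟩ hj
      · show -star (if (j, true) = (o, true) then -y (j, true) else y (j, true)) =
          -star (y (j, true))
        rw [if_neg]
        intro h
        have h3 : j = o := congrArg Prod.fst h
        exact hj (by rw [h3])
      · show star (if (j, false) = (o, true) then -y (j, false) else y (j, false)) =
          star (y (j, false))
        rw [if_neg (by simp)]
    rcases j with _ | j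
    · show 0 * star (-β) * algebraMap ℝ K 1 + r2 (fy o y) (some (o, false)) * algebraMap ℝ K 0 =
        0 * star β * algebraMap ℝ K 1 + r2 y (some (o, false)) * algebraMap ℝ K 0
      rw [map_zero]
      ring
    · show (if j = (o, false) then -(0 * algebraMap ℝ K 0) +
          r2 (fy o y) (some (o, false)) * -β * algebraMap ℝ K 1 else r2 (fy o y) (some j)) =
        if j = (o, false) then -(0 * algebraMap ℝ K 0) +
          r2 y (some (o, false)) * β * algebraMap ℝ K 1 else r2 y (some j)
      split_ifs with hj
      · rw [h1]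
        ring
      · exact h2 j hj

/-- The continuity. -/
theorem continuous_fam {X : Type} [TopologicalSpace X] (o : ι) {β : X → K} {c s : X → ℝ}
    {y : X → ι × Bool → K} {D : Set X} (hβ : ContinuousOn β D) (hc : ContinuousOn c D)
    (hs : ContinuousOn s D) (hy : ContinuousOn y D) :
    ContinuousOn (fun x => fam o (β x) (c x) (s x) (y x)) D := by
  have halg : ∀ {f : X → ℝ}, ContinuousOn f D → ContinuousOn (fun x => algebraMap ℝ K (f x)) D := by
    intro f hf
    exact (continuous_algebraMap ℝ K).comp_continuousOn hf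
  have hyj : ∀ j, ContinuousOn (fun x => y x j) D := fun j => (continuousOn_pi.1 hy) j
  have hn : ContinuousOn (fun x => n2 (y x)) D := by
    unfold n2
    exact continuousOn_finsetSum _ fun j _ => (hyj j).norm.pow 2
  have h1 : ∀ j, ContinuousOn (fun x => r1 (β x) (y x) j) D := by
    rintro (_ | j)
    · show ContinuousOn (fun x => β x * algebraMap ℝ K (Real.sqrt (n2 (y x)))) D
      exact hβ.mul (halg hn.sqrt)
    · show ContinuousOn (fun x => algebraMap ℝ K (Real.sqrt (1 - ‖β x‖ ^ 2)) * y x j) D
      exact (halg (continuousOn_const.sub (hβ.norm.pow 2)).sqrt).mul (hyj j)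
  have h2 : ∀ j, ContinuousOn (fun x => r2 (y x) j) D := by
    rintro (_ | ⟨j, _ | _⟩)
    · exact continuousOn_const
    · show ContinuousOn (fun x => -star (y x (j, true))) D
      exact (hyj _).star.neg
    · show ContinuousOn (fun x => star (y x (j, false))) D
      exact (hyj _).star
  have h3 : ∀ (z : X → Option (ι × Bool) → K), (∀ j, ContinuousOn (fun x => z x j) D) →
      ∀ j, ContinuousOn (fun x => qa o (β x) (c x) (s x) (z x) j) D := by
    rintro z hz (_ | j)
    · show ContinuousOn (fun x => z x none * star (β x) * algebraMap ℝ K (c x) +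
        z x (some (o, false)) * algebraMap ℝ K (s x)) D
      exact (((hz _).mul hβ.star).mul (halg hc)).add ((hz _).mul (halg hs))
    · show ContinuousOn (fun x => if j = (o, false) then -(z x none * algebraMap ℝ K (s x)) +
        z x (some (o, false)) * β x * algebraMap ℝ K (c x) else z x (some j)) D
      by_cases hj : j = (o, false)
      · simp only [hj, if_true]
        exact (((hz _).mul (halg hs)).neg).add (((hz _).mul hβ).mul (halg hc))
      · simp only [hj, if_false]
        exact hz _
  refine continuousOn_pi.2 fun a => continuousOn_pi.2 fun j => ?_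
  fin_cases a
  · exact h3 _ h1 j
  · exact h3 _ h2 j

end

end Pool.Agent.Helper59.ZP
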