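import Pool.Agent.Helper59.ZP.Fam
import Pool.Agent.Helper59.ZP.Geo

set_option autoImplicit false
set_option linter.unusedSectionVars false

/-!
# The family of spheres over the projective plane and odd maps
-/

namespace Pool.Agent.Helper59.ZP

open Finset Matrix Module

variable {K : Type} [RCLike K] {ι : Type} [Fintype ι] [DecidableEq ι]

/-- The point of the unit disc. -/
noncomputable def bet (z : (Fin 2 → ℝ) ≃ₗ[ℝ] K) (b : Fin 2 → ℝ) : K :=
  (max ‖z b‖ (1 - 2 * ‖b‖))⁻¹ • z b

/-- The time. -/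
noncomputable def sF (b : Fin 2 → ℝ) : ℝ := min 1 (2 * (1 - ‖b‖))

/-- The other coefficient. -/
noncomputable def cF (b : Fin 2 → ℝ) : ℝ := Real.sqrt (1 - sF b ^ 2)

theorem den_pos (z : (Fin 2 → ℝ) ≃ₗ[ℝ] K) (b : Fin 2 → ℝ) : 0 < max ‖z b‖ (1 - 2 * ‖b‖) := by
  by_cases hb : b = 0
  · rw [hb, norm_zero]
    refine lt_of_lt_of_le ?_ (le_max_right _ _)
    norm_num
  · refine lt_of_lt_of_le ?_ (le_max_left _ _)
    exact norm_pos_iff.2 fun h => hb (z.map_eq_zero_iff.1 h)

theorem bet_norm (z : (Fin 2 → ℝ) ≃ₗ[ℝ] K) (b : Fin 2 → ℝ) :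
    ‖bet z b‖ = (max ‖z b‖ (1 - 2 * ‖b‖))⁻¹ * ‖z b‖ := by
  unfold bet
  rw [norm_smul, Real.norm_eq_abs, abs_of_pos (inv_pos.2 (den_pos z b))]

theorem bet_le (z : (Fin 2 → ℝ) ≃ₗ[ℝ] K) (b : Fin 2 → ℝ) : ‖bet z b‖ ≤ 1 := by
  rw [bet_norm, inv_mul_le_one₀ (den_pos z b)]
  exact le_max_left _ _

theorem bet_eq (z : (Fin 2 → ℝ) ≃ₗ[ℝ] K) {b : Fin 2 → ℝ} (hb : 1 / 2 ≤ ‖b‖) : ‖bet z b‖ = 1 := by
  have h1 : max ‖z b‖ (1 - 2 * ‖b‖) = ‖z b‖ := max_eq_left (by
    have := norm_nonneg (z b)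
    linarith)
  rw [bet_norm]
  have h2 := den_pos z b
  rw [h1] at h2 ⊢
  exact inv_mul_cancel₀ h2.ne'

theorem bet_neg (z : (Fin 2 → ℝ) ≃ₗ[ℝ] K) (b : Fin 2 → ℝ) : bet z (-b) = -bet z b := by
  unfold bet
  rw [map_neg, norm_neg, norm_neg, smul_neg]

theorem bet_zero (z : (Fin 2 → ℝ) ≃ₗ[ℝ] K) : bet z 0 = 0 := by
  unfold bet
  rw [map_zero, smul_zero]

theorem continuous_bet (z : (Fin 2 → ℝ) ≃ₗ[ℝ] K) : Continuous (bet z) := by
  have hz : Continuous z := LinearMap.continuous_of_finiteDimensional z.toLinearMap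
  unfold bet
  refine Continuous.smul ?_ hz
  exact (hz.norm.max (by fun_prop)).inv₀ fun b => (den_pos z b).ne'

theorem continuous_sF : Continuous sF := by
  unfold sF
  fun_prop

theorem continuous_cF : Continuous cF := by
  unfold cF
  exact (continuous_const.sub (continuous_sF.pow 2)).sqrt

theorem sF_le {b : Fin 2 → ℝ} (hb : ‖b‖ ≤ 1) : 0 ≤ sF b ∧ sF b ≤ 1 := by
  constructor
  · exact le_min zero_le_one (by linarith)
  · exact min_le_left _ _

theorem cF_sq {b : Fin 2 → ℝ} (hb : ‖b‖ ≤ 1) : cF b ^ 2 = 1 - sF b ^ 2 := by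
  unfold cF
  have h1 := sF_le hb
  rw [Real.sq_sqrt]
  nlinarith

theorem bet_cF (z : (Fin 2 → ℝ) ≃ₗ[ℝ] K) {b : Fin 2 → ℝ} (hb : ‖b‖ ≤ 1) :
    ‖bet z b‖ ^ 2 * cF b ^ 2 + sF b ^ 2 = 1 := by
  rw [cF_sq hb]
  by_cases h : 1 / 2 ≤ ‖b‖
  · rw [bet_eq z h]
    ring
  · have h1 : sF b = 1 := min_eq_left (by linarith [not_le.1 h])
    rw [h1]
    ring

theorem sF_zero : sF 0 = 1 := by
  unfold sF
  rw [norm_zero]
  norm_num

theorem cF_zero : cF 0 = 0 := by
  unfold cF
  rw [sF_zero]
  norm_num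

theorem sF_one {b : Fin 2 → ℝ} (hb : ‖b‖ = 1) : sF b = 0 := by
  unfold sF
  rw [hb]
  norm_num

theorem cF_one {b : Fin 2 → ℝ} (hb : ‖b‖ = 1) : cF b = 1 := by
  unfold cF
  rw [sF_one hb]
  norm_num

/-- **There is no odd map outside of the cone.** -/
theorem no_odd_map (hK : finrank ℝ K = 2) (o : ι) {l d : ℕ} (hd : l + 4 * Fintype.card ι = d)
    {F : (Fin l → ℝ) → Fin d → ℝ} (hF : Continuous F) (hF0 : F 0 = 0)
    (hodd : ∀ x, F (-x) = -F x) {L : Matrix (Fin 2) (Option (ι × Bool)) K →ₗ[ℝ] (Fin d → ℝ)}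
    (hL : ∀ Y, L Y = 0 → Y = 0)
    (h : ∀ x, x ≠ 0 → ∀ (Y : Matrix (Fin 2) (Option (ι × Bool)) K) (c : ℝ), 0 ≤ c →
      Y * Yᴴ = algebraMap ℝ K c • 1 → F x ≠ L Y) : False := by
  classical
  let z : (Fin 2 → ℝ) ≃ₗ[ℝ] K := LinearEquiv.ofFinrankEq _ _ (by rw [finrank_fin_fun, hK])
  have hcard : 0 < Fintype.card ι := Fintype.card_pos_iff.2 ⟨o⟩
  obtain ⟨n, rfl⟩ : ∃ n, d = n + 1 := ⟨d - 1, by omega⟩
  -- the coordinates
  obtain ⟨e, he⟩ : ∃ e : Fin (n + 1) ≃ Fin l ⊕ ((ι × Bool) × Fin 2),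
      e 0 = Sum.inr ((o, false), 0) := by
    let e₀ : Fin (n + 1) ≃ Fin l ⊕ ((ι × Bool) × Fin 2) := Fintype.equivOfCardEq (by
      rw [Fintype.card_sum, Fintype.card_prod, Fintype.card_prod, Fintype.card_fin,
        Fintype.card_fin, Fintype.card_fin, Fintype.card_bool]
      omega)
    exact ⟨e₀.trans (Equiv.swap (e₀ 0) (Sum.inr ((o, false), 0))), by simp⟩
  let P : Fin (n + 1) → Prop := fun k => ∃ a, e k = Sum.inr ((o, true), a)
  have hP0 : ¬ P 0 := by
    rintro ⟨a, ha⟩
    rw [he] at ha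
    simp at ha
  let c : Fin n → Bool := fun j => decide (P j.succ)
  have hcc : ∀ k, cc c k = decide (P k) := by
    intro k
    refine Fin.cases ?_ (fun j => ?_) k
    · show false = decide (P 0)
      rw [decide_eq_false hP0]
    · show c j = _
      rfl
  have hcc2 : (univ.filter fun j => c j = true).card = 2 := by
    have h1 : (univ.filter fun k : Fin (n + 1) => P k).card = 2 := by
      have h2 : (univ.filter fun k : Fin (n + 1) => P k) =
          univ.image fun a : Fin 2 => e.symm (Sum.inr ((o, true), a)) := by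
        ext k
        simp only [mem_filter, mem_univ, true_and, mem_image]
        constructor
        · rintro ⟨a, ha⟩
          exact ⟨a, by rw [← ha, Equiv.symm_apply_apply]⟩
        · rintro ⟨a, rfl⟩
          exact ⟨a, by rw [Equiv.apply_symm_apply]⟩
      rw [h2, card_image_of_injective]
      · simp
      · intro a b hab
        have h3 := e.symm.injective hab
        simpa using h3
    rw [Fin.card_filter_univ_succ, if_neg hP0] at h1
    rw [← h1]
    congr 1
    ext j
    simp [c]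
  let xv : (Fin (n + 1) → ℝ) → Fin l → ℝ := fun v i => v (e.symm (Sum.inl i))
  let yv : (Fin (n + 1) → ℝ) → ι × Bool → K := fun v j => z fun a => v (e.symm (Sum.inr (j, a)))
  have hzc : Continuous z := LinearMap.continuous_of_finiteDimensional z.toLinearMap
  have hxc : Continuous xv := continuous_pi fun i => continuous_apply _
  have hyc : Continuous yv := by
    refine continuous_pi fun j => hzc.comp ?_
    exact continuous_pi fun a => continuous_apply _
  have hxfl : ∀ v, xv (fl (cc c) v) = xv v := by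
    intro v
    funext i
    show (if cc c (e.symm (Sum.inl i)) = true then - v _ else v _) = v _
    rw [if_neg]
    rw [hcc]
    simp only [decide_eq_true_eq]
    rintro ⟨a, ha⟩
    rw [Equiv.apply_symm_apply] at ha
    simp at ha
  have hyfl : ∀ v, yv (fl (cc c) v) = fy o (yv v) := by
    intro v
    funext j
    show z (fun a => if cc c (e.symm (Sum.inr (j, a))) = true then - v (e.symm (Sum.inr (j, a)))
      else v (e.symm (Sum.inr (j, a)))) = if j = (o, true) then -yv v j else yv v j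
    have h1 : ∀ a : Fin 2, cc c (e.symm (Sum.inr (j, a))) = decide (j = (o, true)) := by
      intro a
      rw [hcc, decide_eq_decide]
      constructor
      · rintro ⟨a', ha⟩
        rw [Equiv.apply_symm_apply] at ha
        exact (Prod.ext_iff.1 (Sum.inr.inj ha)).1
      · rintro rfl
        exact ⟨a, by rw [Equiv.apply_symm_apply]⟩
    simp only [h1, decide_eq_true_eq]
    by_cases hj : j = (o, true)
    · rw [if_pos hj]
      simp only [if_pos hj]
      show z (-fun a => v (e.symm (Sum.inr (j, a)))) = _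
      rw [map_neg]
    · rw [if_neg hj]
      simp only [if_neg hj]
      rfl
  have hyneg : ∀ v, yv (-v) = -yv v := by
    intro v
    funext j
    show z (-fun a => v (e.symm (Sum.inr (j, a)))) = -z _
    rw [map_neg]
  have hxy : ∀ v, xv v = 0 → yv v = 0 → v = 0 := by
    intro v hx hy
    funext k
    obtain ⟨i, hi⟩ : ∃ i, e.symm i = k := ⟨e k, Equiv.symm_apply_apply _ _⟩
    rw [← hi]
    rcases i with i | ⟨j, a⟩
    · exact congrFun hx i
    · have h1 : (fun a => v (e.symm (Sum.inr (j, a)))) = 0 := z.map_eq_zero_iff.1 (congrFun hy j)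
      exact congrFun h1 a
  have hLc : Continuous L := LinearMap.continuous_of_finiteDimensional L
  have hV2 : V 2 (univ.filter fun j => c j = true).card = 1 := by
    rw [hcc2]
    unfold V
    decide
  refine no_fam (p := 2) (n := n) (by norm_num) c hV2
    (fun b v => F (xv v) - L (fam o (bet z b) (cF b) (sF b) (yv v))) ?_ ?_ ?_ ?_
  · refine ContinuousOn.sub ?_ ?_
    · exact (hF.comp (hxc.comp continuous_snd)).continuousOn
    · refine hLc.comp_continuousOn (continuous_fam o ?_ ?_ ?_ ?_)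
      · exact ((continuous_bet z).comp continuous_fst).continuousOn
      · exact (continuous_cF.comp continuous_fst).continuousOn
      · exact (continuous_sF.comp continuous_fst).continuousOn
      · exact (hyc.comp continuous_snd).continuousOn
  · intro b hb v hv
    have hv' : F (xv v) = L (fam o (bet z b) (cF b) (sF b) (yv v)) := sub_eq_zero.1 hv
    have hg := fam_gram o (bet_le z b) (bet_cF z hb) (yv v)
    have hx : xv v = 0 := by
      by_contra hx
      exact h _ hx _ _ (n2_nonneg _) hg hv'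
    rw [hx, hF0] at hv'
    have h1 := hL _ hv'.symm
    refine hxy v hx ?_
    by_contra hy
    rw [h1, Matrix.zero_mul] at hg
    have h2 := congrFun (congrFun hg 0) 0
    rw [Matrix.smul_apply, Matrix.one_apply_eq, smul_eq_mul, mul_one, Matrix.zero_apply] at h2
    have h3 : n2 (yv v) = 0 := by
      rw [← map_zero (algebraMap ℝ K)] at h2
      exact ((algebraMap ℝ K).injective h2).symm
    exact absurd h3 (n2_pos hy).ne'
  · intro b hb v
    show F (xv (fl (cc c) v)) - L (fam o (bet z (-b)) (cF (-b)) (sF (-b)) (yv (fl (cc c) v))) =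
      F (xv v) - L (fam o (bet z b) (cF b) (sF b) (yv v))
    have hb' : ‖-b‖ = 1 := by rw [norm_neg, hb]
    rw [hxfl, hyfl, cF_one hb, cF_one hb', sF_one hb, sF_one hb', bet_neg,
      fam_fy o (bet_eq z (by rw [hb]; norm_num))]
  · intro v
    show F (xv (-v)) - L (fam o (bet z 0) (cF 0) (sF 0) (yv (-v))) =
      -(F (xv v) - L (fam o (bet z 0) (cF 0) (sF 0) (yv v)))
    have h1 : xv (-v) = -xv v := rfl
    rw [bet_zero, cF_zero, sF_zero, hyneg, fam_odd, h1, hodd, map_neg]
    abel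

end Pool.Agent.Helper59.ZP
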