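import Pool.Agent.Helper59.ZD.Grp
import Pool.Agent.Helper59.ZP.Top

set_option autoImplicit false

/-!
# The subgroups `Sp(1, N / 2)` of `U(r, n)`, `N < n`
-/

namespace Pool.Agent.Helper59.ZP

open Matrix Module Pool.Agent.Helper17.CKF Pool.Agent.Helper40.CK Pool.Agent.Helper20.CKP
  Pool.Agent.Helper29.CKP Pool.Agent.Helper20.EH Pool.Agent.Helper17.ZD Pool.Agent.Helper59.ZD

variable {K : Type} [RCLike K]

theorem dot_iso {n N : ℕ} {A : Matrix (Fin n) (Fin N) K} (hA : Aᴴ * A = 1) (v w : Fin N → K) :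
    (A *ᵥ v) ⬝ᵥ star (A *ᵥ w) = v ⬝ᵥ star w := by
  rw [star_mulVec, dotProduct_comm, dotProduct_mulVec, vecMul_vecMul, hA, vecMul_one,
    dotProduct_comm]

theorem dot_skew {N : ℕ} {S : Matrix (Fin N) (Fin N) K} (hS : Sᵀ = -S) (y : Fin N → K) :
    y ⬝ᵥ star (S *ᵥ star y) = 0 := by
  have hT : Sᴴᵀ = -Sᴴ := by
    have h1 : Sᴴᵀ = S.map star := by
      ext i j
      rfl
    have h2 : Sᴴ = -(S.map star) := by
      have h3 : Sᴴ = Sᵀ.map star := rfl
      rw [h3, hS]
      ext i j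
      show star (-S i j) = -star (S i j)
      rw [star_neg]
    rw [h1, h2, neg_neg]
  rw [star_mulVec, star_star]
  have h1 : y ⬝ᵥ (y ᵥ* Sᴴ) = -(y ⬝ᵥ (y ᵥ* Sᴴ)) := by
    conv_lhs => rw [dotProduct_comm, ← dotProduct_mulVec]
    rw [← mulVec_transpose, hT, neg_mulVec, dotProduct_neg, neg_neg]
  have h2 : (2 : K) * (y ⬝ᵥ (y ᵥ* Sᴴ)) = 0 := by
    rw [two_mul]
    nth_rewrite 1 [h1]
    rw [neg_add_cancel]
  exact (mul_eq_zero.1 h2).resolve_left two_ne_zero

theorem gram_two {n N : ℕ} {A : Matrix (Fin n) (Fin N) K} {S : Matrix (Fin N) (Fin N) K}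
    (hA : Aᴴ * A = 1) (hS : Sᵀ = -S) (hSS : S * Sᴴ = 1) (y : Fin N → K) :
    (Matrix.of ![A *ᵥ y, A *ᵥ (S *ᵥ star y)]) * (Matrix.of ![A *ᵥ y, A *ᵥ (S *ᵥ star y)])ᴴ =
      (y ⬝ᵥ star y) • (1 : Matrix (Fin 2) (Fin 2) K) := by
  have hS' : Sᴴ * S = 1 := mul_eq_one_comm.1 hSS
  have h0 := dot_skew hS y
  ext a b
  fin_cases a <;> fin_cases b
  · show (A *ᵥ y) ⬝ᵥ star (A *ᵥ y) = (y ⬝ᵥ star y) * (1 : Matrix (Fin 2) (Fin 2) K) 0 0
    rw [dot_iso hA, Matrix.one_apply_eq, mul_one]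
  · show (A *ᵥ y) ⬝ᵥ star (A *ᵥ (S *ᵥ star y)) =
      (y ⬝ᵥ star y) * (1 : Matrix (Fin 2) (Fin 2) K) 0 1
    rw [dot_iso hA, h0, Matrix.one_apply_ne (by decide), mul_zero]
  · show (A *ᵥ (S *ᵥ star y)) ⬝ᵥ star (A *ᵥ y) =
      (y ⬝ᵥ star y) * (1 : Matrix (Fin 2) (Fin 2) K) 1 0
    rw [dot_iso hA, Matrix.one_apply_ne (by decide), mul_zero]
    have h1 := congrArg star h0
    rw [star_zero, ← dotProduct_star] at h1
    exact h1
  · show (A *ᵥ (S *ᵥ star y)) ⬝ᵥ star (A *ᵥ (S *ᵥ star y)) =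
      (y ⬝ᵥ star y) * (1 : Matrix (Fin 2) (Fin 2) K) 1 1
    rw [dot_iso hA, dot_iso hS', star_star, Matrix.one_apply_eq, mul_one, dotProduct_comm]

theorem even_skew {N : ℕ} {S : Matrix (Fin N) (Fin N) K} (hS : Sᵀ = -S) (hSS : S * Sᴴ = 1) :
    Even N := by
  by_contra h
  rw [Nat.not_even_iff_odd] at h
  have h1 : S.det = -S.det := by
    have h2 := congrArg Matrix.det hS
    rw [det_transpose, det_neg, Fintype.card_fin, h.neg_one_pow, neg_one_mul] at h2
    exact h2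
  have h3 : S.det = 0 := by
    have h4 : (2 : K) * S.det = 0 := by
      rw [two_mul]
      nth_rewrite 1 [h1]
      rw [neg_add_cancel]
    exact (mul_eq_zero.1 h4).resolve_left two_ne_zero
  have h4 := congrArg Matrix.det hSS
  rw [det_mul, h3, zero_mul, det_one] at h4
  exact zero_ne_one h4

/-- The space `p` of `H` is not that of `Sp(1, N / 2)` in `U(r, n)`, `N < n`. -/
theorem not_two_C (hK : finrank ℝ K = 2) {r n N : ℕ} {H : Subgroup (UpqK K r n)}
    (hH : IsReductive (H.map (UpqK K r n).subtype)) (had : AdmitsCocompact H)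
    {U : Matrix (Fin r) (Fin 2) K} {A : Matrix (Fin n) (Fin N) K}
    {S : Matrix (Fin N) (Fin N) K} (hn : N < n) (hN : 0 < N) (hU : Uᴴ * U = 1)
    (hA : Aᴴ * A = 1) (hS : Sᵀ = -S) (hSS : S * Sᴴ = 1)
    (hX : ∀ X, X ∈ pSpace (H.map (UpqK K r n).subtype) ↔
      ∃ y : Fin N → K, X = pcK K r n (U * Matrix.of ![A *ᵥ y, A *ᵥ (S *ᵥ star y)])) : False := by
  classical
  obtain ⟨m, hm⟩ := even_skew hS hSS
  have hm0 : 0 < m := by omega
  -- the dimension
  let φ : (Fin N → K) →ₗ[ℝ] Matrix (Fin ((r + n) + (r + n))) (Fin ((r + n) + (r + n))) ℝ :=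
    { toFun := fun y => pcK K r n (U * Matrix.of ![A *ᵥ y, A *ᵥ (S *ᵥ star y)])
      map_add' := fun y y' => by
        rw [← map_add, ← Matrix.mul_add]
        congr 2
        rw [star_add, mulVec_add, mulVec_add, mulVec_add]
        ext i j
        fin_cases i <;> rfl
      map_smul' := fun c y => by
        rw [RingHom.id_apply, ← map_smul, ← Matrix.mul_smul]
        congr 2
        have h1 : star (c • y) = c • star y := by
          rw [star_smul, star_trivial]
        rw [h1, mulVec_smul, mulVec_smul, mulVec_smul]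
        ext i j
        fin_cases i <;> rfl }
  have hφ : Function.Injective φ := by
    rw [← LinearMap.ker_eq_bot, LinearMap.ker_eq_bot']
    intro y hy
    have h1 : pcK K r n (U * Matrix.of ![A *ᵥ y, A *ᵥ (S *ᵥ star y)]) = pcK K r n 0 := by
      rw [map_zero]
      exact hy
    have h2 := pcK_inj h1
    have h3 : Uᴴ * (U * Matrix.of ![A *ᵥ y, A *ᵥ (S *ᵥ star y)]) = 0 := by
      rw [h2, Matrix.mul_zero]
    rw [← Matrix.mul_assoc, hU, Matrix.one_mul] at h3
    have h4 : A *ᵥ y = 0 := by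
      funext i
      exact congrFun (congrFun h3 0) i
    have h5 : Aᴴ *ᵥ (A *ᵥ y) = y := by
      rw [mulVec_mulVec, hA, one_mulVec]
    rw [← h5, h4, mulVec_zero]
  have hrange : pSpace (H.map (UpqK K r n).subtype) = LinearMap.range φ := by
    ext X
    rw [hX, LinearMap.mem_range]
    exact ⟨fun ⟨w, h⟩ => ⟨w, h.symm⟩, fun ⟨w, h⟩ => ⟨w, h.symm⟩⟩
  have hv : finrank ℝ (pSpace (H.map (UpqK K r n).subtype)) = 4 * m := by
    rw [hrange, LinearMap.finrank_range_of_inj hφ, Module.finrank_pi_fintype]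
    rw [Finset.sum_const, Finset.card_univ, Fintype.card_fin, hK, hm, smul_eq_mul]
    ring
  -- the odd map
  obtain ⟨Γ, hΓ⟩ := had
  set M := oneM (isReductive_upqK K r n).closed with hM
  have hCG : Cartan M ⊤ (pSpace (UpqK K r n)) := cartan_top (isReductive_upqK K r n)
  have hCH : Cartan M H (pSpace (H.map (UpqK K r n).subtype)) := cartan_one _ hH
  obtain ⟨l, F, hl, hFc, hF0, hFodd, hF⟩ := exists_coord M hCG hCH hΓ
  -- the columns
  obtain ⟨j⟩ : Nonempty (Option (Fin m × Bool) ↪ Fin n) := by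
    refine Function.Embedding.nonempty_of_card_le ?_
    rw [Fintype.card_option, Fintype.card_prod, Fintype.card_fin, Fintype.card_fin,
      Fintype.card_bool]
    omega
  let E : Matrix (Option (Fin m × Bool)) (Fin n) K := Matrix.of fun a b => if j a = b then 1 else 0
  have hE : E * Eᴴ = 1 := by
    ext a b
    rw [Matrix.mul_apply, Matrix.one_apply, Finset.sum_eq_single (j a)]
    · show (if j a = j a then (1 : K) else 0) * star (if j b = j a then (1 : K) else 0) = _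
      rw [if_pos rfl, one_mul]
      by_cases hab : a = b
      · rw [if_pos (by rw [hab]), if_pos hab, star_one]
      · rw [if_neg (fun h => hab (j.injective h).symm), if_neg hab, star_zero]
    · intro k _ hk
      show (if j a = k then (1 : K) else 0) * _ = 0
      rw [if_neg (fun h => hk h.symm), zero_mul]
    · intro h
      exact absurd (Finset.mem_univ _) h
  let B : pSpace (UpqK K r n) ≃ₗ[ℝ] (Fin (finrank ℝ (pSpace (UpqK K r n))) → ℝ) :=
    LinearEquiv.ofFinrankEq _ _ (by rw [finrank_fin_fun])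
  have hBc : Continuous B := LinearMap.continuous_of_finiteDimensional B.toLinearMap
  let L₀ : Matrix (Fin 2) (Option (Fin m × Bool)) K →ₗ[ℝ]
      Matrix (Fin ((r + n) + (r + n))) (Fin ((r + n) + (r + n))) ℝ :=
    { toFun := fun Y => pcK K r n (U * (Y * E))
      map_add' := fun Y Y' => by
        rw [← map_add, ← Matrix.mul_add, ← Matrix.add_mul]
      map_smul' := fun c Y => by
        rw [RingHom.id_apply, ← map_smul, ← Matrix.mul_smul, ← Matrix.smul_mul] }
  have hL₀ : ∀ Y, L₀ Y ∈ pSpace (UpqK K r n) := fun Y => mem_pSpace_upqK.2 ⟨_, rfl⟩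
  let L : Matrix (Fin 2) (Option (Fin m × Bool)) K →ₗ[ℝ]
      (Fin (finrank ℝ (pSpace (UpqK K r n))) → ℝ) :=
    B.toLinearMap ∘ₗ L₀.codRestrict _ hL₀
  have hLapp : ∀ Y, L Y = B ⟨L₀ Y, hL₀ Y⟩ := fun Y => rfl
  refine no_odd_map hK (⟨0, hm0⟩ : Fin m) (l := l) (d := finrank ℝ (pSpace (UpqK K r n))) ?_
    (F := fun x => B (F x)) (L := L) (hBc.comp hFc) ?_ ?_ ?_ ?_
  · rw [← hl, hv, Fintype.card_fin]
  · show B (F 0) = 0
    rw [hF0, map_zero]
  · intro x
    show B (F (-x)) = -B (F x)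
    rw [hFodd, map_neg]
  · intro Y hY
    rw [hLapp, LinearEquiv.map_eq_zero_iff] at hY
    have h1 : pcK K r n (U * (Y * E)) = pcK K r n 0 := by
      rw [map_zero]
      exact congrArg Subtype.val hY
    have h2 := pcK_inj h1
    have h3 : Uᴴ * (U * (Y * E)) * Eᴴ = 0 := by
      rw [h2, Matrix.mul_zero, Matrix.zero_mul]
    rw [← Matrix.mul_assoc, hU, Matrix.one_mul, Matrix.mul_assoc, hE, Matrix.mul_one] at h3
    exact h3
  · rintro x hx Y c hc hY h
    rw [hLapp] at h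
    have h1 : (F x : Matrix (Fin ((r + n) + (r + n))) (Fin ((r + n) + (r + n))) ℝ) =
        pcK K r n (U * (Y * E)) :=
      congrArg Subtype.val (B.injective h)
    -- the element of `p`
    let y : Fin N → K := fun i => if (i : ℕ) = 0 then algebraMap ℝ K (Real.sqrt c) else 0
    have hy : y ⬝ᵥ star y = algebraMap ℝ K c := by
      rw [dotProduct, Finset.sum_eq_single (⟨0, hN⟩ : Fin N)]
      · show (if (0 : ℕ) = 0 then algebraMap ℝ K (Real.sqrt c) else 0) *
          star (if (0 : ℕ) = 0 then algebraMap ℝ K (Real.sqrt c) else 0) = _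
        rw [if_pos rfl, star_alg', ← map_mul, Real.mul_self_sqrt hc]
      · intro i _ hi
        have : (i : ℕ) ≠ 0 := fun h => hi (Fin.ext h)
        show (if (i : ℕ) = 0 then algebraMap ℝ K (Real.sqrt c) else 0) * _ = 0
        rw [if_neg this, zero_mul]
      · intro h
        exact absurd (Finset.mem_univ _) h
    set R : Matrix (Fin 2) (Fin n) K := Matrix.of ![A *ᵥ y, A *ᵥ (S *ᵥ star y)] with hR
    have hRR : R * Rᴴ = algebraMap ℝ K c • (1 : Matrix (Fin 2) (Fin 2) K) := by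
      rw [hR, gram_two hA hS hSS, hy]
    have hg : (U * (Y * E)) * (U * (Y * E))ᴴ = (U * R) * (U * R)ᴴ := by
      have e1 : (U * (Y * E)) * (U * (Y * E))ᴴ = U * (Y * (E * Eᴴ) * Yᴴ) * Uᴴ := by
        simp only [conjTranspose_mul, Matrix.mul_assoc]
      have e2 : (U * R) * (U * R)ᴴ = U * (R * Rᴴ) * Uᴴ := by
        simp only [conjTranspose_mul, Matrix.mul_assoc]
      rw [e1, e2, hE, Matrix.mul_one, hY, hRR]
    obtain ⟨W, hW, hW'⟩ := exists_unitary hg
    have hW1 : Wᴴ * Wᴴᴴ = 1 := by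
      rw [conjTranspose_conjTranspose]
      exact mul_eq_one_comm.1 hW
    obtain ⟨k, hk, hk1, hk2⟩ := conj_upqK (K := K) (r := r) (n := n) (U := 1) (W := Wᴴ)
      (by rw [conjTranspose_one, Matrix.one_mul]) hW1
    refine hF x hx ⟨k, hk⟩ hk1 (pcK K r n (U * R)) ((hX _).2 ⟨y, rfl⟩) ?_
    have h5 := hk2 (U * R)
    rw [Matrix.one_mul, conjTranspose_conjTranspose, ← hW'] at h5
    rw [h1]
    exact h5.symm

end Pool.Agent.Helper59.ZP
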