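import Mathlib
import Pool.Agent.Helper59.ZP.ZFinal
import Pool.Agent.Helper13.PR.Poly

/-!
# The polynomial rate under the sign conjecture, in terms of Weil cohomology theories
-/

universe u v w

open CategoryTheory

namespace Pool.Agent.Helper59.ZP

open Pool.Agent.Helper10 Pool.Agent.Helper11 SmProjVar Pool.Agent.Helper59.ZO
  Pool.Agent.Helper34.ZP Pool.Agent.Helper11.Iso

/-- **Polynomial rate** under the sign conjecture. -/
theorem poly_rate (b r : ℕ) : ∃ C α : ℝ, 0 < C ∧ 0 < α ∧
    ∀ (k : Type u) [Field k] (K : Type v) [Field K] [CharZero K]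
      (W : WeilCohomology.{u, v, w} k K) (X : SmProjVar k), betti W.toCohomologyData X ≤ b →
        SignConjecture W.toCohomologyData X → ¬ W.StandardD (X.selfProd r) → ∀ n : ℕ,
          (numCycRank W.toCohomologyData (X.selfProd n) : ℝ) * ((n : ℝ) + 2) ^ α ≤
            C * cycRank W.toCohomologyData (X.selfProd n) := by
  obtain ⟨C, α, hC, hα, h⟩ := Pool.Agent.Helper13.PR.poly_rate.{u, v, w, v} b r
  refine ⟨C, α, hC, hα, ?_⟩
  intro k _ K _ _ W X hX hS hD n
  have h1 := h k K K (base W) (nr_base_pos W) X hX (par_mem hS) (fun h => hD ((d_base W _).mp h)) n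
  rw [nr_base, hr_base] at h1
  exact h1

/-- **One power is enough**, with the polynomial rate, under the sign conjecture. -/
theorem poly_one_power (b r : ℕ) : ∃ C α : ℝ, 0 < C ∧ 0 < α ∧
    ∀ (k : Type u) [Field k] (K : Type v) [Field K] [CharZero K]
      (W : WeilCohomology.{u, v, w} k K) (X : SmProjVar k), betti W.toCohomologyData X ≤ b →
        SignConjecture W.toCohomologyData X → ∀ n : ℕ,
          C * cycRank W.toCohomologyData (X.selfProd n) <
            numCycRank W.toCohomologyData (X.selfProd n) * ((n : ℝ) + 2) ^ α →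
            W.StandardD (X.selfProd r) := by
  obtain ⟨C, α, hC, hα, h⟩ := poly_rate.{u, v, w} b r
  refine ⟨C, α, hC, hα, ?_⟩
  intro k _ K _ _ W X hX hS n hn
  by_contra hD
  exact absurd hn (not_lt.mpr (h k K W X hX hS hD n))

end Pool.Agent.Helper59.ZP
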