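import Mathlib
import Pool.Agent.Helper59.ZP.SysFinal
import Pool.Agent.Helper11.ZO.Assemble

/-!
# Grothendieck's standard conjecture D: a zero-one law and a quantization law

`X` is a smooth projective variety over a field `k`, `H` a Weil cohomology theory with coefficients
in a field `K` of characteristic zero; `X.selfProd n` is `X ^ (n + 1)`. `cycRank Y` is the dimension
of the span of the classes of algebraic cycles in `H(Y)`, `numCycRank Y` the dimension of its
quotient by the classes which are orthogonal to all classes of algebraic cycles.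
-/

universe u v w

open CategoryTheory Filter Topology

namespace Pool.Agent.Helper59.ZP.Cand

open Pool.Agent.Helper10 Pool.Agent.Helper11 SmProjVar Pool.Agent.Helper59.ZO
  Pool.Agent.Helper59.ZP

theorem result {k : Type u} [Field k] {K : Type v} [Field K] [CharZero K]
    (W : WeilCohomology.{u, v, w} k K) (X : SmProjVar k) :
    -- (1) zero-one law: D holds for all powers of `X`, or the proportion of the classes which are
    -- not numerically trivial tends to zero
    ((∀ n, W.StandardD (X.selfProd n)) ∨
      (Tendsto (fun n => (numCycRank W.toCohomologyData (X.selfProd n) : ℝ) /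
        cycRank W.toCohomologyData (X.selfProd n)) atTop (𝓝 0) ∧
      ∃ C : ℝ, 0 < C ∧ ∀ n : ℕ, (numCycRank W.toCohomologyData (X.selfProd n) : ℝ) *
        Real.log (n + 2) ≤ C * cycRank W.toCohomologyData (X.selfProd n))) ∧
    -- (2) quantization law
    (∀ V, IsSystem W.toCohomologyData X V →
      Tendsto (fun n => (numCycRank W.toCohomologyData (X.selfProd n) : ℝ) /
        Module.finrank K (V n)) atTop (𝓝 0) ∨
      ((∀ n, W.StandardD (X.selfProd n)) ∧
        ∃ d : ℕ, 1 ≤ d ∧ (d = 1 ↔ ∀ n, V n = W.algClasses (X.selfProd n)) ∧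
          Tendsto (fun n => (numCycRank W.toCohomologyData (X.selfProd n) : ℝ) /
            Module.finrank K (V n)) atTop (𝓝 (1 / d)))) ∧
    -- (3) half law
    (∀ V, IsPerfectSystem W.toCohomologyData X V →
      (∀ n, W.StandardD (X.selfProd n) ∧ V n = W.algClasses (X.selfProd n)) ∨
      ∀ ε : ℝ, 0 < ε → ∀ᶠ n in atTop, (cycRank W.toCohomologyData (X.selfProd n) : ℝ) ≤
        (1 / 2 + ε) * Module.finrank K (V n)) ∧
    -- (4) Tate classes
    (∀ _ : Finite k,
      IsPerfectSystem W.toCohomologyData X fun n =>
        tateClasses W.toCohomologyData (X.selfProd n)) ∧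
    -- (5) the zero-one law for symmetric powers
    (W.StandardD X ↔ ∃ m ≥ 1, homRank W.toCohomologyData X m <
      ∑ i ∈ Finset.range (m + 1), numRank W.toCohomologyData X i) ∧
    (¬ W.StandardD X → ∀ m l, (l + 1) * numRank W.toCohomologyData X m ≤
      homRank W.toCohomologyData X (m + l)) ∧
    (¬ W.StandardD X → ∀ T, IsEnvelope W.toCohomologyData X T → ∀ m l n, m + l = n + 1 →
      (2 * l + 1) * numRank W.toCohomologyData X m ≤ Module.finrank K (T n)) ∧
    -- (6) all varieties
    ((∀ Y, W.StandardD Y) ↔ ∃ ε : ℝ, 0 < ε ∧ ∀ Y,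
      ε * cycRank W.toCohomologyData Y ≤ numCycRank W.toCohomologyData Y) := by
  refine ⟨?_, fun V hV => quantization hV, fun V hV => half hV,
    fun _ => isPerfectSystem_tate W X, (zero_one_law W X).1, (zero_one_law W X).2.1,
    fun hD T hT m l n h => mul_numRank_le_env hT hD m l n h, all_iff⟩
  by_cases hD : ∀ n, W.StandardD (X.selfProd n)
  · exact .inl hD
  · exact .inr ⟨ratio_tendsto_zero hD, ratio_le hD⟩

end Pool.Agent.Helper59.ZP.Cand
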