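import Mathlib
import Pool.Agent.Helper59.ZP.QRate

/-!
# Grothendieck's standard conjecture D: systems of classes

`H` is a Weil cohomology theory for the smooth projective varieties over a field `k`, with
coefficients in a field `K` of characteristic zero; `X.selfProd n` is `X ^ (n + 1)`. A system
consists of a space `V(Y)` of classes in `H(Y)` for every variety `Y` (or for all powers `Y` of one
variety `X`) which contains the classes of algebraic cycles, such that algebraic correspondences map
the spaces into each other. An example over a finite field are the spaces of Tate classes; other
examples are the spaces of Hodge classes, or of motivated classes. For a variety `Y` let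
`a(Y) = cycRank Y` be the dimension of the span of the classes of algebraic cycles in `H(Y)`, and
`n(Y) = numCycRank Y` the dimension of this space modulo the classes orthogonal to all classes of
algebraic cycles.

(1) Let the Poincaré duality pairings on the spaces `V(Y)` be non-degenerate. If for some `ε > 0` and
all `Y` at least `1 / 2 + ε` of the classes in `V(Y)` are algebraic, then for all `Y` all classes in
`V(Y)` are algebraic, and D holds for all `Y`. For the Tate classes: the 51 percent Tate conjecture
over a finite field implies the Tate conjecture and D.

(2) One power is enough: for all `b` and `r` there is a constant `C` such that, for all fields, all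
Weil cohomology theories, all `X` with `dim H(X) ≤ b`, and all systems on the powers of `X`: if for
one `m` the pairing on `V(X ^ m)` is non-degenerate, and more than `1 / 2 + C / log (m + 1)` of the
classes in `V(X ^ m)` are algebraic, then D holds for `X ^ s`, and all classes in `V(X ^ s)` are
algebraic, for all `s ≤ r + 1`.

(3) The quantization law: for every system on the powers of `X` the proportion
`n(X ^ m) / dim V(X ^ m)` tends to `0`, or D holds for all powers of `X` and it tends to `1 / d`,
where `d` is a positive integer, and `d = 1` if and only if the system consists of algebraic classes.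

(4) Over a finite field the Tate classes are a system with non-degenerate pairings.

(5) For all `b`, `r` and `ε > 0` there is `m₀` such that, for all finite fields, all Weil cohomology
theories and all `X` with `dim H(X) ≤ b`: if `n(X ^ m)` is at least `ε` times the dimension of the
space of Tate classes on `X ^ m`, for one `m > m₀`, then D holds for `X ^ s`, and Frobenius is
semisimple on `H(X ^ s)`, for all `s ≤ r + 1`.
-/

universe u v w

open CategoryTheory Filter Topology

namespace Pool.Agent.Helper59.ZP.CandQ

open Pool.Agent.Helper10 SmProjVar Pool.Agent.Helper59.ZP

theorem result :
    -- (1) all varieties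
    (∀ (k : Type u) [Field k] (K : Type v) [Field K] [CharZero K]
      (W : WeilCohomology.{u, v, w} k K) (V : ∀ Y : SmProjVar k, Submodule K (W.H Y)),
        IsPerfectGlobalSystem W.toCohomologyData V →
          (GloballyAlgebraic W.toCohomologyData V ↔
            ∃ ε : ℝ, 0 < ε ∧ GlobalProportion W.toCohomologyData V (1 / 2 + ε))) ∧
    -- (2) one power is enough
    (∀ b r : ℕ, ∃ C : ℝ, ∀ (k : Type u) [Field k] (K : Type v) [Field K] [CharZero K]
      (W : WeilCohomology.{u, v, w} k K) (X : SmProjVar k), betti W.toCohomologyData X ≤ b →
        ∀ V, IsSystem W.toCohomologyData X V → ∀ m : ℕ,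
          NondegenerateAt W.toCohomologyData X V m →
          MoreThan W.toCohomologyData X V m (1 / 2 + C / Real.log (m + 2)) →
          AlgebraicUpTo W.toCohomologyData X V r) ∧
    -- (3) the quantization law
    (∀ (k : Type u) [Field k] (K : Type v) [Field K] [CharZero K]
      (W : WeilCohomology.{u, v, w} k K) (X : SmProjVar k) (V),
        IsSystem W.toCohomologyData X V →
          Tendsto (density W.toCohomologyData X V) atTop (𝓝 0) ∨
          (StandardDPowers W.toCohomologyData X ∧
            ∃ d : ℕ, 1 ≤ d ∧ (d = 1 ↔ IsAlgebraicSystem W.toCohomologyData X V) ∧
              Tendsto (density W.toCohomologyData X V) atTop (𝓝 (1 / d)))) ∧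
    -- (4) Tate classes over a finite field
    (∀ (k : Type u) [Field k] [Finite k] (K : Type v) [Field K] [CharZero K]
      (W : WeilCohomology.{u, v, w} k K),
        IsPerfectGlobalSystem W.toCohomologyData (tateClasses W.toCohomologyData)) ∧
    -- (5) semisimplicity of Frobenius
    ∀ (b r : ℕ) (ε : ℝ), 0 < ε → ∃ m₀ : ℕ,
      ∀ (k : Type u) [Field k] [Finite k] (K : Type v) [Field K] [CharZero K]
        (W : WeilCohomology.{u, v, w} k K) (X : SmProjVar k), betti W.toCohomologyData X ≤ b →
          ∀ m ≥ m₀, ε ≤ density W.toCohomologyData X (tateSystem W.toCohomologyData X) m →
            ∀ s ≤ r, W.StandardD (X.selfProd s) ∧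
              IsFrobeniusSemisimple W.toCohomologyData (X.selfProd s) := by
  refine ⟨?_, fun b r => half_one_power b r, ?_, ?_, fun b r ε hε => semisimple_one_power b r ε hε⟩
  · intro k _ K _ _ W V hV
    exact global_law hV
  · intro k _ K _ _ W X V hV
    exact quantization_law hV
  · intro k _ _ K _ _ W
    exact (tate_global_law W).1

end Pool.Agent.Helper59.ZP.CandQ
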