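import Mathlib
import Pool.Agent.Helper59.ZP.PolyW
import Pool.Agent.Helper11.ZO.Assemble
import Pool.Agent.Helper11.ZQ.DimForm

/-!
# A zero-one law for the standard conjecture D

Let `W` be a Weil cohomology theory `H` over a field `k`, with coefficients in a field `K` of
characteristic zero. For a variety `Y` over `k` let `a(Y) = cycRank Y` be the dimension of the
`K`-span of the classes of algebraic cycles in `H(Y)`, and `n(Y) = numCycRank Y` the dimension of
this space modulo numerical equivalence, i.e. modulo the classes orthogonal to all classes of
algebraic cycles. So `n(Y) ≤ a(Y)`, with equality if and only if D holds for `Y`.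

For a variety `X` let `b = dim H(X)`. `X.selfProd n` is the power `X ^ (n + 1)`.

(1) D holds for all varieties over `k` if and only if `n(Y) ≥ e(dim Y) a(Y)` for all varieties `Y`
over `k`, where `e` is a function such that `e(N) log N` tends to infinity with `N`; for instance `e`
may be any constant `ε > 0`, so the conjecture is equivalent to its one percent version.

(2) One power is enough: for all `b` and `r` there are constants `C` and `α > 0` such that, for all
fields, all Weil cohomology theories and all `X` with `dim H(X) ≤ b`, the inequality
`n(X ^ m) log (m + 1) > C a(X ^ m)` for one `m ≥ 1` implies D for `X ^ (r + 1)`; if the sign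
conjecture holds for `X`, the inequality `n(X ^ m) (m + 1) ^ α > C a(X ^ m)` for one `m ≥ 1` is
enough. So if D fails for `X ^ (r + 1)`, then `n(X ^ m) / a(X ^ m) ≤ C / log (m + 1)` for all `m`,
and `n(X ^ m) / a(X ^ m) ≤ C / (m + 1) ^ α` under the sign conjecture.

(3) Trichotomy, for every `X`: D holds for all powers of `X`; or D fails for a power of `X`, all
numerically trivial self-correspondences of the powers of `X` are nilpotent, and
`c log (m + 1) ≤ a(X ^ m) / n(X ^ m) ≤ b (m + 1) ^ (b ^ 2)` for all `m`; or one numerically trivial
self-correspondence of a power of `X` is not nilpotent, and `a(X ^ m) / n(X ^ m)` is at least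
`c θ ^ m`, where `θ > 1`. The sign conjecture for `X` excludes the third case.

(4) Symmetric powers. Let `homRank X m` and `numRank X m` be the dimensions as above for the classes
of algebraic cycles on the symmetric power `Sym ^ m X`, i.e. for the classes of algebraic cycles in
`H(X ^ m)` which are invariant under the permutations of the factors. D holds for `X` if and only if
`homRank X m < numRank X 0 + ⋯ + numRank X m` for some `m ≥ 1`. If D fails for `X`, then
`(l + 1) numRank X m ≤ homRank X (m + l)` for all `m` and `l`.

On the proof. The numerical correspondences `A / N` form semisimple algebras, since nilpotent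
correspondences have trace zero. So `dim (p C q) ^ 2 ≤ dim (p C p) dim (q C q)` for idempotents. With
tensor powers this inequality gives `dim C(Z, Y × Y) e ≤ rank(e) n(Y × Y)` for algebraic projectors
`e` on `Z`, without any assumption. The permutations of the factors give `a(X ^ (2 l)) ≥
b ^ (2 l) / (l + 1) ^ (b ^ 2)`. So if `n / a` is not small, `n` grows like `b ^ m` from `m` to
`m + s`, for the `s` up to a multiple of `log m`. A non-nilpotent numerically trivial correspondence
contradicts this growth. If all are nilpotent, a numerically trivial class `z ≠ 0` on a power of `X`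
gives the decreasing spaces of the classes on `X ^ m` which are images of `z × ⋯ × z` (`k` times)
under correspondences; each layer has dimension about `n(X ^ m)`, so `a(X ^ m)` is at least about
`log m` times `n(X ^ m)`. Under the sign conjecture the symmetric and alternating powers of the even
part of a power of `X` are available, and the Koszul identity between them shows that one may take
`k` up to a power of `m` here. For (4), insertion of `z` in a symmetric class in all places and
contraction with `x`, where `tr (z x) = 1`, satisfy the relation of Heisenberg, so insertion of `z`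
is injective. It maps the classes of cycles on `Sym ^ m X` to numerically trivial classes of cycles
on `Sym ^ (m + 1) X`.
-/

universe u v w

open CategoryTheory Filter Topology

open Pool.Agent.Helper10 Pool.Agent.Helper11 Pool.Agent.Helper11.ZQ SmProjVar
  Pool.Agent.Helper59.ZO Pool.Agent.Helper59.ZP

theorem Pool.Agent.Helper59.ZP.CandZ3.result :
    -- (1) D for all varieties over `k`
    (∀ (k : Type u) [Field k] (K : Type v) [Field K] [CharZero K]
      (W : WeilCohomology.{u, v, w} k K),
        (∀ Y, W.StandardD Y) ↔ ∃ e : ℕ → ℝ, SlowerThanLog e ∧ ∀ Y,
          e Y.dim * cycRank W.toCohomologyData Y ≤ numCycRank W.toCohomologyData Y) ∧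
    -- (2) one power is enough
    (∀ b r : ℕ, ∃ C α : ℝ, 0 < C ∧ 0 < α ∧
      ∀ (k : Type u) [Field k] (K : Type v) [Field K] [CharZero K]
      (W : WeilCohomology.{u, v, w} k K) (X : SmProjVar k), betti W.toCohomologyData X ≤ b →
        ∀ n : ℕ, (C * cycRank W.toCohomologyData (X.selfProd n) <
            numCycRank W.toCohomologyData (X.selfProd n) * Real.log (n + 2) ∨
          SignConjecture W.toCohomologyData X ∧
            C * cycRank W.toCohomologyData (X.selfProd n) <
              numCycRank W.toCohomologyData (X.selfProd n) * ((n : ℝ) + 2) ^ α) →
          W.StandardD (X.selfProd r)) ∧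
    ∀ (k : Type u) [Field k] (K : Type v) [Field K] [CharZero K]
      (W : WeilCohomology.{u, v, w} k K) (X : SmProjVar k),
      -- (3) the trichotomy
      (CaseD W.toCohomologyData X ∨ CaseNil W.toCohomologyData X ∨ CaseExp W.toCohomologyData X) ∧
      (SignConjecture W.toCohomologyData X → NullNilpotent W.toCohomologyData X) ∧
      -- (4) symmetric powers
      (W.StandardD X ↔ ∃ m ≥ 1, homRank W.toCohomologyData X m <
        ∑ i ∈ Finset.range (m + 1), numRank W.toCohomologyData X i) ∧
      (¬ W.StandardD X → ∀ m l, (l + 1) * numRank W.toCohomologyData X m ≤
        homRank W.toCohomologyData X (m + l)) := by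
  refine ⟨fun k _ K _ _ W => all_iff_dim, fun b r => ?_, ?_⟩
  · obtain ⟨C, hC, h⟩ := uniform_rate.{u, v, w} b r
    obtain ⟨C', α, -, hα, h'⟩ := poly_one_power.{u, v, w} b r
    refine ⟨max C C', α, lt_max_of_lt_left hC, hα, fun k _ K _ _ W X hX n hn => ?_⟩
    have h0 : (0 : ℝ) ≤ cycRank W.toCohomologyData (X.selfProd n) := Nat.cast_nonneg _
    rcases hn with hn | ⟨hS, hn⟩
    · exact by_contra fun hD => absurd (h k K W X hX hD n) (not_le.mpr
        ((mul_le_mul_of_nonneg_right (le_max_left _ _) h0).trans_lt hn))
    · exact h' k K W X hX hS n ((mul_le_mul_of_nonneg_right (le_max_right _ _) h0).trans_lt hn)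
  · intro k _ K _ _ W X
    exact ⟨trichotomy W X, nullNilpotent_of_sign, (zero_one_law W X).1, (zero_one_law W X).2.1⟩
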