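import Pool.Agent.Helper59.ZP.Rel

set_option autoImplicit false
set_option linter.unusedSectionVars false

/-!
# The sum depends only on the characters
-/

namespace Pool.Agent.Helper59.ZP

open Finset Pool.Agent.Helper29.ZBU Pool.Agent.Helper43.ZT

variable {κ ι : Type} [Fintype κ] [DecidableEq κ] {d N : ℕ}

/-- On every small part of the boundary of the block `i₀` one of the functions is constant. -/
def Cst (i₀ : ι) (β : κ → ι) (N : ℕ) {D : ℕ} (S : Fin D → (κ → ℤ) → ZMod 2) : Prop :=
  ∀ v : ℕ → κ → ℤ, (∀ l k, |v l k| ≤ 2 * (N : ℤ)) → (∀ l l' k, |v l k - v l' k| ≤ 1) →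
    (∀ l, Bd β N i₀ (v l)) → ∃ j, ∀ l l', S j (v l) = S j (v l')

theorem EqvR.add {i₀ : ι} {β : κ → ι} {A : ι → κ → Bool} {χ χ' : ι → ZMod 2}
    {s s' : (κ → ℤ) → ZMod 2} (h : EqvR i₀ β A N χ s) (h' : EqvR i₀ β A N χ' s') :
    EqvR i₀ β A N (χ + χ') (s + s') := by
  intro i hi x hx
  rw [Pi.add_apply, Pi.add_apply, Pi.add_apply, h i hi x hx, h' i hi x hx]
  ring

theorem Gz_prod {D : ℕ} (hDd : D ≤ d) {β : κ → ι} (i₀ : ι) {s : Fin d → (κ → ℤ) → ZMod 2}
    (j₀ : Fin d) (hj₀ : D ≤ (j₀ : ℕ))
    (hC : Cst i₀ β N (fun j : Fin D => s (Fin.castLE hDd j))) (τ : Flag κ d)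
    (hτ : τ ∈ flags κ d N) (hb : ∀ j, j < d → Bd β N i₀ (vtx τ j)) :
    ∏ j, Gz s j₀ j (vtx τ) = 0 := by
  have hd : 0 < d := lt_of_le_of_lt (Nat.zero_le _) j₀.2
  obtain ⟨j, hj⟩ := hC (fun l => vtx τ (min l (d - 1))) (fun l k => vtx_abs hτ _ k)
    (fun l l' k => vtx_sub τ _ _ k) (fun l => hb _ (by omega))
  refine Finset.prod_eq_zero (mem_univ (Fin.castLE hDd j)) ?_
  have hjD : ((Fin.castLE hDd j : Fin d) : ℕ) = (j : ℕ) := rfl
  have hj1 : (j : ℕ) < j₀ := lt_of_lt_of_le j.2 hj₀
  have hj2 := j₀.2
  unfold Gz
  rw [hjD, if_neg (Nat.not_lt_zero _), if_pos hj1]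
  have h1 := hj (j : ℕ) ((j : ℕ) + 1)
  have e1 : min (j : ℕ) (d - 1) = j := by omega
  have e2 : min ((j : ℕ) + 1) (d - 1) = (j : ℕ) + 1 := by omega
  simp only [e1, e2] at h1
  rw [h1]
  exact CharTwo.add_self_eq_zero _

/-- The sum depends only on the characters of the functions of the last positions. -/
theorem T_congrR {D : ℕ} (hDd : D ≤ d) {β : κ → ι} {A : ι → κ → Bool}
    (hA : ∀ k, A (β k) k = true) (i₀ : ι) {χ : Fin d → ι → ZMod 2}
    {s s' : Fin d → (κ → ℤ) → ZMod 2} (hs : ∀ j, EqvR i₀ β A N (χ j) (s j))
    (hs' : ∀ j, EqvR i₀ β A N (χ j) (s' j))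
    (hC : Cst i₀ β N (fun j : Fin D => s (Fin.castLE hDd j)))
    (hss : ∀ j : Fin d, (j : ℕ) < D → s j = s' j) : T N s = T N s' := by
  classical
  have key : ∀ J : Finset (Fin d), T N s = T N (fun j => if j ∈ J then s' j else s j) := by
    intro J
    induction J using Finset.induction_on with
    | empty => simp
    | insert a J ha ih =>
      rw [ih]
      have h1 : (fun j => if j ∈ insert a J then s' j else s j) =
          Function.update (fun j => if j ∈ J then s' j else s j) a
            ((fun j => if j ∈ J then s' j else s j) a + (s a + s' a)) := by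
        funext j
        by_cases hj : j = a
        · subst hj
          rw [Function.update_self]
          show (if j ∈ insert j J then s' j else s j) = (if j ∈ J then s' j else s j) + (s j + s' j)
          rw [if_pos (Finset.mem_insert_self _ _), if_neg ha, ← add_assoc]
          funext x
          show s' j x = s j x + s j x + s' j x
          rw [CharTwo.add_self_eq_zero, zero_add]
        · rw [Function.update_of_ne hj]
          show (if j ∈ insert a J then s' j else s j) = if j ∈ J then s' j else s j
          by_cases hjJ : j ∈ J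
          · rw [if_pos (Finset.mem_insert_of_mem hjJ), if_pos hjJ]
          · rw [if_neg (by simp [hj, hjJ]), if_neg hjJ]
      rw [h1, T_update_add]
      have h2 : T N (Function.update (fun j => if j ∈ J then s' j else s j) a (s a + s' a)) = 0 := by
        by_cases haD : (a : ℕ) < D
        · refine Finset.sum_eq_zero fun τ _ => Finset.prod_eq_zero (mem_univ a) ?_
          rw [Function.update_self, hss a haD, Pi.add_apply]
          exact CharTwo.add_self_eq_zero _
        refine T_zeroR (β := β) (χ := χ) hA i₀ a ?_ ?_ ?_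
        · intro j hj
          rw [Function.update_of_ne hj]
          show EqvR i₀ β A N (χ j) (if j ∈ J then s' j else s j)
          by_cases hjJ : j ∈ J
          · rw [if_pos hjJ]
            exact hs' j
          · rw [if_neg hjJ]
            exact hs j
        · rw [Function.update_self]
          have h3 := (hs a).add (hs' a)
          have h4 : χ a + χ a = 0 := by
            funext i
            exact CharTwo.add_self_eq_zero _
          rwa [h4] at h3
        · refine Gz_prod hDd i₀ a (not_lt.1 haD) ?_
          have h5 : (fun j : Fin D => Function.update (fun j => if j ∈ J then s' j else s j) a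
              (s a + s' a) (Fin.castLE hDd j)) = fun j : Fin D => s (Fin.castLE hDd j) := by
            funext j
            have h6 : Fin.castLE hDd j ≠ a := by
              intro h
              rw [← h] at haD
              exact haD j.2
            rw [Function.update_of_ne h6]
            show (if Fin.castLE hDd j ∈ J then s' (Fin.castLE hDd j) else s (Fin.castLE hDd j)) = _
            rw [← hss _ (show ((Fin.castLE hDd j : Fin d) : ℕ) < D from j.2), ite_self]
          rw [h5]
          exact hC
      rw [h2, add_zero]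
  have := key univ
  simpa using this

end Pool.Agent.Helper59.ZP
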