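import Pool.Agent.Helper59.ZP.Val
import Pool.Agent.Helper59.ZD.Deg
import Pool.Agent.Helper29.ZBU.Spheres
import Pool.Agent.Helper43.ZT.Rho

set_option autoImplicit false
set_option linter.unusedSectionVars false

/-!
# Families of maps over a projective space

There is no continuous family `Ψ b` of maps of `ℝ ^ (n + 1)` to itself, for `b` in the ball of
dimension `p`, with the origin as the only zero, such that `Ψ 0` is odd and
`Ψ (-b) (fl x) = Ψ b x` on the boundary of the ball, where `fl` changes the signs of `f`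
coordinates, if the binomial coefficient of `p + f - 1` and `p` is odd.
-/

namespace Pool.Agent.Helper59.ZP

open Finset Pool.Agent.Helper29.ZBU Pool.Agent.Helper43.ZT
open Pool.Agent.Helper59.ZD (sgm norm_pt_le norm_pt_eq TZ TZ_mod IsDeg exists_deg)

section small

variable {κ ι : Type} [Fintype κ] [DecidableEq κ] [Fintype ι]

/-- The sign of the function `g` on the grid. -/
noncomputable def sq (g : (κ → ℝ) → ι → ℝ) (N : ℕ) (t : (κ → ℤ) → ZMod 2) (j : ι)
    (x : κ → ℤ) : ZMod 2 :=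
  open Classical in
  if ‖pt N x‖ ≤ 1 then (if g (pt N x) j < 0 then 1 else if 0 < g (pt N x) j then 0 else t x)
    else t x

/-- If the function has no zero in a compact set, then one of the signs is constant on every
small part of the set. -/
theorem const_small (g : (κ → ℝ) → ι → ℝ) {A : Set (κ → ℝ)} (hA : IsCompact A)
    (hA1 : ∀ z ∈ A, ‖z‖ ≤ 1) (hg : ContinuousOn g A) (h0 : ∀ z ∈ A, g z ≠ 0) :
    ∃ M₀ : ℕ, 0 < M₀ ∧ ∀ M, M₀ ≤ M → ∀ v : ℕ → κ → ℤ, (∀ l l' k, |v l k - v l' k| ≤ 1) →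
      (∀ l, pt M (v l) ∈ A) → ∃ j, ∃ c : ZMod 2, ∀ (t : (κ → ℤ) → ZMod 2) (l : ℕ),
        sq g M t j (v l) = c := by
  classical
  rcases A.eq_empty_or_nonempty with hAe | hne
  · refine ⟨1, one_pos, fun M _ v _ h => ?_⟩
    have := h 0
    rw [hAe] at this
    exact absurd this (Set.notMem_empty _)
  obtain ⟨x₀, hx₀, hmin⟩ := hA.exists_isMinOn hne hg.norm
  have hδ : 0 < ‖g x₀‖ := norm_pos_iff.mpr (h0 x₀ hx₀)
  have hδ' : ∀ x ∈ A, ‖g x₀‖ ≤ ‖g x‖ := fun x hx => hmin hx
  have huc := hA.uniformContinuousOn_of_continuous hg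
  rw [Metric.uniformContinuousOn_iff] at huc
  obtain ⟨δ, hδ0, hδ1⟩ := huc (‖g x₀‖ / 2) (by positivity)
  obtain ⟨n, hn⟩ := exists_nat_gt (1 / δ)
  refine ⟨n + 1, Nat.succ_pos n, fun M hM v hv hmem => ?_⟩
  have hM0 : 0 < M := lt_of_lt_of_le (Nat.succ_pos n) hM
  have hM' : (0 : ℝ) < M := by exact_mod_cast hM0
  have hMδ : 1 / (M : ℝ) < δ := by
    have h1 : 1 / δ < M := by
      refine hn.trans_le ?_
      have : ((n + 1 : ℕ) : ℝ) ≤ M := by exact_mod_cast hM
      push_cast at this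
      linarith
    rw [div_lt_iff₀ hδ0] at h1
    rw [div_lt_iff₀ hM']
    linarith
  have hle : ∀ l, ‖pt M (v l)‖ ≤ 1 := fun l => hA1 _ (hmem l)
  have hdist : ∀ l l', dist (g (pt M (v l))) (g (pt M (v l'))) < ‖g x₀‖ / 2 := by
    intro l l'
    refine hδ1 _ (hmem l) _ (hmem l') ?_
    refine lt_of_le_of_lt ?_ hMδ
    rw [dist_pi_le_iff (by positivity)]
    intro k
    rw [Real.dist_eq]
    unfold pt
    rw [← sub_div, abs_div, abs_of_pos (show (0 : ℝ) < 2 * M by positivity)]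
    have h1 := hv l l' k
    have h2 : ((|v l k - v l' k| : ℤ) : ℝ) ≤ 1 := by exact_mod_cast h1
    push_cast at h2
    refine (div_le_div_of_nonneg_right h2 (by positivity)).trans ?_
    exact one_div_le_one_div_of_le hM' (by linarith)
  -- a coordinate which is not small
  obtain ⟨j, hj⟩ : ∃ j, ‖g x₀‖ ≤ |g (pt M (v 0)) j| := by
    by_contra hc
    push Not at hc
    have h7 : ‖g (pt M (v 0))‖ < ‖g x₀‖ := by
      rw [pi_norm_lt_iff hδ]
      exact hc
    exact absurd (hδ' _ (hmem 0)) (not_le.mpr h7)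
  have h6 : ∀ l, |g (pt M (v l)) j - g (pt M (v 0)) j| < ‖g x₀‖ / 2 := by
    intro l
    have := (dist_le_pi_dist (g (pt M (v l))) (g (pt M (v 0))) j).trans_lt (hdist l 0)
    rwa [Real.dist_eq] at this
  refine ⟨j, if g (pt M (v 0)) j < 0 then 1 else 0, fun t l => ?_⟩
  have h8 := abs_lt.1 (h6 l)
  unfold sq
  rw [if_pos (hle l)]
  by_cases h9 : g (pt M (v 0)) j < 0
  · rw [abs_of_neg h9] at hj
    rw [if_pos h9, if_pos (by linarith [h8.2])]
  · push Not at h9
    rw [abs_of_nonneg h9] at hj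
    rw [if_neg (not_lt.2 h9), if_neg (by linarith [h8.1]), if_pos (by linarith [h8.1])]

end small

section ties

variable {κ : Type} [Fintype κ] [DecidableEq κ] {N : ℕ}

theorem eqvR_Ea (hN : 0 < N) (β : κ → Fin 3) (φ : κ → Bool) :
    EqvR 2 β (Af β φ) N (Pi.single 0 1) (rho β N 0) := by
  intro i hi x hx
  have hi' : i = 0 ∨ i = 1 := by
    fin_cases i
    · exact Or.inl rfl
    · exact Or.inr rfl
    · exact absurd rfl hi
  rcases hi' with rfl | rfl
  · rw [rho_negA_true β _ hN hx, Pi.single_eq_same]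
    intro k hk
    simp [Af, hk]
  · rw [rho_negA_false]
    · simp
    · intro k hk
      simp [Af, hk]

/-- The sign of a chosen coordinate with the property `P`, corrected. -/
noncomputable def Et' (φ : κ → Bool) (P : κ → Prop) (r : ZMod 2) (x : κ → ℤ) : ZMod 2 :=
  open Classical in if h : ∃ k, P k then
    (if x h.choose < 0 then 1 else 0) + (if φ h.choose = true then r else 0) else 0

/-- The sign of a boundary coordinate of the fibre, corrected. -/
noncomputable def Et (β : κ → Fin 3) (φ : κ → Bool) (N : ℕ) (x : κ → ℤ) : ZMod 2 :=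
  Et' φ (fun k => β k = 1 ∧ |x k| = 2 * (N : ℤ)) (rho β N 0 x) x

theorem eqvR_Et (hN : 0 < N) (β : κ → Fin 3) (φ : κ → Bool) :
    EqvR 2 β (Af β φ) N (Pi.single 1 1) (Et β φ N) := by
  classical
  intro i hi x hx
  have hi' : i = 0 ∨ i = 1 := by
    fin_cases i
    · exact Or.inl rfl
    · exact Or.inr rfl
    · exact absurd rfl hi
  have hN' : (0 : ℤ) < N := by exact_mod_cast hN
  unfold Et
  rw [predA]
  unfold Et'
  by_cases h' : ∃ k, β k = 1 ∧ |x k| = 2 * (N : ℤ)
  · rw [dif_pos h', dif_pos h']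
    obtain ⟨h1, h2⟩ := h'.choose_spec
    have h5 : x h'.choose ≠ 0 := by
      intro h0
      rw [h0, abs_zero] at h2
      omega
    have hsgn : (if -x h'.choose < 0 then (1 : ZMod 2) else 0) =
        (if x h'.choose < 0 then 1 else 0) + 1 := by
      by_cases h4 : x h'.choose < 0
      · rw [if_neg (by omega), if_pos h4]
        decide
      · rw [if_neg h4, if_pos (by omega)]
        decide
    rcases hi' with rfl | rfl
    · by_cases h6 : φ h'.choose = true
      · have h3 : negA (Af β φ) 0 x h'.choose = - x h'.choose := by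
          unfold negA
          rw [if_pos (by simp [Af, h6])]
        rw [h3, hsgn, if_pos h6, if_pos h6, rho_negA_true β _ hN hx]
        · have : ∀ a b : ZMod 2, a + 1 + (b + 1) = a + b := by decide
          rw [this]
          simp
        · intro k hk
          simp [Af, hk]
      · have h3 : negA (Af β φ) 0 x h'.choose = x h'.choose := by
          unfold negA
          rw [if_neg (by simp [Af, h6, h1])]
        rw [h3, if_neg h6, if_neg h6]
        simp
    · have h3 : negA (Af β φ) 1 x h'.choose = - x h'.choose := by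
        unfold negA
        rw [if_pos (by simp [Af, h1])]
      have h7 : rho β N 0 (negA (Af β φ) 1 x) = rho β N 0 x := by
        refine rho_negA_false β _ x fun k hk => ?_
        simp [Af, hk]
      rw [h3, hsgn, h7, Pi.single_eq_same]
      ring
  · rcases hi' with rfl | rfl
    · rw [dif_neg h', dif_neg h']
      simp
    · exact absurd hx h'

end ties

/-- The changes of the signs of the coordinates `k` with `c k`. -/
def fl {κ R : Type} [Neg R] (c : κ → Bool) (x : κ → R) : κ → R := fun k =>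
  if c k = true then -x k else x k

theorem norm_fl {κ : Type} [Fintype κ] (c : κ → Bool) (x : κ → ℝ) : ‖fl c x‖ = ‖x‖ := by
  have h1 : ∀ k, ‖fl c x k‖ = ‖x k‖ := by
    intro k
    unfold fl
    split_ifs
    · rw [norm_neg]
    · rfl
  refine le_antisymm ?_ ?_
  · rw [pi_norm_le_iff_of_nonneg (norm_nonneg _)]
    intro k
    rw [h1]
    exact norm_le_pi_norm x k
  · rw [pi_norm_le_iff_of_nonneg (norm_nonneg _)]
    intro k
    rw [← h1]
    exact norm_le_pi_norm _ k

/-- The coordinates of the cube. -/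
abbrev Kp (p n : ℕ) : Type := Fin p ⊕ (Fin (n + 1) ⊕ Fin n)

/-- The blocks. -/
def bt (p n : ℕ) : Kp p n → Fin 3 := Sum.elim (fun _ => 0) (Sum.elim (fun _ => 2) fun _ => 1)

/-- The flipped coordinates of the fibre. -/
def cc {n : ℕ} (c : Fin n → Bool) : Fin (n + 1) → Bool := Fin.cons false c

/-- The flipped coordinates. -/
def ph (p : ℕ) {n : ℕ} (c : Fin n → Bool) : Kp p n → Bool :=
  Sum.elim (fun _ => false) (Sum.elim (cc c) c)

variable {p n : ℕ}

/-- The coordinates of the base. -/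
def zb (z : Kp p n → ℝ) : Fin p → ℝ := fun k => z (Sum.inl k)

/-- The coordinates of the vector. -/
def za (z : Kp p n → ℝ) : Fin (n + 1) → ℝ := fun k => z (Sum.inr (Sum.inl k))

/-- The coordinates of the sphere. -/
def zs (z : Kp p n → ℝ) : Fin n → ℝ := fun k => z (Sum.inr (Sum.inr k))

theorem up_fl (c : Fin n → Bool) (y : Fin n → ℝ) : up (fl c y) = fl (cc c) (up y) := by
  funext l
  refine Fin.cases ?_ (fun l => ?_) l
  · show 1 - ‖fl c y‖ = if cc c 0 = true then - (1 - ‖y‖) else 1 - ‖y‖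
    rw [norm_fl]
    simp [cc]
  · show fl c y l = if cc c l.succ = true then -(up y l.succ) else up y l.succ
    simp [cc, fl, up]

theorem norm_up_le {a : ℕ} (y : Fin a → ℝ) (h : ‖y‖ ≤ 1) : ‖up y‖ ≤ 1 := by
  rw [pi_norm_le_iff_of_nonneg zero_le_one]
  intro l
  refine Fin.cases ?_ (fun l => ?_) l
  · show ‖1 - ‖y‖‖ ≤ 1
    rw [Real.norm_eq_abs, abs_le]
    constructor
    · linarith
    · linarith [norm_nonneg y]
  · show ‖y l‖ ≤ 1
    exact (norm_le_pi_norm y l).trans h

theorem zb_le {z : Kp p n → ℝ} (h : ‖z‖ ≤ 1) : ‖zb z‖ ≤ 1 := by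
  rw [pi_norm_le_iff_of_nonneg zero_le_one]
  exact fun k => (norm_le_pi_norm z _).trans h

theorem za_le {z : Kp p n → ℝ} (h : ‖z‖ ≤ 1) : ‖za z‖ ≤ 1 := by
  rw [pi_norm_le_iff_of_nonneg zero_le_one]
  exact fun k => (norm_le_pi_norm z _).trans h

theorem zs_le {z : Kp p n → ℝ} (h : ‖z‖ ≤ 1) : ‖zs z‖ ≤ 1 := by
  rw [pi_norm_le_iff_of_nonneg zero_le_one]
  exact fun k => (norm_le_pi_norm z _).trans h

theorem zb_eq {N : ℕ} (hN : 0 < N) {x : Kp p n → ℤ} (h : ‖pt N x‖ ≤ 1) (hx : Bd (bt p n) N 0 x) :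
    ‖zb (pt N x)‖ = 1 := by
  refine le_antisymm (zb_le h) ?_
  obtain ⟨k, h1, h2⟩ := pt_Bd hN hx
  rcases k with k | k | k
  · rw [← h2, ← Real.norm_eq_abs]
    exact norm_le_pi_norm (zb (pt N x)) k
  · exact absurd h1 (by simp [bt])
  · exact absurd h1 (by simp [bt])

theorem za_eq {N : ℕ} (hN : 0 < N) {x : Kp p n → ℤ} (h : ‖pt N x‖ ≤ 1) (hx : Bd (bt p n) N 2 x) :
    ‖za (pt N x)‖ = 1 := by
  refine le_antisymm (za_le h) ?_
  obtain ⟨k, h1, h2⟩ := pt_Bd hN hx
  rcases k with k | k | k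
  · exact absurd h1 (by simp [bt])
  · rw [← h2, ← Real.norm_eq_abs]
    exact norm_le_pi_norm (za (pt N x)) k
  · exact absurd h1 (by simp [bt])

theorem zs_eq {N : ℕ} (hN : 0 < N) {x : Kp p n → ℤ} (h : ‖pt N x‖ ≤ 1) (hx : Bd (bt p n) N 1 x) :
    ‖zs (pt N x)‖ = 1 := by
  refine le_antisymm (zs_le h) ?_
  obtain ⟨k, h1, h2⟩ := pt_Bd hN hx
  rcases k with k | k | k
  · exact absurd h1 (by simp [bt])
  · exact absurd h1 (by simp [bt])
  · rw [← h2, ← Real.norm_eq_abs]
    exact norm_le_pi_norm (zs (pt N x)) k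

theorem pt_negA (A : Fin 3 → Kp p n → Bool) (i : Fin 3) (N : ℕ) (x : Kp p n → ℤ) :
    pt N (negA A i x) = fl (A i) (pt N x) := by
  funext k
  show ((if A i k = true then -x k else x k : ℤ) : ℝ) / (2 * N) =
    if A i k = true then -((x k : ℝ) / (2 * N)) else (x k : ℝ) / (2 * N)
  split_ifs
  · push_cast
    ring
  · rfl

theorem zb_fl0 (c : Fin n → Bool) (z : Kp p n → ℝ) :
    zb (fl (Af (bt p n) (ph p c) 0) z) = -zb z := by
  funext k
  show (if Af (bt p n) (ph p c) 0 (Sum.inl k) = true then -z (Sum.inl k) else z (Sum.inl k)) =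
    -z (Sum.inl k)
  rw [if_pos (by simp [Af, bt])]

theorem za_fl0 (c : Fin n → Bool) (z : Kp p n → ℝ) :
    za (fl (Af (bt p n) (ph p c) 0) z) = fl (cc c) (za z) := by
  funext k
  show (if Af (bt p n) (ph p c) 0 (Sum.inr (Sum.inl k)) = true then _ else _) =
    if cc c k = true then _ else _
  have h1 : Af (bt p n) (ph p c) 0 (Sum.inr (Sum.inl k)) = cc c k := by
    simp [Af, bt, ph]
  rw [h1]
  rfl

theorem zs_fl0 (c : Fin n → Bool) (z : Kp p n → ℝ) :
    zs (fl (Af (bt p n) (ph p c) 0) z) = fl c (zs z) := by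
  funext k
  show (if Af (bt p n) (ph p c) 0 (Sum.inr (Sum.inr k)) = true then _ else _) =
    if c k = true then _ else _
  have h1 : Af (bt p n) (ph p c) 0 (Sum.inr (Sum.inr k)) = c k := by
    simp [Af, bt, ph]
  rw [h1]
  rfl

theorem zb_fl1 (c : Fin n → Bool) (z : Kp p n → ℝ) :
    zb (fl (Af (bt p n) (ph p c) 1) z) = zb z := by
  funext k
  show (if Af (bt p n) (ph p c) 1 (Sum.inl k) = true then -z (Sum.inl k) else z (Sum.inl k)) =
    z (Sum.inl k)
  rw [if_neg (by simp [Af, bt])]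

theorem za_fl1 (c : Fin n → Bool) (z : Kp p n → ℝ) :
    za (fl (Af (bt p n) (ph p c) 1) z) = za z := by
  funext k
  show (if Af (bt p n) (ph p c) 1 (Sum.inr (Sum.inl k)) = true then -z (Sum.inr (Sum.inl k))
    else z (Sum.inr (Sum.inl k))) = z (Sum.inr (Sum.inl k))
  rw [if_neg (by simp [Af, bt])]

theorem zs_fl1 (c : Fin n → Bool) (z : Kp p n → ℝ) :
    zs (fl (Af (bt p n) (ph p c) 1) z) = -zs z := by
  funext k
  show (if Af (bt p n) (ph p c) 1 (Sum.inr (Sum.inr k)) = true then -z (Sum.inr (Sum.inr k))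
    else z (Sum.inr (Sum.inr k))) = -z (Sum.inr (Sum.inr k))
  rw [if_pos (by simp [Af, bt])]

theorem fl_add (c : Fin (n + 1) → Bool) (x y : Fin (n + 1) → ℝ) :
    fl c x + fl c y = fl c (x + y) := by
  funext k
  show (if c k = true then -x k else x k) + (if c k = true then -y k else y k) =
    if c k = true then -(x k + y k) else x k + y k
  split_ifs
  · ring
  · rfl

theorem fl_smul (c : Fin (n + 1) → Bool) (ε : ℝ) (x : Fin (n + 1) → ℝ) :
    ε • fl c x = fl c (ε • x) := by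
  funext k
  show ε * (if c k = true then -x k else x k) = if c k = true then -(ε * x k) else ε * x k
  split_ifs
  · ring
  · rfl

/-- The symmetric part. -/
noncomputable def gS (Ψ : (Fin p → ℝ) → (Fin (n + 1) → ℝ) → Fin (n + 1) → ℝ) (ε : ℝ)
    (z : Kp p n → ℝ) : Fin (n + 1) → ℝ :=
  Ψ (zb z) (za z + ε • up (zs z)) + Ψ (zb z) (za z + (-ε) • up (zs z))

/-- The antisymmetric part. -/
noncomputable def gA (Ψ : (Fin p → ℝ) → (Fin (n + 1) → ℝ) → Fin (n + 1) → ℝ) (ε : ℝ)
    (z : Kp p n → ℝ) : Fin (n + 1) → ℝ :=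
  Ψ (zb z) (za z + ε • up (zs z)) - Ψ (zb z) (za z + (-ε) • up (zs z))

section sym

variable {Ψ : (Fin p → ℝ) → (Fin (n + 1) → ℝ) → Fin (n + 1) → ℝ} {c : Fin n → Bool}
  (hb : ∀ b, ‖b‖ = 1 → ∀ x, Ψ (-b) (fl (cc c) x) = Ψ b x)

include hb

theorem psi_fl0 {ε : ℝ} {z : Kp p n → ℝ} (hz : ‖zb z‖ = 1) :
    Ψ (zb (fl (Af (bt p n) (ph p c) 0) z)) (za (fl (Af (bt p n) (ph p c) 0) z) +
      ε • up (zs (fl (Af (bt p n) (ph p c) 0) z))) = Ψ (zb z) (za z + ε • up (zs z)) := by
  rw [zb_fl0, za_fl0, zs_fl0, up_fl, fl_smul, fl_add, hb _ hz]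

theorem gS_fl0 {ε : ℝ} {z : Kp p n → ℝ} (hz : ‖zb z‖ = 1) :
    gS Ψ ε (fl (Af (bt p n) (ph p c) 0) z) = gS Ψ ε z := by
  unfold gS
  rw [psi_fl0 hb hz, psi_fl0 hb hz]

theorem gA_fl0 {ε : ℝ} {z : Kp p n → ℝ} (hz : ‖zb z‖ = 1) :
    gA Ψ ε (fl (Af (bt p n) (ph p c) 0) z) = gA Ψ ε z := by
  unfold gA
  rw [psi_fl0 hb hz, psi_fl0 hb hz]

end sym

section sym1

variable {Ψ : (Fin p → ℝ) → (Fin (n + 1) → ℝ) → Fin (n + 1) → ℝ} {c : Fin n → Bool}

theorem psi_fl1 {ε : ℝ} {z : Kp p n → ℝ} (hz : ‖zs z‖ = 1) :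
    Ψ (zb (fl (Af (bt p n) (ph p c) 1) z)) (za (fl (Af (bt p n) (ph p c) 1) z) +
      ε • up (zs (fl (Af (bt p n) (ph p c) 1) z))) = Ψ (zb z) (za z + (-ε) • up (zs z)) := by
  rw [zb_fl1, za_fl1, zs_fl1, up_neg _ hz, smul_neg, neg_smul]

theorem gS_fl1 {ε : ℝ} {z : Kp p n → ℝ} (hz : ‖zs z‖ = 1) :
    gS Ψ ε (fl (Af (bt p n) (ph p c) 1) z) = gS Ψ ε z := by
  unfold gS
  rw [psi_fl1 (Ψ := Ψ) (c := c) (ε := ε) hz, psi_fl1 (Ψ := Ψ) (c := c) (ε := -ε) hz, neg_neg]
  exact add_comm _ _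

theorem gA_fl1 {ε : ℝ} {z : Kp p n → ℝ} (hz : ‖zs z‖ = 1) :
    gA Ψ ε (fl (Af (bt p n) (ph p c) 1) z) = -gA Ψ ε z := by
  unfold gA
  rw [psi_fl1 (Ψ := Ψ) (c := c) (ε := ε) hz, psi_fl1 (Ψ := Ψ) (c := c) (ε := -ε) hz, neg_neg,
    neg_sub]

end sym1

/-- The character of a sign. -/
theorem eqvR_sq {N : ℕ} {ι : Type} [Fintype ι] {g : (Kp p n → ℝ) → ι → ℝ} {j : ι}
    {t : (Kp p n → ℤ) → ZMod 2} {φ : Kp p n → Bool} {χ : Fin 3 → ZMod 2}
    (ht : EqvR 2 (bt p n) (Af (bt p n) φ) N χ t)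
    (hg : ∀ i, i ≠ 2 → ∀ x, Bd (bt p n) N i x → ‖pt N x‖ ≤ 1 →
      (χ i = 0 ∧ g (fl (Af (bt p n) φ i) (pt N x)) j = g (pt N x) j) ∨
      (χ i = 1 ∧ g (fl (Af (bt p n) φ i) (pt N x)) j = -g (pt N x) j)) :
    EqvR 2 (bt p n) (Af (bt p n) φ) N χ (sq g N t j) := by
  classical
  intro i hi x hx
  unfold sq
  rw [pt_negA, norm_fl]
  by_cases h : ‖pt N x‖ ≤ 1
  · rw [if_pos h, if_pos h, ht i hi x hx]
    rcases hg i hi x hx h with ⟨h1, h2⟩ | ⟨h1, h2⟩
    · rw [h1, h2, add_zero, add_zero]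
    · rw [h1, h2]
      rcases lt_trichotomy (g (pt N x) j) 0 with h3 | h3 | h3
      · rw [if_neg (by linarith), if_pos (by linarith), if_pos h3]
        decide
      · rw [if_neg (by linarith), if_neg (by linarith), if_neg (by linarith), if_neg (by linarith)]
      · rw [if_pos (by linarith), if_neg (by linarith), if_pos h3]
        decide
  · rw [if_neg h, if_neg h, ht i hi x hx]

/-- **There is no family.** -/
theorem no_fam (hp : 0 < p) (c : Fin n → Bool)
    (hV : V p (univ.filter fun j => c j = true).card = 1)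
    (Ψ : (Fin p → ℝ) → (Fin (n + 1) → ℝ) → Fin (n + 1) → ℝ)
    (hc : ContinuousOn (fun z : (Fin p → ℝ) × (Fin (n + 1) → ℝ) => Ψ z.1 z.2)
      ({b | ‖b‖ ≤ 1} ×ˢ Set.univ))
    (h0 : ∀ b, ‖b‖ ≤ 1 → ∀ x, Ψ b x = 0 → x = 0)
    (hb : ∀ b, ‖b‖ = 1 → ∀ x, Ψ (-b) (fl (cc c) x) = Ψ b x)
    (hodd : ∀ x, Ψ 0 (-x) = -Ψ 0 x) : False := by
  classical
  -- the small number
  obtain ⟨ε, hε0, hε⟩ : ∃ ε : ℝ, 0 < ε ∧ ∀ z : Kp p n → ℝ, ‖z‖ ≤ 1 → ‖za z‖ = 1 →
      gS Ψ ε z ≠ 0 := by
    have hK : IsCompact ((Metric.closedBall (0 : Fin p → ℝ) 1) ×ˢ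
        (Metric.closedBall (0 : Fin (n + 1) → ℝ) 2)) :=
      (isCompact_closedBall 0 1).prod (isCompact_closedBall 0 2)
    have hcK : ContinuousOn (fun z : (Fin p → ℝ) × (Fin (n + 1) → ℝ) => Ψ z.1 z.2)
        ((Metric.closedBall (0 : Fin p → ℝ) 1) ×ˢ (Metric.closedBall (0 : Fin (n + 1) → ℝ) 2)) := by
      refine hc.mono ?_
      rintro ⟨b, x⟩ ⟨h1, -⟩
      exact ⟨by simpa using h1, Set.mem_univ _⟩
    have hK2 : IsCompact ((Metric.closedBall (0 : Fin p → ℝ) 1) ×ˢ
        (Metric.sphere (0 : Fin (n + 1) → ℝ) 1)) :=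
      (isCompact_closedBall 0 1).prod (isCompact_sphere 0 1)
    have hcK2 : ContinuousOn (fun z : (Fin p → ℝ) × (Fin (n + 1) → ℝ) => Ψ z.1 z.2)
        ((Metric.closedBall (0 : Fin p → ℝ) 1) ×ˢ (Metric.sphere (0 : Fin (n + 1) → ℝ) 1)) := by
      refine hc.mono ?_
      rintro ⟨b, x⟩ ⟨h1, -⟩
      exact ⟨by simpa using h1, Set.mem_univ _⟩
    have hne : ((Metric.closedBall (0 : Fin p → ℝ) 1) ×ˢ
        (Metric.sphere (0 : Fin (n + 1) → ℝ) 1)).Nonempty := by
      refine ⟨(0, fun _ => 1), ?_, ?_⟩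
      · simp
      · simp
    obtain ⟨z₀, hz₀, hmin⟩ := hK2.exists_isMinOn hne hcK2.norm
    have hμ : 0 < ‖Ψ z₀.1 z₀.2‖ := by
      refine norm_pos_iff.mpr fun h => ?_
      have h1 := h0 _ (by simpa using hz₀.1) _ h
      have h2 := hz₀.2
      rw [h1] at h2
      simp at h2
    have huc := hK.uniformContinuousOn_of_continuous hcK
    rw [Metric.uniformContinuousOn_iff] at huc
    obtain ⟨δ, hδ0, hδ1⟩ := huc ‖Ψ z₀.1 z₀.2‖ hμ
    refine ⟨min 1 (δ / 2), by positivity, fun z hz hz1 h => ?_⟩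
    set ε := min 1 (δ / 2) with hεd
    have hε0 : 0 ≤ ε := by positivity
    have hup := norm_up_le (zs z) (zs_le hz)
    have key : ∀ η : ℝ, |η| = ε →
        dist (Ψ (zb z) (za z + η • up (zs z))) (Ψ (zb z) (za z)) < ‖Ψ z₀.1 z₀.2‖ := by
      intro η hη
      have h3 : ‖η • up (zs z)‖ ≤ ε := by
        rw [norm_smul, Real.norm_eq_abs, hη]
        calc ε * ‖up (zs z)‖ ≤ ε * 1 := mul_le_mul_of_nonneg_left hup hε0
          _ = ε := mul_one _
      refine hδ1 (zb z, za z + η • up (zs z)) ?_ (zb z, za z) ?_ ?_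
      · refine ⟨by simpa using zb_le hz, ?_⟩
        rw [mem_closedBall_zero_iff]
        refine (norm_add_le _ _).trans ?_
        have : ε ≤ 1 := min_le_left _ _
        linarith
      · refine ⟨by simpa using zb_le hz, ?_⟩
        rw [mem_closedBall_zero_iff, hz1]
        norm_num
      · rw [Prod.dist_eq]
        refine max_lt (by simpa using hδ0) ?_
        show dist (za z + η • up (zs z)) (za z) < δ
        rw [dist_eq_norm, add_sub_cancel_left]
        have : ε ≤ δ / 2 := min_le_right _ _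
        linarith
    have h4 := key ε (abs_of_nonneg hε0)
    have h5 := key (-ε) (by rw [abs_neg, abs_of_nonneg hε0])
    rw [dist_eq_norm] at h4 h5
    have h6 : ‖Ψ z₀.1 z₀.2‖ ≤ ‖Ψ (zb z) (za z)‖ := by
      refine hmin (show (zb z, za z) ∈ _ from ⟨?_, ?_⟩)
      · simpa using zb_le hz
      · simpa using hz1
    have h7 : (Ψ (zb z) (za z + ε • up (zs z)) - Ψ (zb z) (za z)) +
        (Ψ (zb z) (za z + (-ε) • up (zs z)) - Ψ (zb z) (za z)) = -((2 : ℝ) • Ψ (zb z) (za z)) := by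
      have h8 : Ψ (zb z) (za z + ε • up (zs z)) + Ψ (zb z) (za z + (-ε) • up (zs z)) = 0 := h
      rw [two_smul]
      calc _ = (Ψ (zb z) (za z + ε • up (zs z)) + Ψ (zb z) (za z + (-ε) • up (zs z))) -
            (Ψ (zb z) (za z) + Ψ (zb z) (za z)) := by abel
        _ = _ := by rw [h8, zero_sub]
    have h9 := norm_add_le (Ψ (zb z) (za z + ε • up (zs z)) - Ψ (zb z) (za z))
      (Ψ (zb z) (za z + (-ε) • up (zs z)) - Ψ (zb z) (za z))
    rw [h7, norm_neg, norm_smul, Real.norm_eq_abs, abs_two] at h9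
    linarith
  -- continuity
  have hpsi : ∀ η : ℝ, ContinuousOn (fun z : Kp p n → ℝ => Ψ (zb z) (za z + η • up (zs z)))
      {z | ‖z‖ ≤ 1} := by
    intro η
    refine hc.comp (f := fun z : Kp p n → ℝ => (zb z, za z + η • up (zs z))) ?_ ?_
    · refine Continuous.continuousOn ?_
      have h1 : Continuous (zb : (Kp p n → ℝ) → Fin p → ℝ) :=
        continuous_pi fun k => continuous_apply _
      have h2 : Continuous (za : (Kp p n → ℝ) → Fin (n + 1) → ℝ) :=
        continuous_pi fun k => continuous_apply _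
      have h3 : Continuous (zs : (Kp p n → ℝ) → Fin n → ℝ) :=
        continuous_pi fun k => continuous_apply _
      exact h1.prodMk (h2.add ((continuous_up.comp h3).const_smul η))
    · intro z hz
      exact ⟨zb_le hz, Set.mem_univ _⟩
  have hgS : ContinuousOn (gS Ψ ε) {z | ‖z‖ ≤ 1} := (hpsi ε).add (hpsi (-ε))
  have hgA : ContinuousOn (gA Ψ ε) {z | ‖z‖ ≤ 1} := (hpsi ε).sub (hpsi (-ε))
  have hball : {z : Kp p n → ℝ | ‖z‖ ≤ 1} = Metric.closedBall 0 1 := by
    ext z
    simp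
  -- the signs on the boundary
  obtain ⟨N₁, hN₁, hsm₁⟩ := const_small (gS Ψ ε)
    (A := {z : Kp p n → ℝ | ‖z‖ ≤ 1} ∩ {z | ‖za z‖ = 1}) (by
      rw [hball]
      refine (isCompact_closedBall 0 1).inter_right ?_
      have h2 : Continuous (za : (Kp p n → ℝ) → Fin (n + 1) → ℝ) :=
        continuous_pi fun k => continuous_apply _
      exact isClosed_eq h2.norm continuous_const) (fun z hz => hz.1)
    (hgS.mono Set.inter_subset_left) (fun z hz => hε z hz.1 hz.2)
  -- the signs on the cube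
  let g2 : (Kp p n → ℝ) → Fin (n + 1) ⊕ Fin (n + 1) → ℝ := fun z => Sum.elim (gS Ψ ε z) (gA Ψ ε z)
  obtain ⟨N₂, hN₂, hsm₂⟩ := const_small g2 (A := {z : Kp p n → ℝ | ‖z‖ ≤ 1}) (by
      rw [hball]
      exact isCompact_closedBall 0 1) (fun z hz => hz) (by
      rw [continuousOn_pi]
      rintro (j | j)
      · exact (continuousOn_pi.1 hgS) j
      · exact (continuousOn_pi.1 hgA) j) (by
      intro z hz h
      have h1 : gS Ψ ε z = 0 := by
        funext j
        exact congrFun h (Sum.inl j)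
      have h2 : gA Ψ ε z = 0 := by
        funext j
        exact congrFun h (Sum.inr j)
      have h3 : Ψ (zb z) (za z + ε • up (zs z)) = 0 := by
        have h4 : (2 : ℝ) • Ψ (zb z) (za z + ε • up (zs z)) = gS Ψ ε z + gA Ψ ε z := by
          unfold gS gA
          rw [two_smul]
          abel
        rw [h1, h2, add_zero] at h4
        exact (smul_eq_zero.1 h4).resolve_left two_ne_zero
      have h5 : Ψ (zb z) (za z + (-ε) • up (zs z)) = 0 := by
        have h4 : gS Ψ ε z = Ψ (zb z) (za z + ε • up (zs z)) +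
          Ψ (zb z) (za z + (-ε) • up (zs z)) := rfl
        rw [h1, h3, zero_add] at h4
        exact h4.symm
      have h6 := h0 _ (zb_le hz) _ h3
      have h7 := h0 _ (zb_le hz) _ h5
      have h8 : (2 * ε) • up (zs z) = 0 := by
        have h9 : (2 * ε) • up (zs z) = (za z + ε • up (zs z)) - (za z + (-ε) • up (zs z)) := by
          rw [neg_smul, two_mul, add_smul]
          abel
        rw [h9, h6, h7, sub_zero]
      have h10 := (smul_eq_zero.1 h8).resolve_left (by positivity)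
      exact up_ne_zero _ h10)
  -- the degree
  let f₀ : (Fin (n + 1) → ℝ) → Fin (n + 1) → ℝ := fun a =>
    Ψ 0 (a + ε • up 0) + Ψ 0 (a + (-ε) • up 0)
  have hf₀c : Continuous f₀ := by
    have h1 : ∀ η : ℝ, Continuous fun a : Fin (n + 1) → ℝ => Ψ 0 (a + η • up 0) := by
      intro η
      rw [← continuousOn_univ]
      refine hc.comp (f := fun a : Fin (n + 1) → ℝ => ((0 : Fin p → ℝ), a + η • up 0)) ?_ ?_
      · refine Continuous.continuousOn ?_
        fun_prop
      · intro z _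
        exact ⟨by simp, Set.mem_univ _⟩
    exact (h1 ε).add (h1 (-ε))
  let ι₀ : Fin (n + 1) → Kp p n := fun k => Sum.inr (Sum.inl k)
  have hι₀ : Function.Injective ι₀ := fun a b h => Sum.inl.inj (Sum.inr.inj h)
  have hext : ∀ a : Fin (n + 1) → ℝ, ‖Function.extend ι₀ a 0‖ = ‖a‖ ∧
      gS Ψ ε (Function.extend ι₀ a 0) = f₀ a ∧ za (Function.extend ι₀ a 0) = a := by
    intro a
    have h1 : za (Function.extend ι₀ a 0) = a := by
      funext k
      exact hι₀.extend_apply a 0 k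
    have h2 : zb (Function.extend ι₀ a 0) = 0 := by
      funext k
      refine Function.extend_apply' a (0 : Kp p n → ℝ) _ ?_
      rintro ⟨b, hb⟩
      exact absurd hb (by simp [ι₀])
    have h3 : zs (Function.extend ι₀ a 0) = 0 := by
      funext k
      refine Function.extend_apply' a (0 : Kp p n → ℝ) _ ?_
      rintro ⟨b, hb⟩
      exact absurd hb (by simp [ι₀])
    refine ⟨?_, ?_, h1⟩
    · refine le_antisymm ?_ ?_
      · rw [pi_norm_le_iff_of_nonneg (norm_nonneg _)]
        intro k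
        by_cases hk : ∃ b, ι₀ b = k
        · obtain ⟨b, rfl⟩ := hk
          rw [hι₀.extend_apply]
          exact norm_le_pi_norm a b
        · rw [Function.extend_apply' _ _ _ hk]
          simp
      · rw [pi_norm_le_iff_of_nonneg (norm_nonneg _)]
        intro k
        rw [← hι₀.extend_apply a 0 k]
        exact norm_le_pi_norm (Function.extend ι₀ a 0) _
    · unfold gS
      rw [h1, h2, h3]
  obtain ⟨δ, hδ⟩ := exists_deg (Nat.succ_pos n) (Equiv.refl (Fin (n + 1))) f₀
    hf₀c.continuousOn (by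
      intro a ha h
      have h1 := hext a
      refine hε (Function.extend ι₀ a 0) (by rw [h1.1, ha]) (by rw [h1.2.2, ha]) ?_
      rw [h1.2.1, h])
  have hδ1 : (δ : ZMod 2) = 1 := by
    refine hδ.odd fun a _ => ?_
    show Ψ 0 (-a + ε • up 0) + Ψ 0 (-a + (-ε) • up 0) =
      -(Ψ 0 (a + ε • up 0) + Ψ 0 (a + (-ε) • up 0))
    have h1 : -a + ε • up (0 : Fin n → ℝ) = -(a + (-ε) • up 0) := by
      rw [neg_smul]
      abel
    have h2 : -a + (-ε) • up (0 : Fin n → ℝ) = -(a + ε • up 0) := by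
      rw [neg_smul]
      abel
    rw [h1, h2, hodd, hodd]
    abel
  obtain ⟨k₀, hk₀⟩ := hδ
  -- the grid
  set k := max k₀ (max N₁ N₂) with hk
  have hkN : k < 2 ^ k := Nat.lt_two_pow_self
  set N := 2 ^ k with hNd
  have hN : 0 < N := by positivity
  have hNN₁ : N₁ ≤ N := ((le_max_left _ _).trans (le_max_right _ _)).trans hkN.le
  have hNN₂ : N₂ ≤ N := ((le_max_right _ _).trans (le_max_right _ _)).trans hkN.le
  have hT0 := hk₀ k (le_max_left _ _) 0
  let β := bt p n
  let φ := ph p c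
  let S : Fin (n + 1) → (Kp p n → ℤ) → ZMod 2 := sq (gS Ψ ε) N 0
  let A : Fin (n + 1) → (Kp p n → ℤ) → ZMod 2 := sq (gA Ψ ε) N (Et β φ N)
  have hi : ∀ i : Fin 3, i ≠ 2 → i = 0 ∨ i = 1 := by decide
  have hS : ∀ j, EqvR 2 β (Af β φ) N 0 (S j) := by
    intro j
    refine eqvR_sq (fun i _ x _ => by simp) fun i hi' x hx hx1 => Or.inl ⟨rfl, ?_⟩
    rcases hi i hi' with rfl | rfl
    · rw [gS_fl0 hb (zb_eq hN hx1 hx)]
    · rw [gS_fl1 (zs_eq hN hx1 hx)]
  have hA : ∀ j, EqvR 2 β (Af β φ) N (Pi.single 1 1) (A j) := by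
    intro j
    refine eqvR_sq (eqvR_Et hN β φ) fun i hi' x hx hx1 => ?_
    rcases hi i hi' with rfl | rfl
    · refine Or.inl ⟨by simp, ?_⟩
      rw [gA_fl0 hb (zb_eq hN hx1 hx)]
    · refine Or.inr ⟨by simp, ?_⟩
      rw [gA_fl1 (zs_eq hN hx1 hx), Pi.neg_apply]
  have hC : Cst 2 β N S := by
    intro v h1 h2 h3
    obtain ⟨j, c', hj⟩ := hsm₁ N hNN₁ v h2 fun l =>
      ⟨norm_pt_le hN (h1 l), za_eq hN (norm_pt_le hN (h1 l)) (h3 l)⟩
    refine ⟨j, fun l l' => ?_⟩
    show sq (gS Ψ ε) N 0 j (v l) = sq (gS Ψ ε) N 0 j (v l')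
    rw [hj, hj]
  -- the value
  have hval := V_main hN (p + n) (Kp p n) β φ ι₀ hι₀ (by
      rintro (k | k | k)
      · simp [β, bt, ι₀]
      · simp [β, bt, ι₀]
      · simp [β, bt, ι₀]) p (univ.filter fun j => c j = true).card (by
      rw [← Fintype.card_subtype]
      have e : {k : Kp p n // β k = 0} ≃ Fin p :=
        { toFun := fun k => match k with
            | ⟨Sum.inl k, _⟩ => k
            | ⟨Sum.inr (Sum.inl _), h⟩ => absurd h (by simp [β, bt])
            | ⟨Sum.inr (Sum.inr _), h⟩ => absurd h (by simp [β, bt])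
          invFun := fun k => ⟨Sum.inl k, rfl⟩
          left_inv := by
            rintro ⟨k | k | k, h⟩
            · rfl
            · exact absurd h (by simp [β, bt])
            · exact absurd h (by simp [β, bt])
          right_inv := fun k => rfl }
      rw [Fintype.card_congr e, Fintype.card_fin]) (by
      rw [← card_map (⟨fun j : Fin n => (Sum.inr (Sum.inr j) : Kp p n),
        fun a b h => Sum.inr.inj (Sum.inr.inj h)⟩ : Fin n ↪ Kp p n)]
      congr 1
      ext k
      simp only [mem_filter, mem_univ, true_and, mem_map]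
      constructor
      · rintro ⟨h1, h2⟩
        rcases k with k | k | k
        · exact absurd h1 (by simp [β, bt])
        · exact absurd h1 (by simp [β, bt])
        · exact ⟨k, h2, rfl⟩
      · rintro ⟨j, hj, rfl⟩
        exact ⟨rfl, hj⟩) (by
      have h1 : (univ.filter fun k : Kp p n => β k ≠ 2) = univ.image
          (Sum.elim (fun k : Fin p => (Sum.inl k : Kp p n)) fun k : Fin n => Sum.inr (Sum.inr k)) := by
        ext k
        simp only [mem_filter, mem_univ, true_and, mem_image]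
        constructor
        · intro h
          rcases k with k | k | k
          · exact ⟨Sum.inl k, rfl⟩
          · exact absurd rfl h
          · exact ⟨Sum.inr k, rfl⟩
        · rintro ⟨j | j, rfl⟩
          · simp [β, bt]
          · simp [β, bt]
      rw [h1, card_image_of_injective]
      · simp
      · rintro (a | a) (b | b) h
        · exact congrArg Sum.inl (Sum.inl.inj h)
        · exact absurd h (by simp)
        · exact absurd h (by simp)
        · exact congrArg Sum.inr (Sum.inr.inj (Sum.inr.inj h)))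
    S hS hC (Et β φ N) (rho β N 0) (eqvR_Et hN β φ) (eqvR_Ea hN β φ)
  -- the restricted sum
  have hres : T N (fun j (x : Fin (n + 1) → ℤ) => S j (Function.extend ι₀ x 0)) = 1 := by
    rw [← hδ1, ← hT0, TZ_mod]
    congr 1
    funext j x
    have h1 : pt N (Function.extend ι₀ x (0 : Kp p n → ℤ)) = Function.extend ι₀ (pt N x) 0 := by
      funext k
      by_cases hk : ∃ b, ι₀ b = k
      · obtain ⟨b, rfl⟩ := hk
        rw [hι₀.extend_apply]
        show ((Function.extend ι₀ x (0 : Kp p n → ℤ) (ι₀ b) : ℤ) : ℝ) / (2 * N) = _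
        rw [hι₀.extend_apply]
        rfl
      · rw [Function.extend_apply' _ _ _ hk]
        show ((Function.extend ι₀ x (0 : Kp p n → ℤ) k : ℤ) : ℝ) / (2 * N) = _
        rw [Function.extend_apply' _ _ _ hk]
        simp
    have h2 := hext (pt N x)
    show (open Classical in if ‖pt N (Function.extend ι₀ x (0 : Kp p n → ℤ))‖ ≤ 1 then
      (if gS Ψ ε (pt N (Function.extend ι₀ x (0 : Kp p n → ℤ))) j < 0 then (1 : ZMod 2) else
        if 0 < gS Ψ ε (pt N (Function.extend ι₀ x (0 : Kp p n → ℤ))) j then 0 else 0) else 0) =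
      (((open Classical in if ‖pt N x‖ ≤ 1 then (if f₀ (pt N x) j < 0 then 1 else
        if 0 < f₀ (pt N x) j then 0 else 0) else 0 : ℤ) : ℤ) : ZMod 2)
    rw [h1, h2.1, h2.2.1]
    split_ifs <;> simp
  rw [hres, hV, mul_one] at hval
  -- the other functions
  let s' : Fin (n + 1 + (p + n)) → (Kp p n → ℤ) → ZMod 2 := fun j =>
    if h : (j : ℕ) < n + 1 then S ⟨j, h⟩ else
      if h' : (j : ℕ) - (n + 1) < n + 1 then A ⟨(j : ℕ) - (n + 1), h'⟩ else Et β φ N
  have hcon : T N (ap S (Et β φ N) (p + n)) = T N s' := by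
    refine T_congrR (D := n + 1) (by omega) (Af_self β φ) 2
      (χ := fun j => if (j : ℕ) < n + 1 then 0 else Pi.single 1 1) ?_ ?_ ?_ ?_
    · intro j
      show EqvR 2 β (Af β φ) N (if (j : ℕ) < n + 1 then 0 else Pi.single 1 1)
        (if h : (j : ℕ) < n + 1 then S ⟨j, h⟩ else Et β φ N)
      by_cases h : (j : ℕ) < n + 1
      · rw [dif_pos h, if_pos h]
        exact hS _
      · rw [dif_neg h, if_neg h]
        exact eqvR_Et hN β φ
    · intro j
      show EqvR 2 β (Af β φ) N (if (j : ℕ) < n + 1 then 0 else Pi.single 1 1)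
        (if h : (j : ℕ) < n + 1 then S ⟨j, h⟩ else
          if h' : (j : ℕ) - (n + 1) < n + 1 then A ⟨(j : ℕ) - (n + 1), h'⟩ else Et β φ N)
      by_cases h : (j : ℕ) < n + 1
      · rw [dif_pos h, if_pos h]
        exact hS _
      · rw [dif_neg h, if_neg h]
        by_cases h' : (j : ℕ) - (n + 1) < n + 1
        · rw [dif_pos h']
          exact hA _
        · rw [dif_neg h']
          exact eqvR_Et hN β φ
    · have h1 : (fun j : Fin (n + 1) => ap S (Et β φ N) (p + n)
          (Fin.castLE (by omega : n + 1 ≤ n + 1 + (p + n)) j)) = S := by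
        funext j
        show (if h : ((j : Fin (n + 1)) : ℕ) < n + 1 then S ⟨j, h⟩ else Et β φ N) = S j
        rw [dif_pos j.2]
      rw [h1]
      exact hC
    · intro j hj
      show (if h : (j : ℕ) < n + 1 then S ⟨j, h⟩ else Et β φ N) =
        (if h : (j : ℕ) < n + 1 then S ⟨j, h⟩ else
          if h' : (j : ℕ) - (n + 1) < n + 1 then A ⟨(j : ℕ) - (n + 1), h'⟩ else Et β φ N)
      rw [dif_pos hj, dif_pos hj]
  have hzero : T N s' = 0 := by
    rw [← T_eq]
    refine Finset.sum_eq_zero fun τ hτ => ?_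
    obtain ⟨j, c', hj⟩ := hsm₂ N hNN₂ (vtx τ) (fun l l' k => vtx_sub τ l l' k)
      (fun l => norm_pt_le hN fun k => vtx_abs hτ l k)
    rcases j with j | j
    · refine Finset.prod_eq_zero (mem_univ (⟨j, by have := j.2; omega⟩ : Fin (n + 1 + (p + n)))) ?_
      have h1 : s' (⟨j, by have := j.2; omega⟩ : Fin (n + 1 + (p + n))) = S j := by
        show (if h : (j : ℕ) < n + 1 then S ⟨j, h⟩ else _) = S j
        rw [dif_pos j.2]
      have h2 : ∀ l, S j (vtx τ l) = c' := fun l => hj 0 l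
      simp only [h1, h2]
      exact CharTwo.add_self_eq_zero _
    · refine Finset.prod_eq_zero
        (mem_univ (⟨(j : ℕ) + (n + 1), by have := j.2; omega⟩ : Fin (n + 1 + (p + n)))) ?_
      have h1 : s' (⟨(j : ℕ) + (n + 1), by have := j.2; omega⟩ : Fin (n + 1 + (p + n))) = A j := by
        show (if h : (j : ℕ) + (n + 1) < n + 1 then _ else
          if h' : (j : ℕ) + (n + 1) - (n + 1) < n + 1 then
            A ⟨(j : ℕ) + (n + 1) - (n + 1), h'⟩ else Et β φ N) = A j
        rw [dif_neg (by omega), dif_pos (by have := j.2; omega)]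
        congr 1
        exact Fin.ext (by simp)
      have h2 : ∀ l, A j (vtx τ l) = c' := fun l => hj (Et β φ N) l
      simp only [h1, h2]
      exact CharTwo.add_self_eq_zero _
  rw [hcon, hzero] at hval
  exact absurd hval (by decide)

end Pool.Agent.Helper59.ZP
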