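import Pool.Agent.Helper43.ZT.T
import Pool.Agent.Helper43.ZT.Rho
import Pool.Agent.Helper59.ZD.Deg

set_option autoImplicit false
set_option linter.unusedSectionVars false

/-!
# Sums over flags: one part of the boundary is not identified
-/

namespace Pool.Agent.Helper59.ZP

open Finset Pool.Agent.Helper29.ZBU Pool.Agent.Helper43.ZT

variable {κ ι : Type} [Fintype κ] [DecidableEq κ] {d N : ℕ}

/-- A sum over the flags of a function which does not depend on the cell of dimension `d` and is
invariant for the identifications of the boundary is zero. -/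
theorem sum_topR {N : ℕ} (hd : 0 < d) (β : κ → ι) (A : ι → κ → Bool)
    (hA : ∀ k, A (β k) k = true) (i₀ : ι) (g : (ℕ → κ → ℤ) → ZMod 2)
    (hg : ∀ v w, (∀ j, j < d → v j = w j) → g v = g w)
    (hg' : ∀ v i, i ≠ i₀ → (∀ j, j < d → Bd β N i (v j)) → g (fun j => negA A i (v j)) = g v)
    (hz : ∀ τ : Flag κ d, τ ∈ flags κ d N → (∀ j, j < d → Bd β N i₀ (vtx τ j)) →
      g (vtx τ) = 0) :
    ∑ τ ∈ flags κ d N, g (vtx τ) = 0 := by
  classical
  let last : Fin d := ⟨d - 1, by omega⟩
  let kk : Flag κ d → κ := fun τ => τ.2.1 last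
  let ex : Flag κ d → Prop := fun τ => |τ.1 (kk τ) + bi (τ.2.2 (kk τ))| = (N : ℤ)
  let fl : Flag κ d → Flag κ d := fun τ =>
    (Function.update τ.1 (kk τ) (τ.1 (kk τ) + (2 * bi (τ.2.2 (kk τ)) - 1)), τ.2.1,
      Function.update τ.2.2 (kk τ) (!τ.2.2 (kk τ)))
  let ng : Flag κ d → Flag κ d := fun τ =>
    (fun k => if A (β (kk τ)) k = true then -τ.1 k - 1 else τ.1 k, τ.2.1,
      fun k => if A (β (kk τ)) k = true then !τ.2.2 k else τ.2.2 k)
  let inv : Flag κ d → Flag κ d := fun τ => if ex τ then ng τ else fl τ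
  have hbi : ∀ b : Bool, bi (!b) = 1 - bi b := by
    intro b
    cases b <;> simp [bi]
  have hkng : ∀ τ, kk (ng τ) = kk τ := fun τ => rfl
  have hkfl : ∀ τ, kk (fl τ) = kk τ := fun τ => rfl
  have hexng : ∀ τ, ex (ng τ) ↔ ex τ := by
    intro τ
    show |(if A (β (kk τ)) (kk τ) = true then -τ.1 (kk τ) - 1 else τ.1 (kk τ)) +
      bi (if A (β (kk τ)) (kk τ) = true then !τ.2.2 (kk τ) else τ.2.2 (kk τ))| = (N : ℤ) ↔
      |τ.1 (kk τ) + bi (τ.2.2 (kk τ))| = (N : ℤ)
    rw [if_pos (hA _), if_pos (hA _), hbi, ← abs_neg]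
    have : -(-τ.1 (kk τ) - 1 + (1 - bi (τ.2.2 (kk τ)))) = τ.1 (kk τ) + bi (τ.2.2 (kk τ)) := by ring
    rw [this]
  have hexfl : ∀ τ, ex (fl τ) ↔ ex τ := by
    intro τ
    show |Function.update τ.1 (kk τ) (τ.1 (kk τ) + (2 * bi (τ.2.2 (kk τ)) - 1)) (kk τ) +
      bi (Function.update τ.2.2 (kk τ) (!τ.2.2 (kk τ)) (kk τ))| = (N : ℤ) ↔
      |τ.1 (kk τ) + bi (τ.2.2 (kk τ))| = (N : ℤ)
    rw [Function.update_self, Function.update_self, hbi]
    have : τ.1 (kk τ) + (2 * bi (τ.2.2 (kk τ)) - 1) + (1 - bi (τ.2.2 (kk τ))) =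
      τ.1 (kk τ) + bi (τ.2.2 (kk τ)) := by ring
    rw [this]
  have hngmem : ∀ τ, τ ∈ flags κ d N → ng τ ∈ flags κ d N := by
    intro τ hτ
    rw [mem_flags] at hτ ⊢
    intro k
    show -(N : ℤ) ≤ (if A (β (kk τ)) k = true then -τ.1 k - 1 else τ.1 k) ∧
      (if A (β (kk τ)) k = true then -τ.1 k - 1 else τ.1 k) < N
    have := hτ k
    split_ifs
    · omega
    · exact this
  have hexbd : ∀ τ, ex τ → ∀ j, j < d → Bd β N (β (kk τ)) (vtx τ j) := by
    intro τ h j hj
    refine ⟨kk τ, rfl, ?_⟩
    have h3 : ¬ ((τ.2.1.symm (kk τ) : Fin d) : ℕ) < j := by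
      show ¬ ((τ.2.1.symm (τ.2.1 last) : Fin d) : ℕ) < j
      rw [Equiv.symm_apply_apply]
      show ¬ d - 1 < j
      omega
    show |if ((τ.2.1.symm (kk τ) : Fin d) : ℕ) < j then _ else
      2 * (τ.1 (kk τ) + bi (τ.2.2 (kk τ)))| = _
    rw [if_neg h3, abs_mul, h]
    rfl
  refine Finset.sum_involution (fun τ _ => inv τ) ?_ ?_ ?_ ?_
  · intro τ hτm
    have h1 : g (vtx (inv τ)) = g (vtx τ) := by
      by_cases h : ex τ
      · show g (vtx (if ex τ then ng τ else fl τ)) = _
        rw [if_pos h]
        by_cases hi : β (kk τ) = i₀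
        · rw [hz τ hτm (by rw [← hi]; exact hexbd τ h), hz (ng τ) (hngmem τ hτm)]
          intro j hj
          have h4 := hexbd (ng τ) ((hexng τ).2 h) j hj
          rw [hkng, hi] at h4
          exact h4
        have h2 : vtx (ng τ) = fun j => negA A (β (kk τ)) (vtx τ j) := by
          funext j k
          show (if ((τ.2.1.symm k : Fin d) : ℕ) < j then
              2 * (if A (β (kk τ)) k = true then -τ.1 k - 1 else τ.1 k) + 1 else
              2 * ((if A (β (kk τ)) k = true then -τ.1 k - 1 else τ.1 k) +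
                bi (if A (β (kk τ)) k = true then !τ.2.2 k else τ.2.2 k))) =
            if A (β (kk τ)) k = true then -(if ((τ.2.1.symm k : Fin d) : ℕ) < j then 2 * τ.1 k + 1 else
              2 * (τ.1 k + bi (τ.2.2 k))) else (if ((τ.2.1.symm k : Fin d) : ℕ) < j then
                2 * τ.1 k + 1 else 2 * (τ.1 k + bi (τ.2.2 k)))
          by_cases hb : A (β (kk τ)) k = true
          · simp only [hb, if_true]
            split_ifs
            · ring
            · rw [hbi]
              ring
          · simp only [if_neg hb]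
        rw [h2]
        exact hg' _ _ hi fun j hj => hexbd τ h j hj
      · show g (vtx (if ex τ then ng τ else fl τ)) = _
        rw [if_neg h]
        refine hg _ _ fun j hj => ?_
        funext k
        by_cases hk : k = kk τ
        · subst hk
          have h3 : ¬ ((τ.2.1.symm (kk τ) : Fin d) : ℕ) < j := by
            show ¬ ((τ.2.1.symm (τ.2.1 last) : Fin d) : ℕ) < j
            rw [Equiv.symm_apply_apply]
            show ¬ d - 1 < j
            omega
          show (if ((τ.2.1.symm (kk τ) : Fin d) : ℕ) < j then _ else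
            2 * (Function.update τ.1 (kk τ) (τ.1 (kk τ) + (2 * bi (τ.2.2 (kk τ)) - 1)) (kk τ) +
              bi (Function.update τ.2.2 (kk τ) (!τ.2.2 (kk τ)) (kk τ)))) =
            (if ((τ.2.1.symm (kk τ) : Fin d) : ℕ) < j then _ else
              2 * (τ.1 (kk τ) + bi (τ.2.2 (kk τ))))
          rw [if_neg h3, if_neg h3, Function.update_self, Function.update_self, hbi]
          ring
        · show (if ((τ.2.1.symm k : Fin d) : ℕ) < j then
            2 * (Function.update τ.1 (kk τ) _ k) + 1 else
            2 * (Function.update τ.1 (kk τ) _ k + bi (Function.update τ.2.2 (kk τ) _ k))) = _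
          rw [Function.update_of_ne hk, Function.update_of_ne hk]
          rfl
    rw [h1]
    exact CharTwo.add_self_eq_zero _
  · intro τ _ _ h
    have h1 := congrFun (congrArg (fun σ : Flag κ d => σ.2.2) h) (kk τ)
    by_cases he : ex τ
    · simp [inv, he, ng, hA (kk τ)] at h1
    · simp [inv, he, fl] at h1
  · intro τ hτ
    rw [mem_flags] at hτ ⊢
    intro k
    by_cases he : ex τ
    · have h2 : inv τ = ng τ := if_pos he
      rw [h2]
      show -(N : ℤ) ≤ (if A (β (kk τ)) k = true then -τ.1 k - 1 else τ.1 k) ∧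
        (if A (β (kk τ)) k = true then -τ.1 k - 1 else τ.1 k) < N
      have := hτ k
      split_ifs
      · omega
      · exact this
    · have h2 : inv τ = fl τ := if_neg he
      rw [h2]
      show -(N : ℤ) ≤ Function.update τ.1 (kk τ) _ k ∧ Function.update τ.1 (kk τ) _ k < N
      by_cases hk : k = kk τ
      · subst hk
        rw [Function.update_self]
        have h3 := hτ (kk τ)
        have h4 : |τ.1 (kk τ) + bi (τ.2.2 (kk τ))| ≠ (N : ℤ) := he
        have h5 : bi (τ.2.2 (kk τ)) = 0 ∨ bi (τ.2.2 (kk τ)) = 1 := by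
          cases τ.2.2 (kk τ) <;> simp [bi]
        rcases h5 with h5 | h5
        · rw [h5, add_zero] at h4
          rw [h5]
          have h6 : τ.1 (kk τ) ≠ -(N : ℤ) := by
            intro h
            rw [h, abs_neg] at h4
            exact h4 (abs_of_nonneg (Int.natCast_nonneg N))
          omega
        · rw [h5] at h4 ⊢
          have h6 : τ.1 (kk τ) + 1 ≠ (N : ℤ) := by
            intro h
            rw [h] at h4
            exact h4 (abs_of_nonneg (Int.natCast_nonneg N))
          omega
      · rw [Function.update_of_ne hk]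
        exact hτ k
  · intro τ _
    show inv (inv τ) = τ
    by_cases he : ex τ
    · have h2 : inv τ = ng τ := if_pos he
      have h3 : inv (ng τ) = ng (ng τ) := if_pos ((hexng τ).2 he)
      rw [h2, h3]
      refine Prod.ext ?_ (Prod.ext rfl ?_)
      · funext k
        show (if A (β (kk τ)) k = true then -(if A (β (kk τ)) k = true then -τ.1 k - 1 else τ.1 k) - 1 else
          (if A (β (kk τ)) k = true then -τ.1 k - 1 else τ.1 k)) = τ.1 k
        split_ifs
        · ring
        · rfl
      · funext k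
        show (if A (β (kk τ)) k = true then !(if A (β (kk τ)) k = true then !τ.2.2 k else τ.2.2 k) else
          (if A (β (kk τ)) k = true then !τ.2.2 k else τ.2.2 k)) = τ.2.2 k
        split_ifs
        · simp
        · rfl
    · have h2 : inv τ = fl τ := if_neg he
      have h3 : inv (fl τ) = fl (fl τ) := if_neg fun h => he ((hexfl τ).1 h)
      rw [h2, h3]
      refine Prod.ext ?_ (Prod.ext rfl ?_)
      · show Function.update (Function.update τ.1 (kk τ) _) (kk τ)
          (Function.update τ.1 (kk τ) (τ.1 (kk τ) + (2 * bi (τ.2.2 (kk τ)) - 1)) (kk τ) +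
          (2 * bi (Function.update τ.2.2 (kk τ) (!τ.2.2 (kk τ)) (kk τ)) - 1)) = τ.1
        rw [Function.update_self, Function.update_self, hbi, Function.update_idem]
        have h4 : τ.1 (kk τ) + (2 * bi (τ.2.2 (kk τ)) - 1) + (2 * (1 - bi (τ.2.2 (kk τ))) - 1) =
          τ.1 (kk τ) := by ring
        rw [h4, Function.update_eq_self]
      · show Function.update (Function.update τ.2.2 (kk τ) _) (kk τ)
          (!(Function.update τ.2.2 (kk τ) (!τ.2.2 (kk τ)) (kk τ))) = τ.2.2
        rw [Function.update_self, Function.update_idem, Bool.not_not, Function.update_eq_self]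


/-- The factors of the boundary sum. -/
def Gz (s : Fin d → (κ → ℤ) → ZMod 2) (j₀ j : Fin d) (v : ℕ → κ → ℤ) : ZMod 2 :=
  if (j : ℕ) < 0 then s j (v j) else if (j : ℕ) < j₀ then s j (v j) + s j (v (j + 1)) else
    if j = j₀ then s j (v j) else s j (v (j - 1)) + s j (v j)

/-- The function `s` has the character `χ` for the blocks different from `i₀`. -/
def EqvR (i₀ : ι) (β : κ → ι) (A : ι → κ → Bool) (N : ℕ) (χ : ι → ZMod 2)
    (s : (κ → ℤ) → ZMod 2) : Prop :=
  ∀ i, i ≠ i₀ → ∀ x, Bd β N i x → s (negA A i x) = s x + χ i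

/-- The sum is zero if one of the characters is zero. -/
theorem T_zeroR {β : κ → ι} {A : ι → κ → Bool} (hA : ∀ k, A (β k) k = true) (i₀ : ι)
    {χ : Fin d → ι → ZMod 2} {s : Fin d → (κ → ℤ) → ZMod 2} (j₀ : Fin d)
    (hs : ∀ j, j ≠ j₀ → EqvR i₀ β A N (χ j) (s j)) (h0 : EqvR i₀ β A N 0 (s j₀))
    (hz : ∀ τ : Flag κ d, τ ∈ flags κ d N → (∀ j, j < d → Bd β N i₀ (vtx τ j)) →
      ∏ j, Gz s j₀ j (vtx τ) = 0) : T N s = 0 := by
  have hd : 0 < d := lt_of_le_of_lt (Nat.zero_le _) j₀.2
  -- first family
  let G : ℕ → Fin d → (ℕ → κ → ℤ) → ZMod 2 := fun m j v =>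
    if (j : ℕ) < m then s j (v j) else if (j : ℕ) < j₀ then s j (v j) + s j (v (j + 1)) else
      if j = j₀ then s j (v j) else s j (v (j - 1)) + s j (v j)
  have key : ∀ m, m ≤ (j₀ : ℕ) → ∑ τ ∈ flags κ d N, ∏ j, G 0 j (vtx τ) =
      ∑ τ ∈ flags κ d N, ∏ j, G m j (vtx τ) := by
    intro m
    induction m with
    | zero => intro _; rfl
    | succ m ih =>
      intro hm
      rw [ih (by omega)]
      have hmd : m < d := by omega
      have h1 := step (N := N) (G m) ⟨m, hmd⟩ (fun v => s ⟨m, hmd⟩ (v m))
        (fun v => s ⟨m, hmd⟩ (v (m + 1))) (fun v => by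
          show (if m < m then _ else if m < (j₀ : ℕ) then _ else _) = _
          rw [if_neg (lt_irrefl m), if_pos (by omega)]) (fun v w h => by
          show s _ (v (m + 1)) = s _ (w (m + 1))
          rw [h (m + 1) (by simp)]) (fun j hj v w h => by
          have hj' : (j : ℕ) ≠ m := fun h => hj (Fin.ext h)
          show (if (j : ℕ) < m then s j (v j) else if (j : ℕ) < j₀ then s j (v j) + s j (v (j + 1))
            else if j = j₀ then s j (v j) else s j (v (j - 1)) + s j (v j)) =
            if (j : ℕ) < m then s j (w j) else if (j : ℕ) < j₀ then s j (w j) + s j (w (j + 1))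
            else if j = j₀ then s j (w j) else s j (w (j - 1)) + s j (w j)
          rw [h j hj']
          by_cases hjm : (j : ℕ) < m
          · rw [if_pos hjm, if_pos hjm]
          · rw [if_neg hjm, if_neg hjm, h (j + 1) (by simp only; omega)]
            by_cases hj1 : (j : ℕ) < j₀
            · rw [if_pos hj1, if_pos hj1]
            · rw [if_neg hj1, if_neg hj1]
              by_cases hj2 : j = j₀
              · rw [if_pos hj2, if_pos hj2]
              · rw [if_neg hj2, if_neg hj2]
                have hj3 : (j : ℕ) ≠ j₀ := fun h => hj2 (Fin.ext h)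
                rw [h (j - 1) (by simp only; omega)])
      rw [h1]
      refine Finset.sum_congr rfl fun τ _ => Finset.prod_congr rfl fun j _ => ?_
      by_cases hj : j = ⟨m, hmd⟩
      · subst hj
        rw [Function.update_self]
        show _ = if m < m + 1 then _ else _
        rw [if_pos (by omega)]
      · rw [Function.update_of_ne hj]
        have hj' : (j : ℕ) ≠ m := fun h => hj (Fin.ext h)
        show (if (j : ℕ) < m then s j (vtx τ j) else if (j : ℕ) < j₀ then
            s j (vtx τ j) + s j (vtx τ (j + 1)) else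
          if j = j₀ then s j (vtx τ j) else s j (vtx τ (j - 1)) + s j (vtx τ j)) =
          if (j : ℕ) < m + 1 then s j (vtx τ j) else if (j : ℕ) < j₀ then
            s j (vtx τ j) + s j (vtx τ (j + 1)) else
          if j = j₀ then s j (vtx τ j) else s j (vtx τ (j - 1)) + s j (vtx τ j)
        by_cases hjm : (j : ℕ) < m
        · rw [if_pos hjm, if_pos (show (j : ℕ) < m + 1 by omega)]
        · rw [if_neg hjm, if_neg (show ¬ (j : ℕ) < m + 1 by omega)]
  -- second family
  let U : ℕ → Fin d → (ℕ → κ → ℤ) → ZMod 2 := fun m j v =>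
    if (j : ℕ) ≤ j₀ then s j (v j) else if (j : ℕ) < m then s j (v (j - 1)) + s j (v j) else
      s j (v j)
  have key' : ∀ m, (j₀ : ℕ) < m → m ≤ d → ∑ τ ∈ flags κ d N, ∏ j, U m j (vtx τ) =
      ∑ τ ∈ flags κ d N, ∏ j, U (j₀ + 1) j (vtx τ) := by
    intro m
    induction m with
    | zero => intro h; omega
    | succ m ih =>
      intro hm1 hm2
      by_cases hm3 : m = (j₀ : ℕ)
      · rw [hm3]
      rw [← ih (by omega) (by omega)]
      have hmd : m < d := by omega
      have h1 := step (N := N) (U (m + 1)) ⟨m, hmd⟩ (fun v => s ⟨m, hmd⟩ (v m))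
        (fun v => s ⟨m, hmd⟩ (v (m - 1))) (fun v => by
          show (if m ≤ (j₀ : ℕ) then _ else if m < m + 1 then
            s ⟨m, hmd⟩ (v (m - 1)) + s ⟨m, hmd⟩ (v m) else _) = _
          rw [if_neg (by omega), if_pos (by omega), add_comm]) (fun v w h => by
          show s _ (v (m - 1)) = s _ (w (m - 1))
          rw [h (m - 1) (by simp only; omega)]) (fun j hj v w h => by
          have hj' : (j : ℕ) ≠ m := fun h => hj (Fin.ext h)
          show (if (j : ℕ) ≤ j₀ then s j (v j) else if (j : ℕ) < m + 1 then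
            s j (v (j - 1)) + s j (v j) else s j (v j)) =
            if (j : ℕ) ≤ j₀ then s j (w j) else if (j : ℕ) < m + 1 then
            s j (w (j - 1)) + s j (w j) else s j (w j)
          rw [h j hj']
          by_cases hj1 : (j : ℕ) ≤ j₀
          · rw [if_pos hj1, if_pos hj1]
          · rw [if_neg hj1, if_neg hj1]
            by_cases hj2 : (j : ℕ) < m + 1
            · rw [if_pos hj2, if_pos hj2, h (j - 1) (by simp only; omega)]
            · rw [if_neg hj2, if_neg hj2])
      rw [h1]
      refine Finset.sum_congr rfl fun τ _ => Finset.prod_congr rfl fun j _ => ?_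
      by_cases hj : j = ⟨m, hmd⟩
      · subst hj
        rw [Function.update_self]
        show _ = if m ≤ (j₀ : ℕ) then _ else if m < m then _ else _
        rw [if_neg (by omega), if_neg (lt_irrefl m)]
      · rw [Function.update_of_ne hj]
        have hj' : (j : ℕ) ≠ m := fun h => hj (Fin.ext h)
        show (if (j : ℕ) ≤ j₀ then _ else if (j : ℕ) < m + 1 then _ else _) =
          if (j : ℕ) ≤ j₀ then _ else if (j : ℕ) < m then _ else _
        by_cases hj1 : (j : ℕ) ≤ j₀
        · rw [if_pos hj1, if_pos hj1]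
        · rw [if_neg hj1, if_neg hj1]
          by_cases hj2 : (j : ℕ) < m
          · rw [if_pos hj2, if_pos (by omega)]
          · rw [if_neg hj2, if_neg (by omega)]
  have hGU : ∀ j v, G j₀ j v = U d j v := by
    intro j v
    show (if (j : ℕ) < j₀ then s j (v j) else if (j : ℕ) < j₀ then s j (v j) + s j (v (j + 1)) else
      if j = j₀ then s j (v j) else s j (v (j - 1)) + s j (v j)) =
      if (j : ℕ) ≤ j₀ then s j (v j) else if (j : ℕ) < d then s j (v (j - 1)) + s j (v j) else
      s j (v j)
    rcases lt_trichotomy (j : ℕ) j₀ with h | h | h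
    · rw [if_pos h, if_pos h.le]
    · rw [if_neg (by omega), if_neg (by omega), if_pos (Fin.ext h), if_pos (by omega)]
    · rw [if_neg (by omega), if_neg (by omega), if_neg (fun h' => by rw [h'] at h; omega),
        if_neg (by omega), if_pos j.2]
  have hUT : ∑ τ ∈ flags κ d N, ∏ j, U (j₀ + 1) j (vtx τ) = T N s := by
    refine Finset.sum_congr rfl fun τ _ => Finset.prod_congr rfl fun j _ => ?_
    show (if (j : ℕ) ≤ j₀ then _ else if (j : ℕ) < j₀ + 1 then _ else _) = _
    by_cases hj1 : (j : ℕ) ≤ j₀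
    · rw [if_pos hj1]
    · rw [if_neg hj1, if_neg (by omega)]
  have hG0 : ∑ τ ∈ flags κ d N, ∏ j, G 0 j (vtx τ) = 0 := by
    refine sum_topR hd β A hA i₀ (fun v => ∏ j, G 0 j v) ?_ ?_ ?_
    · intro v w h
      refine Finset.prod_congr rfl fun j _ => ?_
      show (if (j : ℕ) < 0 then s j (v j) else if (j : ℕ) < j₀ then s j (v j) + s j (v (j + 1)) else
        if j = j₀ then s j (v j) else s j (v (j - 1)) + s j (v j)) =
        if (j : ℕ) < 0 then s j (w j) else if (j : ℕ) < j₀ then s j (w j) + s j (w (j + 1)) else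
        if j = j₀ then s j (w j) else s j (w (j - 1)) + s j (w j)
      rw [if_neg (Nat.not_lt_zero _), if_neg (Nat.not_lt_zero _), h j j.2,
        h (j - 1) (lt_of_le_of_lt (Nat.sub_le _ _) j.2)]
      by_cases hj1 : (j : ℕ) < j₀
      · rw [if_pos hj1, if_pos hj1, h (j + 1) (by have := j₀.2; omega)]
      · rw [if_neg hj1, if_neg hj1]
    · intro v i hi h
      refine Finset.prod_congr rfl fun j _ => ?_
      show (if (j : ℕ) < 0 then s j (negA A i (v j)) else if (j : ℕ) < j₀ then
          s j (negA A i (v j)) + s j (negA A i (v (j + 1))) else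
        if j = j₀ then s j (negA A i (v j)) else
          s j (negA A i (v (j - 1))) + s j (negA A i (v j))) =
        if (j : ℕ) < 0 then s j (v j) else if (j : ℕ) < j₀ then s j (v j) + s j (v (j + 1)) else
        if j = j₀ then s j (v j) else s j (v (j - 1)) + s j (v j)
      rw [if_neg (Nat.not_lt_zero _), if_neg (Nat.not_lt_zero _)]
      have h2 : ∀ a b c : ZMod 2, (a + c) + (b + c) = a + b := by decide
      by_cases hj1 : (j : ℕ) < j₀
      · rw [if_pos hj1, if_pos hj1]
        have hne : j ≠ j₀ := fun h' => by rw [h'] at hj1; omega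
        rw [hs j hne i hi _ (h j j.2), hs j hne i hi _ (h (j + 1) (by have := j₀.2; omega)), h2]
      · rw [if_neg hj1, if_neg hj1]
        by_cases hj2 : j = j₀
        · rw [if_pos hj2, if_pos hj2]
          subst hj2
          rw [h0 i hi _ (h j j.2), Pi.zero_apply, add_zero]
        · rw [if_neg hj2, if_neg hj2, hs j hj2 i hi _ (h j j.2),
            hs j hj2 i hi _ (h (j - 1) (lt_of_le_of_lt (Nat.sub_le _ _) j.2)), h2]
    · intro τ hτ h
      exact hz τ hτ h
  have h1 := key j₀ le_rfl
  rw [hG0] at h1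
  rw [← hUT, ← key' d j₀.2 le_rfl, h1]
  refine Finset.sum_congr rfl fun τ _ => Finset.prod_congr rfl fun j _ => ?_
  exact (hGU j _).symm



end Pool.Agent.Helper59.ZP
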