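import Pool.Agent.Helper59.ZP.Cong

set_option autoImplicit false
set_option linter.unusedSectionVars false

/-!
# The sum for a coordinate function in the last position
-/

namespace Pool.Agent.Helper59.ZP

open Finset Pool.Agent.Helper29.ZBU

variable {κ κ' : Type} [Fintype κ] [DecidableEq κ] [Fintype κ'] [DecidableEq κ'] {d N : ℕ}

/-- The sum is invariant for a bijection of the coordinates. -/
theorem T_reindex (ε : κ' ≃ κ) (s : Fin d → (κ → ℤ) → ZMod 2) :
    T N s = T N (fun (j : Fin d) (x : κ' → ℤ) => s j (fun k => x (ε.symm k))) := by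
  unfold T
  refine Finset.sum_nbij'
    (i := fun τ : Flag κ d => ((fun k => τ.1 (ε k), τ.2.1.trans ε.symm, fun k => τ.2.2 (ε k)) :
      Flag κ' d))
    (j := fun τ : Flag κ' d => ((fun k => τ.1 (ε.symm k), τ.2.1.trans ε,
      fun k => τ.2.2 (ε.symm k)) : Flag κ d)) ?_ ?_ ?_ ?_ ?_
  · intro τ hτ
    rw [mem_flags] at hτ ⊢
    exact fun k => hτ (ε k)
  · intro τ hτ
    rw [mem_flags] at hτ ⊢
    exact fun k => hτ (ε.symm k)
  · intro τ _
    refine Prod.ext ?_ (Prod.ext ?_ ?_)
    · funext k
      simp
    · ext k
      simp
    · funext k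
      simp
  · intro τ _
    refine Prod.ext ?_ (Prod.ext ?_ ?_)
    · funext k
      simp
    · ext k
      simp
    · funext k
      simp
  · intro τ _
    refine Finset.prod_congr rfl fun j _ => ?_
    congr 1
    funext k
    unfold vtx
    simp

/-- A permutation of the coordinates which fixes the last one, extended. -/
def sE (σ : Fin d ≃ κ) : Fin (d + 1) ≃ Option κ := finSuccEquivLast.trans (Equiv.optionCongr σ)

theorem sE_last (σ : Fin d ≃ κ) : sE σ (Fin.last d) = none := by
  simp [sE]

theorem sE_symm_none (σ : Fin d ≃ κ) : (sE σ).symm none = Fin.last d := by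
  rw [Equiv.symm_apply_eq, sE_last]

theorem sE_castSucc (σ : Fin d ≃ κ) (i : Fin d) : sE σ i.castSucc = some (σ i) := by
  simp [sE]

theorem sE_symm_some (σ : Fin d ≃ κ) (k : κ) : (sE σ).symm (some k) = (σ.symm k).castSucc := by
  rw [Equiv.symm_apply_eq, sE_castSucc, Equiv.apply_symm_apply]

theorem exists_sE (σ : Fin (d + 1) ≃ Option κ) (h : σ (Fin.last d) = none) : ∃ σ', sE σ' = σ := by
  let e : Option (Fin d) ≃ Option κ := finSuccEquivLast.symm.trans σ
  have he : e none = none := by
    show σ (finSuccEquivLast.symm none) = none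
    rw [finSuccEquivLast_symm_none, h]
  have h1 : Equiv.optionCongr (Equiv.removeNone e) = e := by
    ext1 x
    cases x with
    | none => simp [he]
    | some a =>
      have h3 : ∃ x', e (some a) = some x' := by
        cases h2 : e (some a) with
        | none =>
          rw [← he] at h2
          exact absurd (e.injective h2) (by simp)
        | some x' => exact ⟨x', rfl⟩
      rw [Equiv.optionCongr_apply, Option.map_some, Equiv.removeNone_some _ h3]
  refine ⟨Equiv.removeNone e, ?_⟩
  unfold sE
  rw [h1]
  ext1 x
  simp [e]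

/-- The point with the last coordinate zero. -/
def z0 (x : κ → ℤ) : Option κ → ℤ := fun o => o.elim 0 x

/-- The flag with the last coordinate at the end. -/
def fE (p : Flag κ d × Bool) : Flag (Option κ) (d + 1) :=
  (fun o => o.elim (if p.2 then -1 else 0) p.1.1, sE p.1.2.1, fun o => o.elim p.2 p.1.2.2)

theorem vtx_fE (p : Flag κ d × Bool) {j : ℕ} (hj : j ≤ d) :
    vtx (fE p) j = z0 (vtx p.1 j) := by
  funext o
  cases o with
  | none =>
    show (if (((sE p.1.2.1).symm none : Fin (d + 1)) : ℕ) < j then _ else
      2 * ((if p.2 then (-1 : ℤ) else 0) + bi p.2)) = 0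
    rw [sE_symm_none, if_neg (by rw [Fin.val_last]; omega)]
    cases p.2 <;> simp [bi]
  | some k =>
    show (if (((sE p.1.2.1).symm (some k) : Fin (d + 1)) : ℕ) < j then 2 * p.1.1 k + 1 else
      2 * (p.1.1 k + bi (p.1.2.2 k))) = vtx p.1 j k
    rw [sE_symm_some]
    rfl

theorem vtx_top (τ : Flag κ d) (k : κ) : vtx τ d k = 2 * τ.1 k + 1 := by
  unfold vtx
  rw [if_pos (τ.2.1.symm k).2]

/-- The sum for a coordinate function in the last position. -/
theorem T_slice (hN : 0 < N) (s : Fin (d + 1) → (Option κ → ℤ) → ZMod 2)
    (tie : (Option κ → ℤ) → ZMod 2)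
    (hlast : ∀ x, s (Fin.last d) x = if x none < 0 then 1 else if 0 < x none then 0 else tie x) :
    T N s = T N (fun (j : Fin d) (x : κ → ℤ) => s j.castSucc (z0 x)) := by
  classical
  rw [← T_eq, ← T_eq]
  have hN' : (1 : ℤ) ≤ N := by exact_mod_cast hN
  have hsum : ∑ p ∈ flags κ d N ×ˢ (univ : Finset Bool),
      (∏ j : Fin (d + 1), (s j (vtx (fE p) j) + s j (vtx (fE p) (j + 1)))) =
      ∑ τ ∈ flags (Option κ) (d + 1) N,
        ∏ j : Fin (d + 1), (s j (vtx τ j) + s j (vtx τ (j + 1))) := by
    refine Finset.sum_of_injOn fE ?_ ?_ ?_ fun _ _ => rfl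
    · rintro ⟨⟨c, σ, b⟩, b0⟩ - ⟨⟨c', σ', b'⟩, b0'⟩ - h
      have h1 := congrArg (fun τ : Flag (Option κ) (d + 1) => τ.1) h
      have h2 := congrArg (fun τ : Flag (Option κ) (d + 1) => τ.2.1) h
      have h3 := congrArg (fun τ : Flag (Option κ) (d + 1) => τ.2.2) h
      have e1 : c = c' := by
        funext k
        exact congrFun h1 (some k)
      have e2 : σ = σ' := by
        ext1 i
        have h4 : sE σ i.castSucc = sE σ' i.castSucc := by
          show (fE ((c, σ, b), b0)).2.1 i.castSucc = (fE ((c', σ', b'), b0')).2.1 i.castSucc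
          rw [show (fE ((c, σ, b), b0)).2.1 = (fE ((c', σ', b'), b0')).2.1 from h2]
        rw [sE_castSucc, sE_castSucc] at h4
        exact Option.some.inj h4
      have e3 : b = b' := by
        funext k
        exact congrFun h3 (some k)
      have e4 : b0 = b0' := congrFun h3 none
      rw [e1, e2, e3, e4]
    · rintro ⟨⟨c, σ, b⟩, b0⟩ hp
      have h1 := (Finset.mem_product.1 hp).1
      refine Finset.mem_coe.2 ?_
      rw [mem_flags]
      rw [mem_flags] at h1
      rintro (_ | k)
      · show -(N : ℤ) ≤ (if b0 then (-1 : ℤ) else 0) ∧ (if b0 then (-1 : ℤ) else 0) < N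
        cases b0
        · simp
          omega
        · simp
          omega
      · exact h1 k
    · intro τ hτ hni
      refine Finset.prod_eq_zero (mem_univ (Fin.last d)) ?_
      rw [Fin.val_last, hlast, hlast]
      have hno : vtx τ (d + 1) none = 2 * τ.1 none + 1 := vtx_top τ none
      by_cases hσ : τ.2.1 (Fin.last d) = none
      · have hsy : τ.2.1.symm none = Fin.last d := by rw [Equiv.symm_apply_eq, hσ]
        have hv : vtx τ d none = 2 * (τ.1 none + bi (τ.2.2 none)) := by
          unfold vtx
          rw [hsy, Fin.val_last, if_neg (lt_irrefl d)]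
        have hb : bi (τ.2.2 none) = 0 ∨ bi (τ.2.2 none) = 1 := by
          cases τ.2.2 none <;> simp [bi]
        by_cases hc : τ.1 none + bi (τ.2.2 none) = 0
        · exfalso
          apply hni
          obtain ⟨σ', hσ'⟩ := exists_sE τ.2.1 hσ
          refine ⟨((fun k => τ.1 (some k), σ', fun k => τ.2.2 (some k)), τ.2.2 none), ?_, ?_⟩
          · rw [Finset.mem_coe, Finset.mem_product]
            refine ⟨?_, mem_univ _⟩
            rw [mem_flags] at hτ ⊢
            exact fun k => hτ (some k)
          · refine Prod.ext ?_ (Prod.ext hσ' ?_)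
            · funext o
              cases o with
              | none =>
                show (if τ.2.2 none = true then (-1 : ℤ) else 0) = τ.1 none
                cases h5 : τ.2.2 none with
                | false =>
                  rw [h5] at hc
                  simp only [bi, Bool.false_eq_true, if_false, add_zero] at hc
                  simp [hc]
                | true =>
                  rw [h5] at hc
                  simp only [bi, if_true] at hc
                  simp only [if_true]
                  omega
              | some k => rfl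
            · funext o
              cases o <;> rfl
        · rw [hno, hv]
          rcases lt_or_gt_of_ne hc with h | h
          · rw [if_pos (by omega), if_pos (by omega)]
            exact CharTwo.add_self_eq_zero _
          · rw [if_neg (by omega), if_pos (by omega), if_neg (by omega), if_pos (by omega)]
            exact CharTwo.add_self_eq_zero _
      · have hv : vtx τ d none = 2 * τ.1 none + 1 := by
          unfold vtx
          have h6 : ((τ.2.1.symm none : Fin (d + 1)) : ℕ) ≠ d := by
            intro h
            apply hσ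
            rw [← show τ.2.1.symm none = Fin.last d from Fin.ext h, Equiv.apply_symm_apply]
          rw [if_pos (by have := (τ.2.1.symm none).2; omega)]
        rw [hno, hv]
        rcases lt_or_gt_of_ne (show 2 * τ.1 none + 1 ≠ 0 by omega) with h | h
        · rw [if_pos h, if_pos h]
          exact CharTwo.add_self_eq_zero _
        · rw [if_neg (by omega), if_pos (by omega), if_neg (by omega), if_pos (by omega)]
          exact CharTwo.add_self_eq_zero _
  rw [← hsum, Finset.sum_product]
  refine Finset.sum_congr rfl fun τ _ => ?_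
  have h7 : ∀ b0 : Bool, ∏ j : Fin (d + 1), (s j (vtx (fE (τ, b0)) j) +
      s j (vtx (fE (τ, b0)) (j + 1))) =
      (∏ j : Fin d, (s j.castSucc (z0 (vtx τ j)) + s j.castSucc (z0 (vtx τ (j + 1))))) *
        (tie (z0 (vtx τ d)) + if b0 then 1 else 0) := by
    intro b0
    rw [Fin.prod_univ_castSucc]
    congr 1
    · refine Finset.prod_congr rfl fun j _ => ?_
      rw [Fin.val_castSucc, vtx_fE _ (by omega), vtx_fE _ (by omega)]
    · rw [Fin.val_last, vtx_fE _ le_rfl, hlast, hlast]
      have h8 : vtx (fE (τ, b0)) (d + 1) none = 2 * (if b0 then (-1 : ℤ) else 0) + 1 :=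
        vtx_top (fE (τ, b0)) none
      have h9 : z0 (vtx τ d) none = 0 := rfl
      rw [h8, h9, if_neg (lt_irrefl _), if_neg (lt_irrefl _)]
      cases b0 <;> simp
  rw [Fintype.sum_bool, h7, h7]
  have h10 : ∀ a b : ZMod 2, a * (b + 1) + a * (b + 0) = a := by decide
  exact h10 _ _

end Pool.Agent.Helper59.ZP
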