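import Pool.Agent.Helper59.ZP.Slice

set_option autoImplicit false
set_option linter.unusedSectionVars false

/-!
# The value of the sum for a family over a projective space

The block `0` is the base, the block `1` the sphere of the fibre, the block `2` is not identified.
The identification of the boundary of the block `0` changes also the signs of the coordinates `k`
with `φ k`.
-/

namespace Pool.Agent.Helper59.ZP

open Finset Pool.Agent.Helper29.ZBU Pool.Agent.Helper43.ZT

variable {κ : Type} [Fintype κ] [DecidableEq κ] {d N : ℕ}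

/-- The coordinates which change the sign. -/
def Af (β : κ → Fin 3) (φ : κ → Bool) (i : Fin 3) (k : κ) : Bool :=
  decide (β k = i) || (decide (i = 0) && φ k)

theorem Af_self (β : κ → Fin 3) (φ : κ → Bool) (k : κ) : Af β φ (β k) k = true := by
  simp [Af]

/-- The point with the coordinate `k` zero. -/
def ze (k : κ) (x : {b // b ≠ k} → ℤ) : κ → ℤ := fun b => z0 x ((Equiv.optionSubtypeNe k).symm b)

theorem ze_self (k : κ) (x : {b // b ≠ k} → ℤ) : ze k x k = 0 := by
  unfold ze
  rw [Equiv.optionSubtypeNe_symm_apply, dif_pos rfl]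
  rfl

theorem ze_ne (k : κ) (x : {b // b ≠ k} → ℤ) {b : κ} (h : b ≠ k) : ze k x b = x ⟨b, h⟩ := by
  unfold ze
  rw [Equiv.optionSubtypeNe_symm_apply, dif_neg h]
  rfl

/-- The coordinate function. -/
def cf (k : κ) (tie : (κ → ℤ) → ZMod 2) (x : κ → ℤ) : ZMod 2 :=
  if x k < 0 then 1 else if 0 < x k then 0 else tie x

theorem T_cut (hN : 0 < N) (k : κ) (s : Fin (d + 1) → (κ → ℤ) → ZMod 2)
    (tie : (κ → ℤ) → ZMod 2) (hlast : s (Fin.last d) = cf k tie) :
    T N s = T N (fun (j : Fin d) (x : {b // b ≠ k} → ℤ) => s j.castSucc (ze k x)) := by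
  rw [T_reindex (Equiv.optionSubtypeNe k) s]
  rw [T_slice hN _ (fun x => tie fun b => x ((Equiv.optionSubtypeNe k).symm b))]
  · rfl
  · intro x
    rw [hlast]
    have h1 : (Equiv.optionSubtypeNe k).symm k = none := by
      rw [Equiv.optionSubtypeNe_symm_apply, dif_pos rfl]
    simp only [cf, h1]

theorem eqvR_cf {β : κ → Fin 3} {φ : κ → Bool} {χ : Fin 3 → ZMod 2} {k : κ}
    {tie : (κ → ℤ) → ZMod 2} (ht : EqvR 2 β (Af β φ) N χ tie)
    (hχ : ∀ i, i ≠ 2 → (∃ x, Bd β N i x) → χ i = if Af β φ i k = true then 1 else 0) :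
    EqvR 2 β (Af β φ) N χ (cf k tie) := by
  intro i hi x hx
  have h1 := ht i hi x hx
  have h2 := hχ i hi ⟨x, hx⟩
  unfold cf
  by_cases h : Af β φ i k = true
  · have h3 : negA (Af β φ) i x k = -x k := if_pos h
    rw [h3, h1, h2, if_pos h]
    rcases lt_trichotomy (x k) 0 with h4 | h4 | h4
    · rw [if_neg (by omega), if_pos (by omega), if_pos h4]
      decide
    · rw [if_neg (by omega), if_neg (by omega), if_neg (by omega), if_neg (by omega)]
    · rw [if_pos (by omega), if_neg (by omega), if_pos h4, zero_add]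
  · have h3 : negA (Af β φ) i x k = x k := if_neg h
    rw [h3, h1, h2, if_neg h, add_zero, add_zero]

section cut

variable (β : κ → Fin 3) (φ : κ → Bool) (k : κ)

theorem bd_ze {i : Fin 3} {x : {b // b ≠ k} → ℤ} (h : Bd (fun b : {b // b ≠ k} => β b.1) N i x) :
    Bd β N i (ze k x) := by
  obtain ⟨b, h1, h2⟩ := h
  exact ⟨b.1, h1, by rw [ze_ne k x b.2]; exact h2⟩

theorem negA_ze (i : Fin 3) (x : {b // b ≠ k} → ℤ) :
    ze k (negA (Af (fun b : {b // b ≠ k} => β b.1) fun b => φ b.1) i x) =
      negA (Af β φ) i (ze k x) := by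
  funext b
  by_cases h : b = k
  · subst h
    rw [ze_self]
    show 0 = if Af β φ i b = true then -ze b x b else ze b x b
    rw [ze_self, neg_zero, ite_self]
  · rw [ze_ne k _ h]
    show (if Af β φ i b = true then -x ⟨b, h⟩ else x ⟨b, h⟩) =
      if Af β φ i b = true then -ze k x b else ze k x b
    rw [ze_ne k x h]

theorem EqvR.cut {χ : Fin 3 → ZMod 2} {s : (κ → ℤ) → ZMod 2} (h : EqvR 2 β (Af β φ) N χ s) :
    EqvR 2 (fun b : {b // b ≠ k} => β b.1) (Af (fun b : {b // b ≠ k} => β b.1) fun b => φ b.1) N χ
      (fun x => s (ze k x)) := by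
  intro i hi x hx
  show s (ze k _) = s (ze k x) + χ i
  rw [negA_ze]
  exact h i hi _ (bd_ze β k hx)

theorem Cst.cut {D : ℕ} {S : Fin D → (κ → ℤ) → ZMod 2} (h : Cst 2 β N S) :
    Cst 2 (fun b : {b // b ≠ k} => β b.1) N (fun j x => S j (ze k x)) := by
  intro v h1 h2 h3
  refine h (fun l => ze k (v l)) ?_ ?_ fun l => bd_ze β k (h3 l)
  · intro l b
    by_cases hb : b = k
    · subst hb
      rw [ze_self, abs_zero]
      positivity
    · rw [ze_ne k _ hb]
      exact h1 l _
  · intro l l' b
    by_cases hb : b = k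
    · subst hb
      rw [ze_self, ze_self, sub_zero, abs_zero]
      norm_num
    · rw [ze_ne k _ hb, ze_ne k _ hb]
      exact h2 l l' _

end cut

theorem card_ne (k : κ) (P : κ → Prop) [DecidablePred P] :
    (univ.filter fun b : {b // b ≠ k} => P b.1).card + (if P k then 1 else 0) =
      (univ.filter P).card := by
  have h1 : (univ.filter fun b : {b // b ≠ k} => P b.1).map (Function.Embedding.subtype _) =
      (univ.filter P).erase k := by
    ext b
    simp only [mem_map, mem_filter, mem_univ, true_and, Function.Embedding.coe_subtype, mem_erase]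
    constructor
    · rintro ⟨c, h, rfl⟩
      exact ⟨c.2, h⟩
    · rintro ⟨h1, h2⟩
      exact ⟨⟨b, h1⟩, h2, rfl⟩
  rw [← card_map (Function.Embedding.subtype _), h1]
  by_cases h : P k
  · rw [if_pos h, card_erase_of_mem (by simp [h])]
    have : 0 < (univ.filter P).card := card_pos.2 ⟨k, by simp [h]⟩
    omega
  · rw [if_neg h, add_zero, erase_eq_of_notMem (by simp [h])]

/-- The functions `S`, followed by `m` times the function `E`. -/
def ap {D : ℕ} (S : Fin D → (κ → ℤ) → ZMod 2) (E : (κ → ℤ) → ZMod 2) (m : ℕ) :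
    Fin (D + m) → (κ → ℤ) → ZMod 2 := fun j => if h : (j : ℕ) < D then S ⟨j, h⟩ else E

/-- The values. -/
def V (p f : ℕ) : ZMod 2 := ((p + f - 1).choose p : ℕ)

theorem V_zero (f : ℕ) : V 0 f = 1 := by
  unfold V
  rw [Nat.choose_zero_right, Nat.cast_one]

theorem V_succ_zero (p : ℕ) : V (p + 1) 0 = 0 := by
  unfold V
  rw [Nat.choose_eq_zero_of_lt (by omega), Nat.cast_zero]

theorem V_succ_succ (p f : ℕ) : V (p + 1) (f + 1) = V (p + 1) f + V p (f + 1) := by
  unfold V
  rw [show p + 1 + (f + 1) - 1 = (p + f) + 1 by omega, show p + 1 + f - 1 = p + f by omega,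
    show p + (f + 1) - 1 = p + f by omega, Nat.choose_succ_succ, Nat.cast_add, add_comm]

theorem T_last {D m : ℕ} {β : κ → Fin 3} {φ : κ → Bool} {S : Fin D → (κ → ℤ) → ZMod 2}
    (hS : ∀ j, EqvR 2 β (Af β φ) N 0 (S j)) (hC : Cst 2 β N S) {E : (κ → ℤ) → ZMod 2}
    {χ : Fin 3 → ZMod 2} (hE : EqvR 2 β (Af β φ) N χ E) {c c' : (κ → ℤ) → ZMod 2}
    {χ' : Fin 3 → ZMod 2} (hc : EqvR 2 β (Af β φ) N χ' c) (hc' : EqvR 2 β (Af β φ) N χ' c') :
    T N (Function.update (ap S E (m + 1)) (Fin.last (D + m)) c) =
      T N (Function.update (ap S E (m + 1)) (Fin.last (D + m)) c') := by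
  have hup : ∀ (a : (κ → ℤ) → ZMod 2), EqvR 2 β (Af β φ) N χ' a → ∀ j : Fin (D + m + 1),
      EqvR 2 β (Af β φ) N (if j = Fin.last (D + m) then χ' else if (j : ℕ) < D then 0 else χ)
        (Function.update (ap S E (m + 1)) (Fin.last (D + m)) a j) := by
    intro a ha j
    by_cases hj : j = Fin.last (D + m)
    · subst hj
      rw [Function.update_self, if_pos rfl]
      exact ha
    · rw [Function.update_of_ne hj, if_neg hj]
      show EqvR 2 β (Af β φ) N _ (if h : (j : ℕ) < D then S ⟨j, h⟩ else E)
      by_cases h : (j : ℕ) < D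
      · rw [dif_pos h, if_pos h]
        exact hS _
      · rw [dif_neg h, if_neg h]
        exact hE
  refine T_congrR (D := D) (d := D + m + 1) (by omega) (Af_self β φ) 2 (hup c hc) (hup c' hc') ?_ ?_
  · have h1 : (fun j : Fin D => Function.update (ap S E (m + 1)) (Fin.last (D + m)) c
        (Fin.castLE (by omega) j)) = S := by
      funext j
      have h2 : (Fin.castLE (by omega) j : Fin (D + m + 1)) ≠ Fin.last (D + m) := by
        intro h
        have h3 := congrArg Fin.val h
        rw [Fin.val_last] at h3
        have h4 : ((Fin.castLE (by omega) j : Fin (D + m + 1)) : ℕ) = j := rfl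
        have := j.2
        omega
      rw [Function.update_of_ne h2]
      show (if h : ((j : Fin D) : ℕ) < D then S ⟨j, h⟩ else E) = S j
      rw [dif_pos j.2]
    rw [h1]
    exact hC
  · intro j hj
    have h2 : j ≠ Fin.last (D + m) := by
      intro h
      rw [h, Fin.val_last] at hj
      omega
    rw [Function.update_of_ne h2, Function.update_of_ne h2]

theorem T_last_self {D m : ℕ} (S : Fin D → (κ → ℤ) → ZMod 2) (E : (κ → ℤ) → ZMod 2) :
    Function.update (ap S E (m + 1)) (Fin.last (D + m)) E = ap S E (m + 1) := by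
  have h1 : ap S E (m + 1) (Fin.last (D + m)) = E := by
    show (if h : ((Fin.last (D + m) : Fin (D + m + 1)) : ℕ) < D then _ else E) = E
    rw [dif_neg (by rw [Fin.val_last]; omega)]
  have h2 := Function.update_eq_self (Fin.last (D + m)) (ap S E (m + 1))
  rwa [h1] at h2

theorem T_last_cut {D m : ℕ} (hN : 0 < N) (S : Fin D → (κ → ℤ) → ZMod 2)
    (E tie : (κ → ℤ) → ZMod 2) (k : κ) :
    T N (Function.update (ap S E (m + 1)) (Fin.last (D + m)) (cf k tie)) =
      T N (ap (fun j (x : {b // b ≠ k} → ℤ) => S j (ze k x)) (fun x => E (ze k x)) m) := by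
  rw [T_cut (d := D + m) hN k _ tie (Function.update_self _ _ _)]
  congr 1
  funext j x
  have h2 : j.castSucc ≠ Fin.last (D + m) := (Fin.castSucc_lt_last j).ne
  rw [Function.update_of_ne h2]
  show (if h : (j : ℕ) < D then S ⟨j, h⟩ else E) (ze k x) =
    (if h : (j : ℕ) < D then (fun x => S ⟨j, h⟩ (ze k x)) else fun x => E (ze k x)) x
  by_cases h : (j : ℕ) < D
  · rw [dif_pos h, dif_pos h]
  · rw [dif_neg h, dif_neg h]

/-- The value of the sum. -/
theorem V_main {α : Type} [Fintype α] [DecidableEq α] {D : ℕ} (hN : 0 < N) (m : ℕ) :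
    ∀ (κ : Type) [Fintype κ] [DecidableEq κ] (β : κ → Fin 3) (φ : κ → Bool) (g : α → κ),
      Function.Injective g → (∀ k, β k = 2 ↔ ∃ a, g a = k) → ∀ p f : ℕ,
      (univ.filter fun k => β k = 0).card = p →
      (univ.filter fun k => β k = 1 ∧ φ k = true).card = f →
      (univ.filter fun k => β k ≠ 2).card = m → ∀ S : Fin D → (κ → ℤ) → ZMod 2,
      (∀ j, EqvR 2 β (Af β φ) N 0 (S j)) → Cst 2 β N S → ∀ Et Ea : (κ → ℤ) → ZMod 2,
      EqvR 2 β (Af β φ) N (Pi.single 1 1) Et → EqvR 2 β (Af β φ) N (Pi.single 0 1) Ea →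
      T N (ap S Et m) = V p f * T N (fun j (x : α → ℤ) => S j (Function.extend g x 0)) := by
  induction m with
  | zero =>
    intro κ _ _ β φ g hg hgβ p f hp hf hm S hS hC Et Ea hEt hEa
    rw [card_eq_zero, filter_eq_empty_iff] at hm
    have h2 : ∀ k, β k = 2 := fun k => not_not.1 (hm (mem_univ k))
    have hp0 : p = 0 := by
      rw [← hp, card_eq_zero, filter_eq_empty_iff]
      intro k _
      rw [h2]
      decide
    subst hp0
    have hbij : Function.Bijective g := ⟨hg, fun k => (hgβ k).1 (h2 k)⟩
    rw [V_zero, one_mul, T_reindex (Equiv.ofBijective g hbij) (ap S Et 0)]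
    show T N _ = T (d := D) N _
    congr 1
    funext j x
    have h4 : Function.extend g x 0 = fun k => x ((Equiv.ofBijective g hbij).symm k) := by
      funext k
      obtain ⟨a, rfl⟩ := hbij.2 k
      rw [hg.extend_apply]
      congr 1
      rw [Equiv.eq_symm_apply]
      rfl
    rw [h4]
    show (if h : (j : ℕ) < D then S ⟨j, h⟩ else Et) _ = S j _
    rw [dif_pos (show (j : ℕ) < D from j.2)]
    rfl
  | succ m ih =>
    intro κ _ _ β φ g hg hgβ p f hp hf hm S hS hC Et Ea hEt hEa
    -- the step at the coordinate `k`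
    have cut : ∀ (k : κ), β k ≠ 2 → ∀ (p' f' : ℕ),
        (univ.filter fun b : {b // b ≠ k} => β b.1 = 0).card = p' →
        (univ.filter fun b : {b // b ≠ k} => β b.1 = 1 ∧ φ b.1 = true).card = f' →
        T N (ap (fun j (x : {b // b ≠ k} → ℤ) => S j (ze k x)) (fun x => Et (ze k x)) m) =
          V p' f' * T N (fun j (x : α → ℤ) => S j (Function.extend g x 0)) := by
      intro k hk p' f' hp' hf'
      have hgk : ∀ a, g a ≠ k := fun a h => hk ((hgβ k).2 ⟨a, h⟩)
      have hg' : Function.Injective fun a : α => (⟨g a, hgk a⟩ : {b // b ≠ k}) := by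
        intro a b h
        exact hg (congrArg Subtype.val h)
      have h1 := ih {b // b ≠ k} (fun b => β b.1) (fun b => φ b.1) (fun a => ⟨g a, hgk a⟩) hg' ?_
        p' f' hp' hf' ?_ (fun j x => S j (ze k x)) (fun j => (hS j).cut β φ k) (hC.cut β k)
        (fun x => Et (ze k x)) (fun x => Ea (ze k x)) (hEt.cut β φ k) (hEa.cut β φ k)
      · rw [h1]
        congr 2
        funext j x
        congr 1
        funext b
        by_cases hb : b = k
        · subst hb
          rw [ze_self, Function.extend_apply']
          · rfl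
          · rintro ⟨a, ha⟩
            exact hgk a ha
        · rw [ze_ne k _ hb]
          by_cases hb' : ∃ a, g a = b
          · obtain ⟨a, rfl⟩ := hb'
            rw [hg.extend_apply]
            exact hg'.extend_apply x 0 a
          · rw [Function.extend_apply' _ _ _ hb', Function.extend_apply']
            · rfl
            · rintro ⟨a, ha⟩
              exact hb' ⟨a, congrArg Subtype.val ha⟩
      · rintro ⟨b, hb⟩
        show β b = 2 ↔ _
        rw [hgβ b]
        constructor
        · rintro ⟨a, ha⟩
          exact ⟨a, Subtype.ext ha⟩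
        · rintro ⟨a, ha⟩
          exact ⟨a, congrArg Subtype.val ha⟩
      · have h2 := card_ne k fun b => β b ≠ 2
        rw [if_pos hk, hm] at h2
        omega
    have hlast := T_last_self (m := m) S Et
    by_cases hu : ∃ k, β k = 1 ∧ φ k = false
    · obtain ⟨k, hk1, hk2⟩ := hu
      have hk : β k ≠ 2 := by
        rw [hk1]
        decide
      have hc : EqvR 2 β (Af β φ) N (Pi.single 1 1) (cf k Et) := by
        refine eqvR_cf hEt fun i hi _ => ?_
        unfold Af
        rw [hk1, hk2]
        fin_cases i
        · simp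
        · simp
        · exact absurd rfl hi
      rw [← hlast, T_last hS hC hEt hEt hc, T_last_cut hN]
      refine cut k hk p f ?_ ?_
      · have h2 := card_ne k fun b => β b = 0
        rw [if_neg (by rw [hk1]; decide), add_zero] at h2
        rw [h2, hp]
      · have h2 := card_ne k fun b => β b = 1 ∧ φ b = true
        rw [if_neg (by rw [hk2]; simp), add_zero] at h2
        rw [h2, hf]
    push Not at hu
    by_cases hfl : ∃ k, β k = 1
    · obtain ⟨k, hk1⟩ := hfl
      have hk2 : φ k = true := by
        cases h : φ k with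
        | false => exact absurd h (hu k hk1)
        | true => rfl
      have hk : β k ≠ 2 := by
        rw [hk1]
        decide
      have hf1 : (univ.filter fun b : {b // b ≠ k} => β b.1 = 1 ∧ φ b.1 = true).card + 1 = f := by
        have h2 := card_ne k fun b => β b = 1 ∧ φ b = true
        rwa [if_pos ⟨hk1, hk2⟩, hf] at h2
      have hp1 : (univ.filter fun b : {b // b ≠ k} => β b.1 = 0).card = p := by
        have h2 := card_ne k fun b => β b = 0
        rwa [if_neg (by rw [hk1]; decide), add_zero, hp] at h2
      obtain ⟨f', rfl⟩ : ∃ f', f = f' + 1 := ⟨_, hf1.symm⟩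
      have hf1' := Nat.add_right_cancel hf1
      by_cases hb : ∃ k, β k = 0
      · obtain ⟨b, hb0⟩ := hb
        have hbn : β b ≠ 2 := by
          rw [hb0]
          decide
        have hp2 : (univ.filter fun c : {c // c ≠ b} => β c.1 = 0).card + 1 = p := by
          have h2 := card_ne b fun c => β c = 0
          rwa [if_pos hb0, hp] at h2
        have hf2 : (univ.filter fun c : {c // c ≠ b} => β c.1 = 1 ∧ φ c.1 = true).card = f' + 1 := by
          have h2 := card_ne b fun c => β c = 1 ∧ φ c = true
          rwa [if_neg (by rw [hb0]; simp), add_zero, hf] at h2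
        obtain ⟨p', rfl⟩ : ∃ p', p = p' + 1 := ⟨_, hp2.symm⟩
        have hp2' := Nat.add_right_cancel hp2
        -- the character of the flipped coordinate
        have hEs : EqvR 2 β (Af β φ) N (Pi.single 1 1 + Pi.single 0 1) (Et + Ea) := hEt.add hEa
        have hc : EqvR 2 β (Af β φ) N (Pi.single 1 1 + Pi.single 0 1) (cf k (Et + Ea)) := by
          refine eqvR_cf hEs fun i hi _ => ?_
          unfold Af
          rw [hk1, hk2]
          fin_cases i
          · simp
          · simp
          · exact absurd rfl hi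
        have hcc : EqvR 2 β (Af β φ) N (Pi.single 1 1) (cf k (Et + Ea) + Ea) := by
          have h3 := hc.add hEa
          have h4 : (Pi.single 1 1 + Pi.single 0 1 + Pi.single 0 1 : Fin 3 → ZMod 2) =
              Pi.single 1 1 := by decide
          rwa [h4] at h3
        have hca : EqvR 2 β (Af β φ) N (Pi.single 0 1) (cf b Ea) := by
          refine eqvR_cf hEa fun i hi _ => ?_
          unfold Af
          rw [hb0]
          fin_cases i
          · simp
          · simp
          · exact absurd rfl hi
        have hadd : T N (Function.update (ap S Et (m + 1)) (Fin.last (D + m))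
            (cf k (Et + Ea) + Ea)) =
            T N (Function.update (ap S Et (m + 1)) (Fin.last (D + m)) (cf k (Et + Ea))) +
            T N (Function.update (ap S Et (m + 1)) (Fin.last (D + m)) Ea) := by
          have h5 := T_update_add (N := N) (Function.update (ap S Et (m + 1)) (Fin.last (D + m))
            (cf k (Et + Ea))) (Fin.last (D + m)) Ea
          rw [Function.update_self, Function.update_idem, Function.update_idem] at h5
          exact h5
        rw [← hlast, T_last hS hC hEt hEt hcc, hadd, T_last_cut hN,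
          T_last hS hC hEt hEa hca, T_last_cut hN, cut k hk (p' + 1) f' hp1 hf1',
          cut b hbn p' (f' + 1) hp2' hf2, ← add_mul, V_succ_succ]
      · have hp0 : p = 0 := by
          rw [← hp, card_eq_zero, filter_eq_empty_iff]
          intro c _ hc
          exact hb ⟨c, hc⟩
        subst hp0
        have hc : EqvR 2 β (Af β φ) N (Pi.single 1 1) (cf k Et) := by
          refine eqvR_cf hEt fun i hi hx => ?_
          unfold Af
          rw [hk1]
          fin_cases i
          · obtain ⟨x, c, hc, -⟩ := hx
            exact absurd ⟨c, hc⟩ hb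
          · simp
          · exact absurd rfl hi
        rw [← hlast, T_last hS hC hEt hEt hc, T_last_cut hN, cut k hk 0 f' hp1 hf1']
        rw [V_zero, V_zero]
    · -- no coordinate of the fibre
      have hf0 : f = 0 := by
        rw [← hf, card_eq_zero, filter_eq_empty_iff]
        rintro c _ ⟨hc, -⟩
        exact hfl ⟨c, hc⟩
      subst hf0
      have hp0 : 0 < p := by
        rw [← hp, card_pos]
        have h2 : 0 < (univ.filter fun k => β k ≠ 2).card := by omega
        obtain ⟨k, hk⟩ := card_pos.1 h2
        rw [mem_filter] at hk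
        refine ⟨k, mem_filter.2 ⟨mem_univ k, ?_⟩⟩
        have h3 : β k ≠ 1 := fun h => hfl ⟨k, h⟩
        have h4 := hk.2
        generalize β k = i at h3 h4 ⊢
        fin_cases i
        · rfl
        · exact absurd rfl h3
        · exact absurd rfl h4
      obtain ⟨p', rfl⟩ : ∃ p', p = p' + 1 := ⟨p - 1, by omega⟩
      rw [V_succ_zero, zero_mul]
      refine T_zeroR (d := D + (m + 1)) (β := β) (A := Af β φ)
        (χ := fun j => if (j : ℕ) < D then 0 else Pi.single 1 1) (Af_self β φ) 2
        (Fin.last (D + m)) ?_ ?_ ?_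
      · intro j _
        show EqvR 2 β (Af β φ) N (if (j : ℕ) < D then 0 else Pi.single 1 1)
          (if h : (j : ℕ) < D then S ⟨j, h⟩ else Et)
        by_cases h : (j : ℕ) < D
        · rw [dif_pos h, if_pos h]
          exact hS _
        · rw [dif_neg h, if_neg h]
          exact hEt
      · have h1 : ap S Et (m + 1) (Fin.last (D + m)) = Et := by
          show (if h : ((Fin.last (D + m) : Fin (D + m + 1)) : ℕ) < D then _ else Et) = Et
          rw [dif_neg (by rw [Fin.val_last]; omega)]
        rw [h1]
        intro i hi x hx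
        rw [hEt i hi x hx]
        congr 1
        fin_cases i
        · rfl
        · obtain ⟨c, hc, -⟩ := hx
          exact absurd ⟨c, hc⟩ hfl
        · exact absurd rfl hi
      · refine Gz_prod (D := D) (by omega) 2 (Fin.last (D + m)) (by rw [Fin.val_last]; omega) ?_
        have h1 : (fun j : Fin D => ap S Et (m + 1) (Fin.castLE (by omega) j)) = S := by
          funext j
          show (if h : ((j : Fin D) : ℕ) < D then S ⟨j, h⟩ else Et) = S j
          rw [dif_pos j.2]
        rw [h1]
        exact hC

end Pool.Agent.Helper59.ZP
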